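import Pool.Agent.WFS.K.Sd

/-! # (K) with supports: the final form (helper91, WFS, module K) -/

set_option autoImplicit false
set_option linter.all false

noncomputable section

namespace Pool.WFS.K

open Polynomial
open scoped Classical

variable {ι : Type}

/-- `Es J' (a+1)` and one commutator -/
def Hs (J' : Set ι) (i j : ι) (a : ℕ) : Subgroup (G ι) :=
  Subgroup.closure ((Es J' (a + 1) : Set (G ι)) ∪ {Cab i j 1 a})

theorem Es_le_Hs (J' : Set ι) (i j : ι) (a : ℕ) : Es J' (a + 1) ≤ Hs J' i j a :=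
  fun _ hg => Subgroup.subset_closure (Or.inl hg)

theorem Cab_mem_Hs (J' : Set ι) (i j : ι) (a : ℕ) : Cab i j 1 a ∈ Hs J' i j a :=
  Subgroup.subset_closure (Or.inr rfl)

theorem Hs_le_Gam {J' : Set ι} {i j : ι} (hij : i ≠ j) (a : ℕ) : Hs J' i j a ≤ Gam ι (a + 1) := by
  rw [Hs, Subgroup.closure_le]
  rintro g (hg | hg)
  · exact Es_le_Gam _ _ hg
  · rw [Set.mem_singleton_iff] at hg
    rw [hg]
    exact CabS_mem_Gam hij

/-- the first quotient: by `Es J' (a+1)` -/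
def nm0 {K J' : Set ι} (hK : K ⊆ J') {q : ι} (hq : q ∈ J') (hqK : q ∉ K) (a : ℕ) : Nm ι where
  K := K
  H := Es J' (a + 1)
  a := a
  conj := fun p hp g hg => conj_mem_Es (PPs_mono hK hp) hg
  cen := fun z hz hz' p hp => central_s hK hq hqK hz hz' hp
  le := Es_mono hK (a + 1)

/-- the second quotient: by `Es J' (a+1)` and one commutator -/
def nm1 {K J' : Set ι} (hK : K ⊆ J') {q : ι} (hq : q ∈ J') (hqK : q ∉ K) {i j : ι} (hij : i ≠ j)
    (hi : i ∈ K) (hj : j ∈ K) (a : ℕ) : Nm ι where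
  K := K
  H := Hs J' i j a
  a := a
  conj := by
    intro p hp g hg
    induction hg using Subgroup.closure_induction with
    | mem x hx =>
      rcases hx with hx | hx
      · exact Es_le_Hs J' i j a (conj_mem_Es (PPs_mono hK hp) hx)
      · rw [Set.mem_singleton_iff] at hx
        subst hx
        have h1 := Es_le_Hs J' i j a (central_s hK hq hqK (Cab_mem_PPs hij hi hj 1 a)
          (CabS_mem_Gam (a := a) hij) hp)
        have h2 := (Hs J' i j a).mul_mem ((Hs J' i j a).inv_mem h1) (Cab_mem_Hs J' i j a)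
        convert h2 using 1
        group
    | one => simpa using (Hs J' i j a).one_mem
    | mul x y _ _ hx hy =>
      have := (Hs J' i j a).mul_mem hx hy
      convert this using 1
      group
    | inv x _ hx =>
      have := (Hs J' i j a).inv_mem hx
      convert this using 1
      group
  cen := fun z hz hz' p hp => Es_le_Hs J' i j a (central_s hK hq hqK hz hz' hp)
  le := (Es_mono hK (a + 1)).trans (Es_le_Hs J' i j a)

theorem Nm.indep' {σ : Nm ι} {i j k l : ι} (hij : i ≠ j) (hkl : k ≠ l) (hi : i ∈ σ.K)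
    (hj : j ∈ σ.K) (hk : k ∈ σ.K) (hl : l ∈ σ.K) (h3 : ∀ x y : ι, ∃ z ∈ σ.K, z ≠ x ∧ z ≠ y) :
    (Cab k l 1 σ.a)⁻¹ * Cab i j 1 σ.a ∈ σ.H := by
  have h := Nm.indep (σ := σ) hij hkl hi hj hk hl h3
  have h' : σ.pr ((⟨Cab k l 1 σ.a, Cab_mem_PPs hkl hk hl 1 σ.a⟩ : ↥(PPs σ.K))⁻¹ *
      (⟨Cab i j 1 σ.a, Cab_mem_PPs hij hi hj 1 σ.a⟩ : ↥(PPs σ.K))) = 1 := by
    rw [map_mul, map_inv]
    exact inv_mul_eq_one.2 h.symm
  exact Nm.pr_eq_one.1 h'

/-- the class of `C^(ij)` does not depend on `i, j` -/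
theorem Cab_indep_s {K J' : Set ι} (hK : K ⊆ J') {q : ι} (hq : q ∈ J') (hqK : q ∉ K) {a : ℕ}
    {i j k l : ι} (hij : i ≠ j) (hkl : k ≠ l) (hi : i ∈ K) (hj : j ∈ K) (hk : k ∈ K) (hl : l ∈ K)
    (h3 : ∀ x y : ι, ∃ z ∈ K, z ≠ x ∧ z ≠ y) :
    (Cab k l 1 a)⁻¹ * Cab i j 1 a ∈ Es J' (a + 1) := by
  exact Nm.indep' (σ := nm0 hK hq hqK a) hij hkl hi hj hk hl h3

theorem nm1_HC {K J' : Set ι} (hK : K ⊆ J') {q : ι} (hq : q ∈ J') (hqK : q ∉ K) {i j : ι}
    (hij : i ≠ j) (hi : i ∈ K) (hj : j ∈ K) (a : ℕ) (h3 : ∀ x y : ι, ∃ z ∈ K, z ≠ x ∧ z ≠ y) :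
    (nm1 hK hq hqK hij hi hj a).HC := by
  intro k l hkl hk hl
  have h := Cab_indep_s (a := a) hK hq hqK hkl hij hk hl hi hj h3
  have h1 := (Hs J' i j a).mul_mem (Cab_mem_Hs J' i j a) (Es_le_Hs J' i j a h)
  rw [mul_inv_cancel_left] at h1
  exact h1

theorem four_of {J2 : Set ι} (x : Fin 4 → ι) (hx : Function.Injective x) (h : ∀ k, x k ∈ J2) :
    Four ↥J2 := by
  intro s hs
  by_contra hne
  push Not at hne
  have h1 : (Finset.univ.image fun k : Fin 4 => (⟨x k, h k⟩ : ↥J2)) ⊆ s := by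
    intro y _
    exact hne y
  have h2 := Finset.card_le_card h1
  rw [Finset.card_image_of_injective _ (fun a b hab => hx (Subtype.ext_iff.1 hab))] at h2
  rw [Finset.card_univ, Fintype.card_fin] at h2
  omega

/-- **(K) with supports** : five spare indices -/
theorem K_s {J J' : Set ι} (hJ : J ⊆ J') {i j : ι} (hij : i ≠ j) (hi : i ∈ J) (hj : j ∈ J)
    (s : Fin 5 → ι) (hs : Function.Injective s) (hsJ : ∀ k, s k ∉ J) (hsJ' : ∀ k, s k ∈ J')
    {a : ℕ} (ha : 1 ≤ a) {g : G ι} (hg : g ∈ Es J a) (hG : g ∈ Gam ι (a + 1)) :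
    g ∈ Subgroup.closure ((Es J' (a + 1) : Set (G ι)) ∪ {Cab i j 1 a}) := by
  have hne : ∀ k l : Fin 5, k ≠ l → s k ≠ s l := fun k l h h' => h (hs h')
  set J2 : Set ι := J ∪ {s 0, s 1} with hJ2
  set J1 : Set ι := J2 ∪ {s 2} with hJ1
  set K : Set ι := J1 ∪ {s 3} with hKd
  have e2 : ∀ x, x ∈ J2 ↔ x ∈ J ∨ x = s 0 ∨ x = s 1 := by
    intro x
    rw [hJ2, Set.mem_union, Set.mem_insert_iff, Set.mem_singleton_iff]
  have e1 : ∀ x, x ∈ J1 ↔ x ∈ J2 ∨ x = s 2 := by
    intro x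
    rw [hJ1, Set.mem_union, Set.mem_singleton_iff]
  have eK : ∀ x, x ∈ K ↔ x ∈ J1 ∨ x = s 3 := by
    intro x
    rw [hKd, Set.mem_union, Set.mem_singleton_iff]
  have hK : K ⊆ J' := by
    intro x hx
    rw [eK, e1, e2] at hx
    rcases hx with ((h | h | h) | h) | h
    · exact hJ h
    · rw [h]; exact hsJ' 0
    · rw [h]; exact hsJ' 1
    · rw [h]; exact hsJ' 2
    · rw [h]; exact hsJ' 3
  have hqK : s 4 ∉ K := by
    intro hx
    rw [eK, e1, e2] at hx
    rcases hx with ((h | h | h) | h) | h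
    · exact hsJ 4 h
    · exact hne 4 0 (by decide) h
    · exact hne 4 1 (by decide) h
    · exact hne 4 2 (by decide) h
    · exact hne 4 3 (by decide) h
  have h02 : J ⊆ J2 := fun x hx => (e2 x).2 (Or.inl hx)
  have h21 : J2 ⊆ J1 := fun x hx => (e1 x).2 (Or.inl hx)
  have h1K : J1 ⊆ K := fun x hx => (eK x).2 (Or.inl hx)
  have hJK : J ⊆ K := (h02.trans h21).trans h1K
  have hiJ : ∀ k, i ≠ s k := fun k h => hsJ k (h ▸ hi)
  have hjJ : ∀ k, j ≠ s k := fun k h => hsJ k (h ▸ hj)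
  have s0 : s 0 ∈ J2 := (e2 _).2 (Or.inr (Or.inl rfl))
  have s1 : s 1 ∈ J2 := (e2 _).2 (Or.inr (Or.inr rfl))
  have h3 : ∀ x y : ι, ∃ z ∈ K, z ≠ x ∧ z ≠ y := by
    intro x y
    by_cases h1 : i ≠ x ∧ i ≠ y
    · exact ⟨i, hJK hi, h1⟩
    by_cases h2 : j ≠ x ∧ j ≠ y
    · exact ⟨j, hJK hj, h2⟩
    refine ⟨s 0, h1K (h21 s0), ?_, ?_⟩
    · intro h
      rw [← h] at h1 h2
      have t1 : i = y := by
        by_contra hh
        exact h1 ⟨hiJ 0, hh⟩
      have t2 : j = y := by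
        by_contra hh
        exact h2 ⟨hjJ 0, hh⟩
      exact hij (t1.trans t2.symm)
    · intro h
      rw [← h] at h1 h2
      have t1 : i = x := by
        by_contra hh
        exact h1 ⟨hh, hiJ 0⟩
      have t2 : j = x := by
        by_contra hh
        exact h2 ⟨hh, hjJ 0⟩
      exact hij (t1.trans t2.symm)
  have h4 : Four ↥J2 := by
    apply four_of ![i, j, s 0, s 1]
    · intro x y hxy
      fin_cases x <;> fin_cases y <;> simp_all [hij.symm, (hiJ 0).symm, (hiJ 1).symm,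
        (hjJ 0).symm, (hjJ 1).symm, hne 0 1 (by decide), hne 1 0 (by decide)]
    · intro k
      fin_cases k
      · exact h02 hi
      · exact h02 hj
      · exact s0
      · exact s1
  let σ : Nm ι := nm1 hK (hsJ' 4) hqK hij (hJK hi) (hJK hj) a
  let c : Chn σ :=
    { J := J
      J2 := J2
      J1 := J1
      hJ := h02
      hJ2 := h21
      hJ1 := h1K
      o := s 0
      ho := s0
      hoJ := hsJ 0
      l := s 2
      hl := (e1 _).2 (Or.inr rfl)
      hlJ := by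
        intro hx
        rw [e2] at hx
        rcases hx with h | h | h
        · exact hsJ 2 h
        · exact hne 2 0 (by decide) h
        · exact hne 2 1 (by decide) h
      p := s 3
      hp := (eK _).2 (Or.inr rfl)
      hpJ := by
        intro hx
        rw [e1, e2] at hx
        rcases hx with (h | h | h) | h
        · exact hsJ 3 h
        · exact hne 3 0 (by decide) h
        · exact hne 3 1 (by decide) h
        · exact hne 3 2 (by decide) h
      hC := nm1_HC hK (hsJ' 4) hqK hij (hJK hi) (hJK hj) a h3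
      h3 := h3
      h4 := h4
      ha := ha }
  exact Chn.K (c := c) hg hG (Hs_le_Gam hij a)

/-- powers of `C` modulo `Es J' (a+1)` -/
theorem K_s' {J J' : Set ι} (hJ : J ⊆ J') {i j : ι} (hij : i ≠ j) (hi : i ∈ J) (hj : j ∈ J)
    (s : Fin 5 → ι) (hs : Function.Injective s) (hsJ : ∀ k, s k ∉ J) (hsJ' : ∀ k, s k ∈ J')
    {a : ℕ} (ha : 1 ≤ a) {g : G ι} (hg : g ∈ Es J a) (hG : g ∈ Gam ι (a + 1)) :
    ∃ n : ℤ, (Cab i j 1 a ^ n)⁻¹ * g ∈ Es J' (a + 1) := by
  have h := K_s hJ hij hi hj s hs hsJ hsJ' ha hg hG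
  have hC : ∀ n : ℤ, Cab i j 1 a ^ n ∈ PPs J' := fun n =>
    (PPs J').zpow_mem (PPs_mono hJ (Cab_mem_PPs hij hi hj 1 a)) n
  clear hg hG
  induction h using Subgroup.closure_induction with
  | mem x hx =>
    rcases hx with hx | hx
    · exact ⟨0, by simpa using hx⟩
    · rw [Set.mem_singleton_iff] at hx
      subst hx
      exact ⟨1, by simp [(Es J' (a + 1)).one_mem]⟩
  | one => exact ⟨0, by simp [(Es J' (a + 1)).one_mem]⟩
  | mul x y _ _ hx hy =>
    obtain ⟨n, hn⟩ := hx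
    obtain ⟨m, hm⟩ := hy
    refine ⟨n + m, ?_⟩
    have h1 := conj_mem_Es ((PPs J').inv_mem (hC m)) hn
    have := (Es J' (a + 1)).mul_mem h1 hm
    convert this using 1
    rw [zpow_add]
    group
  | inv x _ hx =>
    obtain ⟨n, hn⟩ := hx
    refine ⟨-n, ?_⟩
    have h1 := conj_mem_Es (hC n) ((Es J' (a + 1)).inv_mem hn)
    convert h1 using 1
    group

end Pool.WFS.K
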