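import Pool.Agent.WFS.K.Tits
import Pool.Agent.WFK.Dict

/-! # Tits' lemma: `E1 ι (a + b) ≤ closure (LetN ι (min a b))` and with supports
(helper60, WFS, module K) -/

set_option autoImplicit false
set_option linter.all false

noncomputable section

namespace Pool.WFS.K

open Polynomial
open scoped Classical

theorem FI_le_LetN (S : Type) [Fintype S] [DecidableEq S] (N : ℕ) :
    Tits.FI S (Ideal.span {(X : R) ^ N}) ≤ Subgroup.closure (Pool.Agent.WFS.LetN S N) := by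
  rw [Tits.FI, Subgroup.closure_le]
  rintro _ ⟨i, j, h, c, hc, rfl⟩
  obtain ⟨r, rfl⟩ := Ideal.mem_span_singleton.1 hc
  exact xs_mem_LetN i j h N r

/-- **Tits** in `SL` -/
theorem E1_le_FI (S : Type) [Fintype S] [DecidableEq S] (h3 : ∀ k l : S, ∃ i, i ≠ k ∧ i ≠ l)
    {a b c : ℕ} (ha : c ≤ a) (hb : c ≤ b) :
    Pool.WFS.Nil.E1 S (a + b) ≤ Tits.FI S (Ideal.span {(X : R) ^ c}) := by
  rw [Pool.WFS.Nil.E1, Subgroup.closure_le]
  rintro _ ⟨p, _, i, j, h, f, rfl⟩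
  rw [pow_add]
  apply Tits.conj_mem_FI h3
  · exact Ideal.mem_span_singleton.2 (pow_dvd_pow X ha)
  · exact Ideal.mem_span_singleton.2 (pow_dvd_pow X hb)

theorem exists_third60 {S : Type} [Fintype S] (h : 3 ≤ Fintype.card S) (k l : S) :
    ∃ i, i ≠ k ∧ i ≠ l := by
  by_contra hne
  push Not at hne
  have h1 : (Finset.univ : Finset S) ⊆ {k, l} := by
    intro i _
    rw [Finset.mem_insert, Finset.mem_singleton]
    by_cases hi : i = k
    · exact Or.inl hi
    · exact Or.inr (hne i hi)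
  have h2 := Finset.card_le_card h1
  have h3 : ({k, l} : Finset S).card ≤ 2 := Finset.card_le_two
  rw [Finset.card_univ] at h2
  omega

theorem tits (S : Type) [Fintype S] [DecidableEq S] (h3 : 3 ≤ Fintype.card S) (N : ℕ) :
    Pool.WFS.Nil.E1 S (2 * N) ≤ Subgroup.closure (Pool.Agent.WFS.LetN S N) := by
  rw [two_mul]
  exact (E1_le_FI S (exists_third60 h3) le_rfl le_rfl).trans (FI_le_LetN S N)

theorem tits_Lt (S : Type) [Fintype S] [DecidableEq S] (h3 : 3 ≤ Fintype.card S) (N : ℕ) :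
    Pool.WFS.Nil.E1 S (2 * N) ≤ Subgroup.closure (Pool.Agent.WFS.Lt S N) :=
  (tits S h3 N).trans (Subgroup.closure_mono (Pool.Agent.WFS.LetN_sub_Lt S N))

/-! ### with supports -/

variable {ι : Type}

/-- an element of `PPs J` is a finite matrix -/
theorem PPs_fin {J : Set ι} {p : G ι} (hp : p ∈ PPs J) : ∃ J0 : Finset ι, (∀ i ∈ J0, i ∈ J) ∧
    ∀ J1 : Finset ι, J0 ⊆ J1 → ∃ P : Matrix.SpecialLinearGroup J1 R,
      emb (Function.Embedding.subtype (fun i => i ∈ J1)) P = p := by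
  induction hp using Subgroup.closure_induction with
  | mem x hx =>
    obtain ⟨i, j, r, hij, hi, hj, rfl⟩ := hx
    refine ⟨{i, j}, ?_, ?_⟩
    · intro t ht
      rw [Finset.mem_insert, Finset.mem_singleton] at ht
      rcases ht with rfl | rfl
      · exact hi
      · exact hj
    · intro J1 hJ1
      have h1 : i ∈ J1 := hJ1 (Finset.mem_insert_self _ _)
      have h2 : j ∈ J1 := hJ1 (Finset.mem_insert_of_mem (Finset.mem_singleton_self _))
      exact ⟨Pool.WFS.Nil.xs ⟨i, h1⟩ ⟨j, h2⟩ (fun h => hij (congrArg Subtype.val h)) r,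
        emb_xs _ _ _ _ _⟩
  | one => exact ⟨∅, by simp, fun J1 _ => ⟨1, emb_one _⟩⟩
  | mul x y _ _ hx hy =>
    obtain ⟨A, hA, hA'⟩ := hx
    obtain ⟨B, hB, hB'⟩ := hy
    refine ⟨A ∪ B, ?_, ?_⟩
    · intro i hi
      rcases Finset.mem_union.1 hi with h | h
      · exact hA i h
      · exact hB i h
    · intro J1 hJ1
      obtain ⟨P, hP⟩ := hA' J1 (fun i hi => hJ1 (Finset.mem_union_left _ hi))
      obtain ⟨Q, hQ⟩ := hB' J1 (fun i hi => hJ1 (Finset.mem_union_right _ hi))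
      exact ⟨P * Q, by rw [emb_mul, hP, hQ]⟩
  | inv x _ hx =>
    obtain ⟨A, hA, hA'⟩ := hx
    refine ⟨A, hA, fun J1 hJ1 => ?_⟩
    obtain ⟨P, hP⟩ := hA' J1 hJ1
    exact ⟨P⁻¹, by rw [emb_inv, hP]⟩

theorem emb_FI {J : Set ι} {J1 : Finset ι} (hJ : ∀ i ∈ J1, i ∈ J) {c : ℕ}
    {g : Matrix.SpecialLinearGroup J1 R} (hg : g ∈ Tits.FI J1 (Ideal.span {(X : R) ^ c})) :
    emb (Function.Embedding.subtype (fun i => i ∈ J1)) g ∈ Lts J c := by
  unfold Tits.FI at hg
  induction hg using Subgroup.closure_induction with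
  | mem x hx =>
    obtain ⟨i, j, h, r, hr, rfl⟩ := hx
    rw [emb_xs]
    exact xe_mem_Lts (fun h' => h (Subtype.ext h')) (hJ _ i.2) (hJ _ j.2)
      (Ideal.mem_span_singleton.1 hr)
  | one => rw [emb_one]; exact (Lts J c).one_mem
  | mul x y _ _ hx hy => rw [emb_mul]; exact (Lts J c).mul_mem hx hy
  | inv x _ hx => rw [emb_inv]; exact (Lts J c).inv_mem hx

/-- **Tits** with supports: `J` has at least three elements -/
theorem Es_le_Lts {J : Set ι} (h3 : ∀ k l : ι, ∃ i ∈ J, i ≠ k ∧ i ≠ l) {a b c : ℕ} (ha : c ≤ a)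
    (hb : c ≤ b) : Es J (a + b) ≤ Lts J c := by
  rw [Es, Subgroup.closure_le]
  rintro _ ⟨p, hp, i, j, r, hij, hi, hj, rfl⟩
  obtain ⟨J0, h0, h1⟩ := PPs_fin hp
  -- three different elements of `J`
  obtain ⟨k, hkJ, hki, hkj⟩ := h3 i j
  set J1 : Finset ι := J0 ∪ {i, j, k} with hJ1
  have hJ1J : ∀ t ∈ J1, t ∈ J := by
    intro t ht
    rw [hJ1, Finset.mem_union, Finset.mem_insert, Finset.mem_insert, Finset.mem_singleton] at ht
    rcases ht with h | rfl | rfl | rfl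
    · exact h0 t h
    · exact hi
    · exact hj
    · exact hkJ
  have mi : i ∈ J1 := by simp [hJ1]
  have mj : j ∈ J1 := by simp [hJ1]
  have mk : k ∈ J1 := by simp [hJ1]
  obtain ⟨P, hP⟩ := h1 J1 Finset.subset_union_left
  have h3' : ∀ s t : J1, ∃ u : J1, u ≠ s ∧ u ≠ t := by
    intro s t
    by_contra hne
    push Not at hne
    have e1 := hne ⟨i, mi⟩
    have e2 := hne ⟨j, mj⟩
    have e3 := hne ⟨k, mk⟩
    have n1 : (⟨i, mi⟩ : J1) ≠ ⟨j, mj⟩ := fun h => hij (congrArg Subtype.val h)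
    have n2 : (⟨k, mk⟩ : J1) ≠ ⟨i, mi⟩ := fun h => hki (congrArg Subtype.val h)
    have n3 : (⟨k, mk⟩ : J1) ≠ ⟨j, mj⟩ := fun h => hkj (congrArg Subtype.val h)
    by_cases c1 : (⟨i, mi⟩ : J1) = s
    · have c2 : (⟨j, mj⟩ : J1) = t := e2 (fun h => n1 (c1.trans h.symm))
      have c3 : (⟨k, mk⟩ : J1) = t := e3 (fun h => n2 (h.trans c1.symm))
      exact n3 (c3.trans c2.symm)
    · have c2 := e1 c1
      by_cases c3 : (⟨j, mj⟩ : J1) = s
      · have c4 : (⟨k, mk⟩ : J1) = t := e3 (fun h => n3 (h.trans c3.symm))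
        exact n2 (c4.trans c2.symm)
      · exact n1 (c2.trans (e2 c3).symm)
  have key := Tits.conj_mem_FI h3' (I := Ideal.span {(X : R) ^ c}) P
    (i := ⟨i, mi⟩) (j := ⟨j, mj⟩) (fun h => hij (congrArg Subtype.val h))
    (a := X ^ a) (b := X ^ b) (Ideal.mem_span_singleton.2 (pow_dvd_pow X ha))
    (Ideal.mem_span_singleton.2 (pow_dvd_pow X hb)) r
  have := emb_FI hJ1J key
  rw [emb_mul, emb_mul, emb_inv, hP, emb_xs, ← pow_add] at this
  exact this

end Pool.WFS.K
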