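import Pool.Agent.WFS.K.Tors
import Pool.Agent.WFK.SDefs

/-! # Torsion with supports (helper60, WFS, module K): `(Cab i j 1 a)^(a+1) ∈ Es J (a+1)` -/

set_option autoImplicit false
set_option linter.all false

noncomputable section

namespace Pool.WFS.K

open Polynomial
open scoped Classical

variable {ι : Type}

theorem xe_add60 {i j : ι} (hij : i ≠ j) (r s : R) : xe i j (r + s) = xe i j r * xe i j s := by
  unfold xe
  rw [Finsupp.single_add, tau_add_right (co_single hij r) (co_single hij s)]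

/-- two elementary automorphisms of one row commute -/
theorem xe_row60 {i j k : ι} (hij : i ≠ j) (hik : i ≠ k) (r s : R) :
    Commute (xe i j r) (xe i k s) := by
  show _ * _ = _ * _
  refine LinearEquiv.ext fun v => ?_
  rw [LinearEquiv.mul_apply, LinearEquiv.mul_apply, xe_apply hij, xe_apply hik, xe_apply hik,
    xe_apply hij, Finsupp.add_apply, Finsupp.add_apply, Finsupp.single_apply, Finsupp.single_apply,
    if_neg hij, if_neg hik, add_zero, add_zero]
  abel

/-- two elementary automorphisms of one column commute -/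
theorem xe_col60 {i j k : ι} (hik : i ≠ k) (hjk : j ≠ k) (r s : R) :
    Commute (xe i k r) (xe j k s) := by
  show _ * _ = _ * _
  refine LinearEquiv.ext fun v => ?_
  rw [LinearEquiv.mul_apply, LinearEquiv.mul_apply, xe_apply hik, xe_apply hjk, xe_apply hjk,
    xe_apply hik, Finsupp.add_apply, Finsupp.add_apply, Finsupp.single_apply, Finsupp.single_apply,
    if_neg hik, if_neg hjk]
  simp only [add_zero]
  abel

instance Es_normal60 (J : Set ι) (b : ℕ) : ((Es J b).subgroupOf (PPs J)).Normal where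
  conj_mem := by
    intro n hn g
    rw [Subgroup.mem_subgroupOf] at hn ⊢
    exact conj_mem_Es g.2 hn

/-- the elementary automorphisms in the quotient -/
def xq (J : Set ι) (b : ℕ) (i j : J) (r : R) : ↥(PPs J) ⧸ (Es J b).subgroupOf (PPs J) :=
  if h : (i : ι) ≠ j then
    QuotientGroup.mk' ((Es J b).subgroupOf (PPs J)) ⟨xe i j r, xe_mem_PPs h i.2 j.2 r⟩
  else 1

theorem xq_of_ne {J : Set ι} {b : ℕ} {i j : J} (h : i ≠ j) (r : R) : xq J b i j r =
    QuotientGroup.mk' ((Es J b).subgroupOf (PPs J))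
      ⟨xe i j r, xe_mem_PPs (fun h' => h (Subtype.ext h')) i.2 j.2 r⟩ := by
  unfold xq
  rw [dif_pos (fun h' => h (Subtype.ext h'))]

theorem St_xq (J : Set ι) (b : ℕ) : St (xq J b) where
  add i j hij r s := by
    rw [xq_of_ne hij, xq_of_ne hij, xq_of_ne hij, ← map_mul]
    congr 1
    apply Subtype.ext
    exact xe_add60 (fun h' => hij (Subtype.ext h')) r s
  comm i j k hij hjk hik r s := by
    rw [xq_of_ne hij, xq_of_ne hjk, xq_of_ne hik, ← map_mul, ← map_inv, ← map_mul, ← map_inv,
      ← map_mul]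
    congr 1
    apply Subtype.ext
    exact (xe_comm (fun h' => hik (Subtype.ext h')) (fun h' => hij (Subtype.ext h'))
      (fun h' => hjk (Subtype.ext h')) r s).symm
  row i j k hij hjk hik r s := by
    rw [xq_of_ne hij, xq_of_ne hik]
    show _ * _ = _ * _
    rw [← map_mul, ← map_mul]
    congr 1
    apply Subtype.ext
    exact xe_row60 (fun h' => hij (Subtype.ext h')) (fun h' => hik (Subtype.ext h')) r s
  col i j k hij hjk hik r s := by
    rw [xq_of_ne hik, xq_of_ne hjk]
    show _ * _ = _ * _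
    rw [← map_mul, ← map_mul]
    congr 1
    apply Subtype.ext
    exact xe_col60 (fun h' => hik (Subtype.ext h')) (fun h' => hjk (Subtype.ext h')) r s

theorem xq_one {J : Set ι} {b : ℕ} (p q : J) (h : p ≠ q) (r : R) (hr : X ^ b ∣ r) :
    xq J b p q r = 1 := by
  rw [xq_of_ne h, QuotientGroup.mk'_apply, QuotientGroup.eq_one_iff, Subgroup.mem_subgroupOf]
  exact xe_mem_Es (fun h' => h (Subtype.ext h')) p.2 q.2 hr

/-- **torsion**: `(C_a)^(a+1) ∈ Es J (a+1)` when `J` has a third index -/
theorem tors_s {J : Set ι} {i j k : ι} (hij : i ≠ j) (hjk : j ≠ k) (hik : i ≠ k) (hi : i ∈ J)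
    (hj : j ∈ J) (hk : k ∈ J) (a : ℕ) : (Cab i j 1 a) ^ (a + 1) ∈ Es J (a + 1) := by
  have key := (St_xq J (a + 1)).tors (X := (X : R)) (m := a + 1) (by omega)
    (fun p q h r hr => xq_one p q h r hr) (i := ⟨i, hi⟩) (j := ⟨j, hj⟩) (k := ⟨k, hk⟩)
    (fun h => hij (congrArg Subtype.val h)) (fun h => hjk (congrArg Subtype.val h))
    (fun h => hik (congrArg Subtype.val h))
  rw [Nat.add_sub_cancel] at key
  have h1 : (⟨i, hi⟩ : J) ≠ ⟨j, hj⟩ := fun h => hij (congrArg Subtype.val h)
  unfold Fc at key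
  rw [xq_of_ne h1, xq_of_ne h1.symm, ← map_mul, ← map_inv, ← map_mul, ← map_inv, ← map_mul,
    ← map_pow, QuotientGroup.mk'_apply, QuotientGroup.eq_one_iff, Subgroup.mem_subgroupOf] at key
  have e : Cab i j 1 a = xe i j X * xe j i (X ^ a) * (xe i j X)⁻¹ * (xe j i (X ^ a))⁻¹ := by
    unfold Cab; rw [pow_one]
  rw [e]
  exact key

end Pool.WFS.K
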