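import Pool.Agent.WFS.K.Row

/-! # `[E 1, E a] ≤ H a` (helper91, WFS, module K) -/

set_option autoImplicit false
set_option linter.all false

noncomputable section

namespace Pool.WFS.K

open Polynomial
open scoped Classical

variable {ι : Type}

/-- the commutator `[x_ij(X), x_ji(X^a)]` -/
def Cc (a : ℕ) (i j : ι) : G ι :=
  xe i j X * xe j i (X ^ a) * (xe i j X)⁻¹ * (xe j i (X ^ a))⁻¹

/-- `H a = E (a+1) · ⟨C_a^(ij)⟩` -/
def H (ι : Type) (a : ℕ) : Subgroup (G ι) :=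
  Subgroup.closure ((E ι (a + 1) : Set (G ι)) ∪ {g | ∃ i j, i ≠ j ∧ g = Cc a i j})

theorem E_le_H (a : ℕ) : E ι (a + 1) ≤ H ι a :=
  fun _ hg => Subgroup.subset_closure (Or.inl hg)

theorem Cc_mem_H {a : ℕ} {i j : ι} (hij : i ≠ j) : Cc a i j ∈ H ι a :=
  Subgroup.subset_closure (Or.inr ⟨i, j, hij, rfl⟩)

theorem comm_mem_Gam {a b : ℕ} {y g : G ι} (hy : y ∈ Gam ι b) (hg : g ∈ Gam ι a) :
    y * g * y⁻¹ * g⁻¹ ∈ Gam ι (b + a) := by
  intro v i
  set w := y⁻¹ (g⁻¹ v) with hw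
  have hv : v = g (y w) := by rw [hw, apply_inv_self, apply_inv_self]
  have e1 : (y * g * y⁻¹ * g⁻¹) v - v = y (g w) - g (y w) := by
    conv_lhs => rw [hv]
    rw [LinearEquiv.mul_apply, LinearEquiv.mul_apply, LinearEquiv.mul_apply]
    rw [inv_apply_self, inv_apply_self]
  have e2 : y (g w) - g (y w) = (y (g w - w) - (g w - w)) - (g (y w - w) - (y w - w)) := by
    rw [map_sub, map_sub]; abel
  rw [e1, e2, Finsupp.sub_apply]
  obtain ⟨u1, hu1⟩ := exists_smul (fun i => hg w i)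
  obtain ⟨u2, hu2⟩ := exists_smul (fun i => hy w i)
  apply dvd_sub
  · rw [hu1, map_smul, ← smul_sub, Finsupp.smul_apply, smul_eq_mul, pow_add, mul_comm]
    exact mul_dvd_mul_left _ (hy u1 i) |>.trans (by rw [])
  · rw [hu2, map_smul, ← smul_sub, Finsupp.smul_apply, smul_eq_mul, pow_add]
    exact mul_dvd_mul_left _ (hg u2 i)

end Pool.WFS.K
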