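import Mathlib

/-! # Two lemmas on commutators in a group (helper91, WFS, module K) -/

set_option autoImplicit false
set_option linter.all false

namespace Pool.WFS.K

theorem gcc {Q : Type} [Group Q] {y1 y2 g : Q} (h1 : ∀ q, Commute (y1 * g * y1⁻¹ * g⁻¹) q)
    (h2 : ∀ q, Commute (y2 * g * y2⁻¹ * g⁻¹) q) : Commute (y1 * y2 * y1⁻¹ * y2⁻¹) g := by
  set z1 := y1 * g * y1⁻¹ * g⁻¹ with hz1
  set z2 := y2 * g * y2⁻¹ * g⁻¹ with hz2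
  have e1 : y1 * g = z1 * g * y1 := by rw [hz1]; group
  have e2 : y2 * g = z2 * g * y2 := by rw [hz2]; group
  have e1' : y1⁻¹ * g = z1⁻¹ * g * y1⁻¹ := by
    have c1 : y1 * z1⁻¹ = z1⁻¹ * y1 := ((h1 y1).inv_left).eq.symm
    have : y1 * (z1⁻¹ * g * y1⁻¹) = g := by
      calc y1 * (z1⁻¹ * g * y1⁻¹) = (y1 * z1⁻¹) * g * y1⁻¹ := by group
        _ = z1⁻¹ * (y1 * g) * y1⁻¹ := by rw [c1]; group
        _ = g := by rw [e1]; group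
    calc y1⁻¹ * g = y1⁻¹ * (y1 * (z1⁻¹ * g * y1⁻¹)) := by rw [this]
      _ = z1⁻¹ * g * y1⁻¹ := by group
  have e2' : y2⁻¹ * g = z2⁻¹ * g * y2⁻¹ := by
    have c1 : y2 * z2⁻¹ = z2⁻¹ * y2 := ((h2 y2).inv_left).eq.symm
    have : y2 * (z2⁻¹ * g * y2⁻¹) = g := by
      calc y2 * (z2⁻¹ * g * y2⁻¹) = (y2 * z2⁻¹) * g * y2⁻¹ := by group
        _ = z2⁻¹ * (y2 * g) * y2⁻¹ := by rw [c1]; group
        _ = g := by rw [e2]; group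
    calc y2⁻¹ * g = y2⁻¹ * (y2 * (z2⁻¹ * g * y2⁻¹)) := by rw [this]
      _ = z2⁻¹ * g * y2⁻¹ := by group
  have c12 : y1⁻¹ * z2⁻¹ = z2⁻¹ * y1⁻¹ := ((h2 y1⁻¹).inv_left).eq.symm
  have c22 : y2 * (z2⁻¹ * z1⁻¹) = z2⁻¹ * z1⁻¹ * y2 :=
    (((h2 y2).inv_left).mul_left ((h1 y2).inv_left)).eq.symm
  have c1z : y1 * (z2⁻¹ * z1⁻¹ * z2) = z2⁻¹ * z1⁻¹ * z2 * y1 :=
    ((((h2 y1).inv_left).mul_left ((h1 y1).inv_left)).mul_left (h2 y1)).eq.symm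
  have cz : z2⁻¹ * z1⁻¹ * z2 * z1 = 1 := by
    have := (h1 z2).eq
    rw [mul_assoc, mul_assoc, ← this]
    group
  show y1 * y2 * y1⁻¹ * y2⁻¹ * g = g * (y1 * y2 * y1⁻¹ * y2⁻¹)
  calc y1 * y2 * y1⁻¹ * y2⁻¹ * g = y1 * y2 * y1⁻¹ * (y2⁻¹ * g) := by group
    _ = y1 * y2 * (y1⁻¹ * z2⁻¹) * g * y2⁻¹ := by rw [e2']; group
    _ = y1 * y2 * z2⁻¹ * (y1⁻¹ * g) * y2⁻¹ := by rw [c12]; group
    _ = y1 * (y2 * (z2⁻¹ * z1⁻¹)) * g * y1⁻¹ * y2⁻¹ := by rw [e1']; group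
    _ = y1 * (z2⁻¹ * z1⁻¹) * (y2 * g) * y1⁻¹ * y2⁻¹ := by rw [c22]; group
    _ = (y1 * (z2⁻¹ * z1⁻¹ * z2)) * g * y2 * y1⁻¹ * y2⁻¹ := by rw [e2]; group
    _ = (z2⁻¹ * z1⁻¹ * z2) * (y1 * g) * y2 * y1⁻¹ * y2⁻¹ := by rw [c1z]; group
    _ = (z2⁻¹ * z1⁻¹ * z2 * z1) * g * (y1 * y2 * y1⁻¹ * y2⁻¹) := by rw [e1]; group
    _ = g * (y1 * y2 * y1⁻¹ * y2⁻¹) := by rw [cz, one_mul]

theorem gc2 {Q : Type} [Group Q] {Y A n : Q} (h1 : Commute (A⁻¹ * Y * A * Y⁻¹) n)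
    (h2 : ∀ q, Commute (Y * n * Y⁻¹ * n⁻¹) q) : Commute Y (A * n * A⁻¹ * n⁻¹) := by
  set z := Y * n * Y⁻¹ * n⁻¹ with hz
  set w := A⁻¹ * Y * A * Y⁻¹ with hw
  have e1 : Y * n = z * n * Y := by rw [hz]; group
  have e2 : Y * A = A * w * Y := by rw [hw]; group
  have e3 : Y * A⁻¹ = A⁻¹ * (A * w⁻¹ * A⁻¹) * Y * 1 := by
    have : Y * A * (A⁻¹) = A * w * Y * A⁻¹ := by rw [e2]
    have h3 : Y = A * w * (Y * A⁻¹) := by rw [← mul_assoc, ← this]; group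
    have h4 : Y * A⁻¹ = w⁻¹ * A⁻¹ * Y := by
      calc Y * A⁻¹ = w⁻¹ * A⁻¹ * (A * w * (Y * A⁻¹)) := by group
        _ = w⁻¹ * A⁻¹ * Y := by rw [← h3]
    rw [h4]; group
  have e3' : Y * A⁻¹ = w⁻¹ * A⁻¹ * Y := by rw [e3]; group
  have e4 : Y * n⁻¹ = n⁻¹ * z⁻¹ * Y := by
    have : Y * n⁻¹ = (z * n)⁻¹ * Y := by
      calc Y * n⁻¹ = (z * n)⁻¹ * (z * n * Y) * n⁻¹ := by group
        _ = (z * n)⁻¹ * (Y * n) * n⁻¹ := by rw [e1]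
        _ = (z * n)⁻¹ * Y := by group
    rw [this]; group
  have cw : w * z = z * w := (h2 w).eq.symm
  have cA : A * z = z * A := (h2 A).eq.symm
  have cq : n * A⁻¹ * n⁻¹ * z⁻¹ = z⁻¹ * (n * A⁻¹ * n⁻¹) := ((h2 (n * A⁻¹ * n⁻¹)).inv_left).eq.symm
  show Y * (A * n * A⁻¹ * n⁻¹) = A * n * A⁻¹ * n⁻¹ * Y
  calc Y * (A * n * A⁻¹ * n⁻¹) = (Y * A) * n * A⁻¹ * n⁻¹ := by group
    _ = A * w * (Y * n) * A⁻¹ * n⁻¹ := by rw [e2]; group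
    _ = A * (w * z) * n * (Y * A⁻¹) * n⁻¹ := by rw [e1]; group
    _ = A * z * (w * n) * w⁻¹ * A⁻¹ * (Y * n⁻¹) := by rw [e3', cw]; group
    _ = (A * z) * n * A⁻¹ * (n⁻¹ * z⁻¹) * Y := by rw [h1.eq, e4]; group
    _ = z * A * (n * A⁻¹ * n⁻¹ * z⁻¹) * Y := by rw [cA]; group
    _ = z * A * z⁻¹ * (n * A⁻¹ * n⁻¹) * Y := by rw [cq]; group
    _ = A * n * A⁻¹ * n⁻¹ * Y := by rw [← cA]; group


end Pool.WFS.K
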