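import Pool.Agent.WFS.K.Comm
import Pool.Agent.WFS.K.GL

/-! # `[E 1, E a] ≤ H a` (helper91, WFS, module K) -/

set_option autoImplicit false
set_option linter.all false

noncomputable section

namespace Pool.WFS.K

open Polynomial
open scoped Classical

variable {ι : Type}

/-! ### the quotient `P / H a` -/

theorem Cc_mem_PP {a : ℕ} {i j : ι} (hij : i ≠ j) : Cc a i j ∈ PP ι :=
  (PP ι).mul_mem ((PP ι).mul_mem ((PP ι).mul_mem (xe_mem hij _) (xe_mem hij.symm _))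
    ((PP ι).inv_mem (xe_mem hij _))) ((PP ι).inv_mem (xe_mem hij.symm _))

theorem Cc_mem_Gam {a : ℕ} {i j : ι} (hij : i ≠ j) : Cc a i j ∈ Gam ι (a + 1) := by
  have := comm_mem_Gam (b := 1) (a := a) (xe_mem_Gam hij (a := 1) (r := X) (by simp))
    (xe_mem_Gam hij.symm (a := a) (r := X ^ a) dvd_rfl)
  rw [add_comm] at this
  exact this

theorem H_le_PP (a : ℕ) : H ι a ≤ PP ι := by
  rw [H, Subgroup.closure_le]
  rintro g (hg | ⟨i, j, hij, rfl⟩)
  · exact E_le_PP _ hg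
  · exact Cc_mem_PP hij

theorem H_le_Gam (a : ℕ) : H ι a ≤ Gam ι (a + 1) := by
  rw [H, Subgroup.closure_le]
  rintro g (hg | ⟨i, j, hij, rfl⟩)
  · exact E_le_Gam _ hg
  · exact Cc_mem_Gam hij

theorem central_H [Infinite ι] {a : ℕ} {z : G ι} (hz : z ∈ PP ι) (hz' : z ∈ Gam ι (a + 1))
    {p : G ι} (hp : p ∈ PP ι) : z * p * z⁻¹ * p⁻¹ ∈ H ι a := E_le_H a (central hz hz' hp)

theorem conj_mem_H [Infinite ι] {a : ℕ} {p g : G ι} (hp : p ∈ PP ι) (hg : g ∈ H ι a) :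
    p * g * p⁻¹ ∈ H ι a := by
  induction hg using Subgroup.closure_induction with
  | mem x hx =>
    rcases hx with hx | ⟨i, j, hij, rfl⟩
    · exact E_le_H a (conj_mem_E hp hx)
    · have h1 := central_H (Cc_mem_PP hij) (Cc_mem_Gam (a := a) hij) hp
      have h2 := (H ι a).mul_mem ((H ι a).inv_mem h1) (Cc_mem_H (a := a) hij)
      convert h2 using 1
      group
  | one => simpa using (H ι a).one_mem
  | mul x y _ _ hx hy =>
    have := (H ι a).mul_mem hx hy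
    convert this using 1
    group
  | inv x _ hx =>
    have := (H ι a).inv_mem hx
    convert this using 1
    group

instance Hn [Infinite ι] (a : ℕ) : ((H ι a).subgroupOf (PP ι)).Normal where
  conj_mem := by
    intro n hn g
    rw [Subgroup.mem_subgroupOf] at hn ⊢
    exact conj_mem_H g.2 hn

variable [Infinite ι]

/-- the quotient -/
abbrev Qt (ι : Type) [Infinite ι] (a : ℕ) := ↥(PP ι) ⧸ (H ι a).subgroupOf (PP ι)

/-- the projection -/
def pr (a : ℕ) : ↥(PP ι) →* Qt ι a := QuotientGroup.mk' _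

theorem pr_eq_one {a : ℕ} {g : ↥(PP ι)} : pr a g = 1 ↔ (g : G ι) ∈ H ι a := by
  unfold pr
  rw [QuotientGroup.mk'_apply, QuotientGroup.eq_one_iff, Subgroup.mem_subgroupOf]

theorem pr_comm {a : ℕ} {x y : G ι} (hx : x ∈ PP ι) (hy : y ∈ PP ι)
    (h : x * y * x⁻¹ * y⁻¹ ∈ PP ι) : pr a ⟨x * y * x⁻¹ * y⁻¹, h⟩ =
      pr a ⟨x, hx⟩ * pr a ⟨y, hy⟩ * (pr a ⟨x, hx⟩)⁻¹ * (pr a ⟨y, hy⟩)⁻¹ := by
  rw [← map_inv, ← map_inv, ← map_mul, ← map_mul, ← map_mul]; rfl

theorem pr_comm2 {a : ℕ} {x y : G ι} (hx : x ∈ PP ι) (hy : y ∈ PP ι)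
    (h : x⁻¹ * y * x * y⁻¹ ∈ PP ι) : pr a ⟨x⁻¹ * y * x * y⁻¹, h⟩ =
      (pr a ⟨x, hx⟩)⁻¹ * pr a ⟨y, hy⟩ * pr a ⟨x, hx⟩ * (pr a ⟨y, hy⟩)⁻¹ := by
  rw [← map_inv, ← map_inv, ← map_mul, ← map_mul, ← map_mul]; rfl

/-- `y` and `g` commute modulo `H a` -/
def Cm (a : ℕ) (y g : G ι) : Prop :=
  ∃ (hy : y ∈ PP ι) (hg : g ∈ PP ι), Commute (pr a ⟨y, hy⟩) (pr a ⟨g, hg⟩)

theorem Cm.symm {a : ℕ} {y g : G ι} (h : Cm a y g) : Cm a g y := by
  obtain ⟨hy, hg, h⟩ := h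
  exact ⟨hg, hy, h.symm⟩

theorem Cm.mul_right {a : ℕ} {y g g' : G ι} (h : Cm a y g) (h' : Cm a y g') :
    Cm a y (g * g') := by
  obtain ⟨hy, hg, h⟩ := h
  obtain ⟨_, hg', h'⟩ := h'
  refine ⟨hy, (PP ι).mul_mem hg hg', ?_⟩
  have : pr a ⟨g * g', (PP ι).mul_mem hg hg'⟩ = pr a ⟨g, hg⟩ * pr a ⟨g', hg'⟩ := by
    rw [← map_mul]; rfl
  rw [this]
  exact h.mul_right h'

theorem Cm.inv_right {a : ℕ} {y g : G ι} (h : Cm a y g) : Cm a y g⁻¹ := by
  obtain ⟨hy, hg, h⟩ := h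
  refine ⟨hy, (PP ι).inv_mem hg, ?_⟩
  have : pr a ⟨g⁻¹, (PP ι).inv_mem hg⟩ = (pr a ⟨g, hg⟩)⁻¹ := by
    rw [← map_inv]; rfl
  rw [this]
  exact h.inv_right

theorem Cm.of_H {a : ℕ} {y g : G ι} (hy : y ∈ PP ι) (hg : g ∈ H ι a) : Cm a y g := by
  refine ⟨hy, H_le_PP a hg, ?_⟩
  have : pr a ⟨g, H_le_PP a hg⟩ = 1 := pr_eq_one.2 hg
  rw [this]
  exact Commute.one_right _

theorem Cm.iff {a : ℕ} {y g : G ι} (hy : y ∈ PP ι) (hg : g ∈ PP ι) :
    Cm a y g ↔ y * g * y⁻¹ * g⁻¹ ∈ H ι a := by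
  have e : y * g * y⁻¹ * g⁻¹ ∈ H ι a ↔ pr a (⟨y, hy⟩ * ⟨g, hg⟩ * ⟨y, hy⟩⁻¹ * ⟨g, hg⟩⁻¹) = 1 := by
    rw [pr_eq_one]; rfl
  rw [e]
  simp only [map_mul, map_inv]
  constructor
  · rintro ⟨_, _, h⟩
    rw [h.eq]; group
  · intro h
    refine ⟨hy, hg, ?_⟩
    show _ * _ = _ * _
    have h2 : pr a ⟨y, hy⟩ * pr a ⟨g, hg⟩ =
      (pr a ⟨y, hy⟩ * pr a ⟨g, hg⟩ * (pr a ⟨y, hy⟩)⁻¹ * (pr a ⟨g, hg⟩)⁻¹) *
        (pr a ⟨g, hg⟩ * pr a ⟨y, hy⟩) := by group
    rw [h2, h, one_mul]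

/-- the subgroup of the elements commuting with `g` modulo `H a` -/
def Cn (a : ℕ) {g : G ι} (hg : g ∈ PP ι) : Subgroup (G ι) where
  carrier := {y | Cm a y g}
  mul_mem' := fun {x y} hx hy => (Cm.mul_right (Cm.symm hx) (Cm.symm hy)).symm
  one_mem' := (Cm.of_H hg (H ι a).one_mem).symm
  inv_mem' := fun {x} hx => (Cm.inv_right (Cm.symm hx)).symm

theorem central_pr {a : ℕ} {z : G ι} (hz : z ∈ PP ι) (hz' : z ∈ Gam ι (a + 1)) (q : Qt ι a) :
    Commute (pr a ⟨z, hz⟩) q := by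
  obtain ⟨p, rfl⟩ := QuotientGroup.mk'_surjective _ q
  have := (Cm.iff (a := a) hz p.2).2 (central_H hz hz' p.2)
  obtain ⟨_, _, h⟩ := this
  exact h

theorem comm_central {a : ℕ} {y g : G ι} (hy : y ∈ E ι 1) (hg : g ∈ E ι a) (q : Qt ι a) :
    Commute (pr a ⟨y, E_le_PP _ hy⟩ * pr a ⟨g, E_le_PP _ hg⟩ * (pr a ⟨y, E_le_PP _ hy⟩)⁻¹ *
      (pr a ⟨g, E_le_PP _ hg⟩)⁻¹) q := by
  have h1 := comm_mem_Gam (E_le_Gam 1 hy) (E_le_Gam a hg)
  rw [add_comm] at h1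
  have hy' := E_le_PP _ hy
  have hg' := E_le_PP _ hg
  have := central_pr (a := a) (z := y * g * y⁻¹ * g⁻¹)
    ((PP ι).mul_mem ((PP ι).mul_mem ((PP ι).mul_mem hy' hg') ((PP ι).inv_mem hy'))
      ((PP ι).inv_mem hg')) h1 q
  have e : pr a ⟨y * g * y⁻¹ * g⁻¹, ((PP ι).mul_mem ((PP ι).mul_mem ((PP ι).mul_mem hy' hg')
      ((PP ι).inv_mem hy')) ((PP ι).inv_mem hg'))⟩ =
      pr a ⟨y, hy'⟩ * pr a ⟨g, hg'⟩ * (pr a ⟨y, hy'⟩)⁻¹ * (pr a ⟨g, hg'⟩)⁻¹ := by
    rw [← map_inv, ← map_inv, ← map_mul, ← map_mul, ← map_mul]; rfl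
  rwa [e] at this

/-- additivity of `xe` -/
theorem xe_add {i j : ι} (hij : i ≠ j) (r s : R) : xe i j (r + s) = xe i j r * xe i j s := by
  unfold xe
  rw [Finsupp.single_add, tau_add_right (co_single hij r) (co_single hij s)]

theorem xe_neg {i j : ι} (r : R) : xe i j (-r) = (xe i j r)⁻¹ := by
  unfold xe
  rw [Finsupp.single_neg, tau_inv]

theorem xe_zero {i j : ι} : xe i j 0 = 1 := by
  unfold xe
  rw [Finsupp.single_zero, tau_zero_right]

/-- a subgroup which contains `xe i j s` contains `xe i j (c s)`, `c ∈ ℤ` -/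
theorem xe_C_mem {K : Subgroup (G ι)} {i j : ι} (hij : i ≠ j) {s : R} (h : xe i j s ∈ K) (c : ℤ) :
    xe i j (C c * s) ∈ K := by
  induction c using Int.induction_on with
  | zero => simp [xe_zero, K.one_mem]
  | succ n ih =>
    have e : (C ((n : ℤ) + 1) : R) * s = C (n : ℤ) * s + s := by
      rw [C_add, C_1, add_mul, one_mul]
    rw [e, xe_add hij]
    exact K.mul_mem ih h
  | pred n ih =>
    have e : (C (-(n : ℤ) - 1) : R) * s = C (-(n : ℤ)) * s + -s := by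
      rw [C_sub, C_1, sub_mul, one_mul, sub_eq_add_neg]
    rw [e, xe_add hij, xe_neg]
    exact K.mul_mem ih (K.inv_mem h)

theorem S2 {a : ℕ} {l p : ι} (hlp : l ≠ p) (b : R) : Cm a (xe l p X) (xe p l (X ^ a * b)) := by
  have base : Cm a (xe l p X) (xe p l (X ^ a)) :=
    (Cm.iff (xe_mem hlp _) (xe_mem hlp.symm _)).2 (Cc_mem_H hlp)
  apply Cm.symm
  show xe p l (X ^ a * b) ∈ Cn a (xe_mem hlp X)
  induction b using Polynomial.induction_on' with
  | add p' q hp hq =>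
    rw [mul_add, xe_add hlp.symm]
    exact Subgroup.mul_mem _ hp hq
  | monomial n c =>
    rcases Nat.eq_zero_or_pos n with rfl | hn
    · rw [monomial_zero_left, mul_comm]
      exact xe_C_mem hlp.symm base.symm c
    · apply Cm.symm
      apply Cm.of_H (xe_mem hlp X)
      apply E_le_H
      apply xe_mem_E' hlp.symm
      obtain ⟨k, rfl⟩ : ∃ k, n = k + 1 := ⟨n - 1, by omega⟩
      refine ⟨C c * X ^ k, ?_⟩
      rw [← C_mul_X_pow_eq_monomial]
      ring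

theorem S3 {a : ℕ} {l p : ι} (hlp : l ≠ p) (b c : R) :
    Cm a (xe l p (X * c)) (xe p l (X ^ a * b)) := by
  show xe l p (X * c) ∈ Cn a (xe_mem hlp.symm (X ^ a * b))
  induction c using Polynomial.induction_on' with
  | add p' q hp hq =>
    rw [mul_add, xe_add hlp]
    exact Subgroup.mul_mem _ hp hq
  | monomial n c =>
    rcases Nat.eq_zero_or_pos n with rfl | hn
    · rw [monomial_zero_left, mul_comm (X : R) (C c)]
      exact xe_C_mem (K := Cn a (xe_mem hlp.symm (X ^ a * b))) hlp (S2 hlp b) c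
    · obtain ⟨m, hm⟩ := ({l, p} : Set ι).toFinite.exists_notMem
      simp only [Set.mem_insert_iff, Set.mem_singleton_iff, not_or] at hm
      obtain ⟨hml, hmp⟩ := hm
      have hd : (X : R) ^ 1 ∣ monomial n c := by
        obtain ⟨k, rfl⟩ : ∃ k, n = k + 1 := ⟨n - 1, by omega⟩
        refine ⟨C c * X ^ k, ?_⟩
        rw [← C_mul_X_pow_eq_monomial]
        ring
      have y1 : xe l m (X : R) ∈ E ι 1 := xe_mem_E' (Ne.symm hml) (by simp)
      have y2 : xe m p (monomial n c) ∈ E ι 1 := xe_mem_E' hmp hd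
      have g1 : xe p l (X ^ a * b) ∈ E ι a := xe_mem_E hlp.symm a b
      have key := gcc (comm_central (a := a) y1 g1) (comm_central (a := a) y2 g1)
      have e := xe_comm hlp (Ne.symm hml) hmp X (monomial n c)
      rw [e]
      have hm : xe l m X * xe m p (monomial n c) * (xe l m X)⁻¹ * (xe m p (monomial n c))⁻¹ ∈ PP ι := by
        rw [← e]; exact xe_mem hlp _
      refine ⟨hm, E_le_PP _ g1, ?_⟩
      rw [pr_comm (E_le_PP _ y1) (E_le_PP _ y2)]
      exact key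

theorem S4 {a : ℕ} {l p : ι} (hlp : l ≠ p) (b : R) {i : ι} (hip : i ≠ p) {r : R} (hr : X ^ 1 ∣ r) :
    Cm a (xe i p r) (xe p l (X ^ a * b)) := by
  obtain ⟨c, rfl⟩ := hr
  rw [pow_one]
  by_cases hil : i = l
  · subst hil
    exact S3 hlp b c
  · rw [Cm.iff (xe_mem hip _) (xe_mem hlp.symm _), ← xe_comm hil hip hlp.symm]
    apply E_le_H
    apply xe_mem_E' hil
    exact ⟨c * b, by ring⟩

/-- columns in a general subgroup -/
theorem col_mem {K : Subgroup (G ι)} {a : ℕ} {l : ι} (hK : ∀ i r, i ≠ l → X ^ a ∣ r → xe i l r ∈ K)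
    {u : V ι} (hl : u l = 0) (hu : ∀ i, X ^ a ∣ u i) : tau (co l) u ∈ K := by
  induction u using Finsupp.induction with
  | zero => rw [tau_zero_right]; exact K.one_mem
  | single_add k r f hk hr ih =>
    by_cases hkl : k = l
    · subst hkl
      rw [Finsupp.add_apply, Finsupp.single_eq_same, Finsupp.notMem_support_iff.1 hk, add_zero] at hl
      exact absurd hl hr
    · have hfl : f l = 0 := by
        rw [Finsupp.add_apply, Finsupp.single_apply, if_neg hkl, zero_add] at hl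
        exact hl
      rw [tau_add_right (co_single hkl r) hfl]
      have hkr : X ^ a ∣ r := by
        have := hu k
        rwa [Finsupp.add_apply, Finsupp.single_eq_same, Finsupp.notMem_support_iff.1 hk,
          add_zero] at this
      refine K.mul_mem (hK k r hkl hkr) (ih hfl ?_)
      intro i
      by_cases hik : i = k
      · subst hik
        rw [Finsupp.notMem_support_iff.1 hk]
        exact dvd_zero _
      · have := hu i
        rwa [Finsupp.add_apply, Finsupp.single_apply, if_neg (Ne.symm hik), zero_add] at this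

theorem S5 {a : ℕ} {y : G ι} (hy : y ∈ E ι 1) {k l : ι} (hkl : k ≠ l) (b : R) :
    Cm a y (xe k l (X ^ a * b)) := by
  have hyP := E_le_PP _ hy
  obtain ⟨p, hp⟩ := exists_fresh ((fr_finite hyP).union ({k, l} : Set ι).toFinite)
  simp only [Set.mem_union, not_or, Set.mem_insert_iff, Set.mem_singleton_iff] at hp
  obtain ⟨hp1, hpk, hpl⟩ := hp
  have hfr : Fr p y := by
    by_contra hne
    exact hp1 hne
  have hd : dl y (co p) = co p := by
    apply LinearMap.ext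
    intro v
    rw [dl_apply, co_apply, co_apply, hfr.inv.2]
  have h0 : co p (y (Finsupp.single k 1)) = 0 := by
    rw [co_apply, hfr.2, Finsupp.single_apply, if_neg (Ne.symm hpk)]
  have h1 : co p (-(Finsupp.single k (1 : R))) = 0 := by
    rw [map_neg, co_single (Ne.symm hpk), neg_zero]
  -- the commutator `[A⁻¹, y]`
  have e1 : (xe k p 1)⁻¹ * y * xe k p 1 * y⁻¹ =
      tau (co p) (-(Finsupp.single k 1) + y (Finsupp.single k 1)) := by
    rw [tau_add_right h1 h0]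
    have : y * xe k p 1 * y⁻¹ = tau (co p) (y (Finsupp.single k 1)) := by
      unfold xe
      rw [conj_tau, hd]
    rw [← this, ← tau_inv]
    show (xe k p 1)⁻¹ * y * xe k p 1 * y⁻¹ = (xe k p 1)⁻¹ * (y * xe k p 1 * y⁻¹)
    group
  have m1 : Cm a ((xe k p 1)⁻¹ * y * xe k p 1 * y⁻¹) (xe p l (X ^ a * b)) := by
    rw [e1]
    show _ ∈ Cn a (xe_mem hpl (X ^ a * b))
    apply col_mem (a := 1)
    · intro i r hip hr
      exact S4 (Ne.symm hpl) b hip hr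
    · rw [← co_apply p, map_add, h0, h1, add_zero]
    · intro i
      have := E_le_Gam 1 hy (Finsupp.single k 1) i
      rwa [sub_eq_add_neg, add_comm] at this
  obtain ⟨hm0, _, m1⟩ := m1
  have hg := xe_mem_E hpl a b
  rw [pr_comm2 (xe_mem (Ne.symm hpk) 1) hyP] at m1
  have key := gc2 (Y := pr a ⟨y, hyP⟩) (A := pr a ⟨xe k p 1, xe_mem (Ne.symm hpk) 1⟩)
    (n := pr a ⟨xe p l (X ^ a * b), E_le_PP _ hg⟩) m1 (comm_central (a := a) hy hg)
  have e := xe_comm hkl (Ne.symm hpk) hpl 1 (X ^ a * b)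
  rw [one_mul] at e
  have hm : xe k p 1 * xe p l (X ^ a * b) * (xe k p 1)⁻¹ * (xe p l (X ^ a * b))⁻¹ ∈ PP ι := by
    rw [← e]; exact xe_mem hkl _
  rw [e]
  refine ⟨hyP, hm, ?_⟩
  rw [pr_comm (xe_mem (Ne.symm hpk) 1) (E_le_PP _ hg)]
  exact key

/-- `[E 1, E a] ≤ H a` -/
theorem Cm_E {a : ℕ} {y g : G ι} (hy : y ∈ E ι 1) (hg : g ∈ E ι a) : Cm a y g := by
  have hyP := E_le_PP _ hy
  apply Cm.symm
  show g ∈ Cn a hyP
  revert g
  show E ι a ≤ Cn a hyP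
  rw [E, Subgroup.closure_le]
  rintro _ ⟨q, hq, i, j, r, hij, rfl⟩
  have h1 : q⁻¹ * y * q ∈ E ι 1 := by
    have := conj_mem_E ((PP ι).inv_mem hq) hy
    rwa [inv_inv] at this
  have h2 := S5 (a := a) h1 hij r
  apply Cm.symm
  have hqx : q * xe i j (X ^ a * r) * q⁻¹ ∈ PP ι :=
    (PP ι).mul_mem ((PP ι).mul_mem hq (xe_mem hij _)) ((PP ι).inv_mem hq)
  rw [Cm.iff (E_le_PP _ h1) (xe_mem hij _)] at h2
  rw [Cm.iff hyP hqx]
  have := conj_mem_H hq h2
  convert this using 1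
  group

end Pool.WFS.K
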