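import Mathlib

/-! # The stable elementary group over `ℤ[X]` (helper91, WFS, module K)

`V ι = ι →₀ ℤ[X]`, `G ι` its group of linear automorphisms, `ι` any infinite type.
`tau φ u : v ↦ v + φ v • u` when `φ u = 0` (and `1` otherwise), `xe i j r = tau e_j^* (r e_i)`,
`PP ι` the subgroup generated by the `xe i j r`.
-/

set_option autoImplicit false
set_option linter.all false

noncomputable section

namespace Pool.WFS.K

open Polynomial
open scoped Classical

abbrev R := Polynomial ℤ
abbrev V (ι : Type) := ι →₀ R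
abbrev D (ι : Type) := Module.Dual R (V ι)
abbrev G (ι : Type) := V ι ≃ₗ[R] V ι

variable {ι : Type}

/-- the transvection `v ↦ v + φ v • u` (when `φ u = 0`) -/
def tau (φ : D ι) (u : V ι) : G ι :=
  if h : φ u = 0 then LinearEquiv.transvection h else 1

theorem tau_apply {φ : D ι} {u : V ι} (h : φ u = 0) (v : V ι) : tau φ u v = v + φ v • u := by
  unfold tau
  rw [dif_pos h]
  rfl

/-- the coordinate `j` -/
def co (j : ι) : D ι := Finsupp.lapply j

theorem co_apply (j : ι) (v : V ι) : co j v = v j := rfl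

/-- the elementary automorphism `1 + r e_i e_j^*` -/
def xe (i j : ι) (r : R) : G ι := tau (co j) (Finsupp.single i r)

theorem co_single {i j : ι} (h : i ≠ j) (r : R) : co j (Finsupp.single i r) = 0 := by
  rw [co_apply, Finsupp.single_apply, if_neg h]

theorem xe_apply {i j : ι} (h : i ≠ j) (r : R) (v : V ι) :
    xe i j r v = v + Finsupp.single i (v j * r) := by
  unfold xe
  rw [tau_apply (co_single h r), co_apply, Finsupp.smul_single, smul_eq_mul]

/-- the elementary group -/
def PP (ι : Type) : Subgroup (G ι) :=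
  Subgroup.closure {g | ∃ i j r, i ≠ j ∧ g = xe i j r}

theorem xe_mem {i j : ι} (h : i ≠ j) (r : R) : xe i j r ∈ PP ι :=
  Subgroup.subset_closure ⟨i, j, r, h, rfl⟩

/-- `E(ℤ[X], (X^a))`: the subgroup generated by the `P`-conjugates of the `xe i j (X^a r)` -/
def E (ι : Type) (a : ℕ) : Subgroup (G ι) :=
  Subgroup.closure {g | ∃ p ∈ PP ι, ∃ i j r, i ≠ j ∧ g = p * xe i j (X ^ a * r) * p⁻¹}

/-- `g = 1 mod X^a` -/
def Gam (ι : Type) (a : ℕ) : Subgroup (G ι) where
  carrier := {g | ∀ v i, (X : R) ^ a ∣ (g v - v) i}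
  one_mem' := by
    intro v i
    simp
  mul_mem' := by
    intro g h hg hh v i
    have h1 := hg (h v) i
    have h2 := hh v i
    have : ((g * h) v - v) i = (g (h v) - h v) i + (h v - v) i := by
      simp [Finsupp.sub_apply, LinearEquiv.mul_apply]
    rw [this]
    exact dvd_add h1 h2
  inv_mem' := by
    intro g hg v i
    have h1 := hg (g⁻¹ v) i
    have h2 : g (g⁻¹ v) = v := by
      rw [← LinearEquiv.mul_apply, mul_inv_cancel]; rfl
    rw [h2] at h1
    have : (g⁻¹ v - v) i = -((v - g⁻¹ v) i) := by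
      simp [Finsupp.sub_apply]
    rw [this]
    exact (dvd_neg).2 h1

theorem mem_Gam {a : ℕ} {g : G ι} : g ∈ Gam ι a ↔ ∀ v i, (X : R) ^ a ∣ (g v - v) i := Iff.rfl

/-- `l` does not occur in `g` -/
def Fr (l : ι) (g : G ι) : Prop :=
  g (Finsupp.single l 1) = Finsupp.single l 1 ∧ ∀ v, (g v) l = v l

/-- a functional with finite support -/
def IsRow (φ : D ι) : Prop := {i | φ (Finsupp.single i 1) ≠ 0}.Finite

end Pool.WFS.K
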