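import Mathlib

/-! # Two more lemmas on commutators in a group (helper91, WFS, module K) -/

set_option autoImplicit false
set_option linter.all false

namespace Pool.WFS.K

theorem gd1 {Q : Type} [Group Q] {Y A n : Q} (h1 : Commute Y n)
    (h2 : ∀ q, Commute (A⁻¹ * Y * A * Y⁻¹ * n * (A⁻¹ * Y * A * Y⁻¹)⁻¹ * n⁻¹) q) :
    Y * (A * n * A⁻¹ * n⁻¹) * Y⁻¹ * (A * n * A⁻¹ * n⁻¹)⁻¹ =
      A⁻¹ * Y * A * Y⁻¹ * n * (A⁻¹ * Y * A * Y⁻¹)⁻¹ * n⁻¹ := by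
  set w := A⁻¹ * Y * A * Y⁻¹ with hw
  have e2 : Y * A * Y⁻¹ = A * w := by rw [hw]; group
  have e3 : Y * n * Y⁻¹ = n := by rw [h1.eq]; group
  have e4 : Y * (A * n * A⁻¹ * n⁻¹) * Y⁻¹ =
      (Y * A * Y⁻¹) * (Y * n * Y⁻¹) * (Y * A * Y⁻¹)⁻¹ * (Y * n * Y⁻¹)⁻¹ := by group
  rw [e4, e2, e3]
  have e5 : A * w * n * (A * w)⁻¹ * n⁻¹ * (A * n * A⁻¹ * n⁻¹)⁻¹ = A * (w * n * w⁻¹ * n⁻¹) * A⁻¹ := by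
    group
  rw [e5, ← (h2 A).eq]
  group

theorem gd2 {Q : Type} [Group Q] {A y n : Q} (h1 : Commute y n)
    (h2 : ∀ q, Commute (y * (A⁻¹ * n * A * n⁻¹) * y⁻¹ * (A⁻¹ * n * A * n⁻¹)⁻¹) q) :
    A * y * A⁻¹ * y⁻¹ * n * (A * y * A⁻¹ * y⁻¹)⁻¹ * n⁻¹ =
      y * (A⁻¹ * n * A * n⁻¹) * y⁻¹ * (A⁻¹ * n * A * n⁻¹)⁻¹ := by
  set w := A⁻¹ * n * A * n⁻¹ with hw
  set c := y * w * y⁻¹ * w⁻¹ with hc
  have e1 : A⁻¹ * n * A = w * n := by rw [hw]; group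
  have e2 : y⁻¹ * n * y = n := by rw [mul_assoc, ← h1.eq]; group
  have e3 : y * n * y⁻¹ = n := by rw [h1.eq]; group
  calc A * y * A⁻¹ * y⁻¹ * n * (A * y * A⁻¹ * y⁻¹)⁻¹ * n⁻¹
      = A * y * (A⁻¹ * (y⁻¹ * n * y) * A) * y⁻¹ * A⁻¹ * n⁻¹ := by group
    _ = A * (y * w * y⁻¹) * (y * n * y⁻¹) * A⁻¹ * n⁻¹ := by rw [e2, e1]; group
    _ = (A * c) * (w * n) * A⁻¹ * n⁻¹ := by rw [e3, hc]; group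
    _ = c * A * (A⁻¹ * n * A) * A⁻¹ * n⁻¹ := by rw [e1, (h2 A).eq]
    _ = c := by group

end Pool.WFS.K
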