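import Mathlib

/-! # Biadditive functions on orthogonal pairs of integer vectors (helper91, WFS, module K)

`β u w` is additive in `u` and in `w` on pairs with `w · u = 0`. If it vanishes on the pairs
`(e_i, e_j)`, `i ≠ j`, and on `(e_i - e_o, e_i + e_o)`, it vanishes on all orthogonal pairs without `o`.
-/

set_option autoImplicit false
set_option linter.all false

noncomputable section

namespace Pool.WFS.K

open scoped Classical

variable {ι : Type} {A : Type} [AddCommGroup A]

abbrev W (ι : Type) := ι →₀ ℤ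

/-- the pairing -/
def dt (u w : W ι) : ℤ := u.sum fun i a => a * w i

theorem dt_add_left (u u' w : W ι) : dt (u + u') w = dt u w + dt u' w := by
  unfold dt
  rw [Finsupp.sum_add_index']
  · intro i; simp
  · intro i a b; ring

theorem dt_add_right (u w w' : W ι) : dt u (w + w') = dt u w + dt u w' := by
  unfold dt
  rw [← Finsupp.sum_add]
  apply Finsupp.sum_congr
  intro i _
  rw [Finsupp.add_apply]
  ring

theorem dt_zero_left (w : W ι) : dt 0 w = 0 := by unfold dt; simp

theorem dt_zero_right (u : W ι) : dt u 0 = 0 := by unfold dt; simp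

theorem dt_neg_left (u w : W ι) : dt (-u) w = - dt u w := by
  have := dt_add_left u (-u) w
  rw [add_neg_cancel, dt_zero_left] at this
  linarith

theorem dt_neg_right (u w : W ι) : dt u (-w) = - dt u w := by
  have := dt_add_right u w (-w)
  rw [add_neg_cancel, dt_zero_right] at this
  linarith

theorem dt_sub_left (u u' w : W ι) : dt (u - u') w = dt u w - dt u' w := by
  rw [sub_eq_add_neg, dt_add_left, dt_neg_left]; ring

theorem dt_sub_right (u w w' : W ι) : dt u (w - w') = dt u w - dt u w' := by
  rw [sub_eq_add_neg, dt_add_right, dt_neg_right]; ring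

theorem dt_single_left (i : ι) (a : ℤ) (w : W ι) : dt (Finsupp.single i a) w = a * w i := by
  unfold dt
  rw [Finsupp.sum_single_index]
  simp

theorem dt_single_right (i : ι) (a : ℤ) (u : W ι) : dt u (Finsupp.single i a) = u i * a := by
  unfold dt
  rw [Finsupp.sum, Finset.sum_eq_single i]
  · rw [Finsupp.single_eq_same]
  · intro j _ hj
    rw [Finsupp.single_apply, if_neg (Ne.symm hj), mul_zero]
  · intro hi
    rw [Finsupp.notMem_support_iff.1 hi, zero_mul]

theorem dt_smul_left (n : ℤ) (u w : W ι) : dt (n • u) w = n * dt u w := by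
  unfold dt
  rw [Finsupp.sum_smul_index (by intro i; simp), Finsupp.mul_sum]
  apply Finsupp.sum_congr
  intro i _
  ring

/-- additive on orthogonal pairs -/
structure BiAdd (β : W ι → W ι → A) : Prop where
  left : ∀ u u' w, dt u w = 0 → dt u' w = 0 → β (u + u') w = β u w + β u' w
  right : ∀ u w w', dt u w = 0 → dt u w' = 0 → β u (w + w') = β u w + β u w'

variable {β : W ι → W ι → A}

theorem BiAdd.zero_left (h : BiAdd β) (w : W ι) : β 0 w = 0 := by
  have := h.left 0 0 w (dt_zero_left w) (dt_zero_left w)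
  rw [add_zero] at this
  exact left_eq_add.1 this

theorem BiAdd.zero_right (h : BiAdd β) (u : W ι) : β u 0 = 0 := by
  have := h.right u 0 0 (dt_zero_right u) (dt_zero_right u)
  rw [add_zero] at this
  exact left_eq_add.1 this

/-- `u ↦ β u w` as a homomorphism on the orthogonal complement of `w` -/
def BiAdd.homL (h : BiAdd β) (w : W ι) :
    ({ carrier := {u | dt u w = 0}
       add_mem' := fun {a b} ha hb => by
        show dt (a + b) w = 0
        rw [dt_add_left, show dt a w = 0 from ha, show dt b w = 0 from hb, add_zero]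
       zero_mem' := dt_zero_left w
       neg_mem' := fun {a} ha => by
        show dt (-a) w = 0
        rw [dt_neg_left, show dt a w = 0 from ha, neg_zero] } : AddSubgroup (W ι)) →+ A where
  toFun u := β u.1 w
  map_zero' := h.zero_left w
  map_add' u u' := h.left u.1 u'.1 w u.2 u'.2

theorem BiAdd.zsmul_left (h : BiAdd β) (n : ℤ) {u w : W ι} (hu : dt u w = 0) :
    β (n • u) w = n • β u w := by
  have := map_zsmul (h.homL w) n ⟨u, hu⟩
  exact this

def BiAdd.homR (h : BiAdd β) (u : W ι) :
    ({ carrier := {w | dt u w = 0}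
       add_mem' := fun {a b} ha hb => by
        show dt u (a + b) = 0
        rw [dt_add_right, show dt u a = 0 from ha, show dt u b = 0 from hb, add_zero]
       zero_mem' := dt_zero_right u
       neg_mem' := fun {a} ha => by
        show dt u (-a) = 0
        rw [dt_neg_right, show dt u a = 0 from ha, neg_zero] } : AddSubgroup (W ι)) →+ A where
  toFun w := β u w.1
  map_zero' := h.zero_right u
  map_add' w w' := h.right u w.1 w'.1 w.2 w'.2

theorem BiAdd.zsmul_right (h : BiAdd β) (n : ℤ) {u w : W ι} (hu : dt u w = 0) :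
    β u (n • w) = n • β u w := by
  have := map_zsmul (h.homR u) n ⟨w, hu⟩
  exact this

theorem BiAdd.sum_left (h : BiAdd β) {κ : Type} (s : Finset κ) (f : κ → W ι) (w : W ι)
    (hf : ∀ k ∈ s, dt (f k) w = 0) :
    dt (∑ k ∈ s, f k) w = 0 ∧ β (∑ k ∈ s, f k) w = ∑ k ∈ s, β (f k) w := by
  induction s using Finset.induction_on with
  | empty => simp [dt_zero_left, h.zero_left]
  | insert k s hk ih =>
    obtain ⟨h1, h2⟩ := ih (fun k hk' => hf k (Finset.mem_insert_of_mem hk'))
    have h3 := hf k (Finset.mem_insert_self _ _)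
    rw [Finset.sum_insert hk, Finset.sum_insert hk]
    exact ⟨by rw [dt_add_left, h3, h1, add_zero], by rw [h.left _ _ _ h3 h1, h2]⟩

theorem BiAdd.sum_right (h : BiAdd β) {κ : Type} (s : Finset κ) (f : κ → W ι) (u : W ι)
    (hf : ∀ k ∈ s, dt u (f k) = 0) :
    dt u (∑ k ∈ s, f k) = 0 ∧ β u (∑ k ∈ s, f k) = ∑ k ∈ s, β u (f k) := by
  induction s using Finset.induction_on with
  | empty => simp [dt_zero_right, h.zero_right]
  | insert k s hk ih =>
    obtain ⟨h1, h2⟩ := ih (fun k hk' => hf k (Finset.mem_insert_of_mem hk'))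
    have h3 := hf k (Finset.mem_insert_self _ _)
    rw [Finset.sum_insert hk, Finset.sum_insert hk]
    exact ⟨by rw [dt_add_right, h3, h1, add_zero], by rw [h.right _ _ _ h3 h1, h2]⟩

/-- the unit vector -/
abbrev ee (i : ι) : W ι := Finsupp.single i 1

theorem dt_ee_ne {i j : ι} (h : i ≠ j) : dt (ee i) (ee j) = 0 := by
  rw [dt_single_left, Finsupp.single_apply, if_neg (Ne.symm h), mul_zero]

section vanish

variable (h : BiAdd β) (h0 : ∀ i j, i ≠ j → β (ee i) (ee j) = 0)
include h h0

/-- `β (e_i - c e_o) w = β (e_i - c e_o) (w_i e_i + w_o e_o)` when `w_i = c w_o` -/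
theorem van1 {i o : ι} (hio : i ≠ o) (c : ℤ) (w : W ι) (hw : w o = 1) (hwi : w i = c) :
    β (ee i - c • ee o) w = β (ee i - c • ee o) (c • ee i + ee o) := by
  set u : W ι := ee i - c • ee o with hu
  set w' : W ι := w - (c • ee i + ee o) with hw'
  have d1 : dt u (c • ee i + ee o) = 0 := by
    rw [hu, dt_sub_left, dt_smul_left, dt_single_left, dt_single_left]
    simp [Finsupp.single_apply, hio, hio.symm]
  have hu0 : ∀ j, j ≠ i → j ≠ o → β u (ee j) = 0 := by
    intro j hji hjo
    have e1 : u = ee i + (-c) • ee o := by rw [hu, neg_smul, sub_eq_add_neg]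
    rw [e1, h.left _ _ _ (dt_ee_ne (Ne.symm hji))
      (by rw [dt_smul_left, dt_ee_ne (Ne.symm hjo), mul_zero]),
      h.zsmul_left _ (dt_ee_ne (Ne.symm hjo)), h0 i j (Ne.symm hji), h0 o j (Ne.symm hjo)]
    simp
  have hw'0 : w' i = 0 ∧ w' o = 0 := by
    constructor
    · rw [hw']
      simp [Finsupp.single_apply, hio.symm, hwi]
    · rw [hw']
      simp [Finsupp.single_apply, hio, hw]
  have key := h.sum_right w'.support (fun j => w' j • ee j) u (by
    intro j hj
    have hji : j ≠ i := by rintro rfl; exact (Finsupp.mem_support_iff.1 hj) hw'0.1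
    have hjo : j ≠ o := by rintro rfl; exact (Finsupp.mem_support_iff.1 hj) hw'0.2
    have : w' j • ee j = (Finsupp.single j (w' j) : W ι) := by
      rw [Finsupp.smul_single, smul_eq_mul, mul_one]
    rw [this, dt_single_right, hu]
    simp [Finsupp.single_apply, Ne.symm hji, Ne.symm hjo])
  have e2 : (∑ j ∈ w'.support, w' j • ee j) = w' := by
    conv_rhs => rw [← Finsupp.sum_single w']
    rw [Finsupp.sum]
    apply Finset.sum_congr rfl
    intro j _
    rw [Finsupp.smul_single, smul_eq_mul, mul_one]
  rw [e2] at key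
  have e3 : β u w' = 0 := by
    rw [key.2]
    apply Finset.sum_eq_zero
    intro j hj
    have hji : j ≠ i := by rintro rfl; exact (Finsupp.mem_support_iff.1 hj) hw'0.1
    have hjo : j ≠ o := by rintro rfl; exact (Finsupp.mem_support_iff.1 hj) hw'0.2
    have dj : dt u (ee j) = 0 := by
      rw [dt_single_right, hu]
      simp [Finsupp.single_apply, Ne.symm hji, Ne.symm hjo]
    rw [h.zsmul_right _ dj, hu0 j hji hjo, smul_zero]
  have e4 : w = (c • ee i + ee o) + w' := by rw [hw']; abel
  conv_lhs => rw [e4]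
  rw [h.right _ _ _ d1 key.1, e3, add_zero]

/-- the value `K_i(c)` -/
theorem van2 {o : ι} {u w : W ι} (hu : u o = 0) (hw : w o = 0) (hd : dt u w = 0) :
    β u w = ∑ i ∈ u.support, u i • β (ee i - w i • ee o) (w i • ee i + ee o) := by
  have d1 : dt u (ee o) = 0 := by rw [dt_single_right, hu, zero_mul]
  have hne : ∀ i ∈ u.support, i ≠ o := by
    rintro i hi rfl
    exact (Finsupp.mem_support_iff.1 hi) hu
  have s1 : β u (ee o) = 0 := by
    have key := h.sum_left u.support (fun j => u j • ee j) (ee o) (by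
      intro j hj
      rw [dt_smul_left, dt_ee_ne (hne j hj), mul_zero])
    have e2 : (∑ j ∈ u.support, u j • ee j) = u := by
      conv_rhs => rw [← Finsupp.sum_single u]
      rw [Finsupp.sum]
      apply Finset.sum_congr rfl
      intro j _
      rw [Finsupp.smul_single, smul_eq_mul, mul_one]
    rw [e2] at key
    rw [key.2]
    apply Finset.sum_eq_zero
    intro j hj
    rw [h.zsmul_left _ (dt_ee_ne (hne j hj)), h0 j o (hne j hj), smul_zero]
  have s2 : β u w = β u (w + ee o) := by rw [h.right _ _ _ hd d1, s1, add_zero]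
  have e3 : (∑ i ∈ u.support, u i • (ee i - w i • ee o)) = u := by
    simp only [smul_sub, Finset.sum_sub_distrib, smul_smul]
    rw [← Finset.sum_smul]
    have : (∑ i ∈ u.support, u i * w i) = 0 := hd
    rw [this, zero_smul, sub_zero]
    conv_rhs => rw [← Finsupp.sum_single u]
    rw [Finsupp.sum]
    apply Finset.sum_congr rfl
    intro j _
    rw [Finsupp.smul_single, smul_eq_mul, mul_one]
  have dd : ∀ i ∈ u.support, dt (ee i - w i • ee o) (w + ee o) = 0 := by
    intro i hi
    rw [dt_sub_left, dt_smul_left, dt_single_left, dt_single_left]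
    simp [Finsupp.single_apply, (hne i hi), (hne i hi).symm, hw]
  have key := h.sum_left u.support (fun i => u i • (ee i - w i • ee o)) (w + ee o) (by
    intro i hi
    rw [dt_smul_left, dd i hi, mul_zero])
  rw [s2]
  conv_lhs => rw [← e3]
  rw [key.2]
  apply Finset.sum_congr rfl
  intro i hi
  rw [h.zsmul_left _ (dd i hi)]
  congr 1
  apply van1 h h0 (hne i hi)
  · simp [hw]
  · simp [Finsupp.single_apply, (hne i hi), (hne i hi).symm]

theorem van3 [Infinite ι] {o : ι}
    (h1 : ∀ i, i ≠ o → β (ee i - ee o) (ee i + ee o) = 0) {i : ι} (hi : i ≠ o) (c : ℤ) :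
    β (ee i - c • ee o) (c • ee i + ee o) = 0 := by
  obtain ⟨j, hj⟩ := ({i, o} : Set ι).toFinite.exists_notMem
  obtain ⟨k, hk⟩ := ({i, o, j} : Set ι).toFinite.exists_notMem
  simp only [Set.mem_insert_iff, Set.mem_singleton_iff, not_or] at hj hk
  obtain ⟨hji, hjo⟩ := hj
  obtain ⟨hki, hko, hkj⟩ := hk
  set K : ι → ℤ → A := fun i c => β (ee i - c • ee o) (c • ee i + ee o) with hK
  have K0 : ∀ i, i ≠ o → K i 0 = 0 := by
    intro i hi
    simp only [hK, zero_smul, sub_zero, zero_add]
    exact h0 i o hi
  have K1 : ∀ i, i ≠ o → K i 1 = 0 := by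
    intro i hi
    simp only [hK, one_smul]
    exact h1 i hi
  have form : ∀ (u w : W ι), u o = 0 → w o = 0 → dt u w = 0 → ∀ s : Finset ι, u.support ⊆ s →
      β u w = ∑ i ∈ s, u i • K i (w i) := by
    intro u w hu hw hd s hs
    rw [van2 h h0 hu hw hd]
    apply Finset.sum_subset hs
    intro x _ hx
    rw [Finsupp.notMem_support_iff.1 hx, zero_smul]
  have addK : ∀ c c' : ℤ, K i (c + c') = K i c + K i c' := by
    intro c c'
    set u : W ι := ee i - c • ee j - c' • ee k with hu
    set w1 : W ι := c • ee i + ee j with hw1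
    set w2 : W ι := c' • ee i + ee k with hw2
    have d1 : dt u w1 = 0 := by
      simp [hu, hw1, dt_sub_left, dt_smul_left, dt_add_right, dt_single_left,
        Finsupp.single_apply, hji, Ne.symm hji, hki, Ne.symm hki, hkj, Ne.symm hkj]
    have d2 : dt u w2 = 0 := by
      simp [hu, hw2, dt_sub_left, dt_smul_left, dt_add_right, dt_single_left,
        Finsupp.single_apply, hji, Ne.symm hji, hki, Ne.symm hki, hkj, Ne.symm hkj]
    have uo : u o = 0 := by
      simp [hu, Finsupp.single_apply, hi, hjo, hko]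
    have w1o : w1 o = 0 := by simp [hw1, Finsupp.single_apply, hi, hjo, hko]
    have w2o : w2 o = 0 := by simp [hw2, Finsupp.single_apply, hi, hjo, hko]
    have hs : u.support ⊆ {i, j, k} := by
      intro x hx
      by_contra hne
      simp only [Finset.mem_insert, Finset.mem_singleton, not_or] at hne
      apply (Finsupp.mem_support_iff.1 hx)
      simp [hu, Finsupp.single_apply, Ne.symm hne.1, Ne.symm hne.2.1, Ne.symm hne.2.2]
    have A1 := form u w1 uo w1o d1 _ hs
    have A2 := form u w2 uo w2o d2 _ hs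
    have A3 := form u (w1 + w2) uo (by rw [Finsupp.add_apply, w1o, w2o, add_zero])
      (by rw [dt_add_right, d1, d2, add_zero]) _ hs
    rw [h.right _ _ _ d1 d2, A1, A2] at A3
    have hij : i ∉ ({j, k} : Finset ι) := by simp [Ne.symm hji, Ne.symm hki]
    have hjk : j ∉ ({k} : Finset ι) := by simp [Ne.symm hkj]
    simp only [Finset.sum_insert hij, Finset.sum_insert hjk, Finset.sum_singleton] at A3
    have v1 : w1 i = c ∧ w1 j = 1 ∧ w1 k = 0 := by
      simp [hw1, Finsupp.single_apply, hji, Ne.symm hji, hki, Ne.symm hki, hkj, Ne.symm hkj]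
    have v2 : w2 i = c' ∧ w2 j = 0 ∧ w2 k = 1 := by
      simp [hw2, Finsupp.single_apply, hji, Ne.symm hji, hki, Ne.symm hki, hkj, Ne.symm hkj]
    have ui : u i = 1 := by
      simp [hu, Finsupp.single_apply, hji, hki]
    simp only [Finsupp.add_apply, v1.1, v1.2.1, v1.2.2, v2.1, v2.2.1, v2.2.2, ui, add_zero,
      zero_add, K0 j hjo, K0 k hko, K1 j hjo, K1 k hko, smul_zero, one_smul] at A3
    exact A3.symm
  have hom : ∀ c : ℤ, K i c = c • K i 1 := by
    let f : ℤ →+ A := { toFun := K i, map_zero' := K0 i hi, map_add' := addK }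
    intro c
    have := map_zsmul f c 1
    rw [smul_eq_mul, mul_one] at this
    exact this
  show K i c = 0
  rw [hom, K1 i hi, smul_zero]

theorem van4 [Infinite ι] {o : ι}
    (h1 : ∀ i, i ≠ o → β (ee i - ee o) (ee i + ee o) = 0) {u w : W ι} (hu : u o = 0)
    (hw : w o = 0) (hd : dt u w = 0) : β u w = 0 := by
  rw [van2 h h0 hu hw hd]
  apply Finset.sum_eq_zero
  intro i hi
  have hio : i ≠ o := by
    rintro rfl
    exact (Finsupp.mem_support_iff.1 hi) hu
  rw [van3 h h0 h1 hio, smul_zero]

end vanish

/-! ### the list version -/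

/-- the tensor `u ⊗ w` -/
def tn (u w : W ι) : (ι × ι) →₀ ℤ :=
  Finsupp.onFinset (u.support ×ˢ w.support) (fun p => u p.1 * w p.2) (by
    intro p hp
    rw [Finset.mem_product, Finsupp.mem_support_iff, Finsupp.mem_support_iff]
    exact ⟨left_ne_zero_of_mul hp, right_ne_zero_of_mul hp⟩)

theorem tn_apply (u w : W ι) (p : ι × ι) : tn u w p = u p.1 * w p.2 := rfl

theorem tn_add_left (u u' w : W ι) : tn (u + u') w = tn u w + tn u' w := by
  ext p
  simp only [tn_apply, Finsupp.add_apply]
  ring

theorem tn_add_right (u w w' : W ι) : tn u (w + w') = tn u w + tn u w' := by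
  ext p
  simp only [tn_apply, Finsupp.add_apply]
  ring

/-- the universal values -/
def th (β : W ι → W ι → A) (o i j : ι) : A :=
  if i = j then β (ee i - ee o) (ee i + ee o) - β (ee i) (ee o) + β (ee o) (ee i)
  else β (ee i) (ee j)

/-- the linear map with `E_ij ↦ th i j`, except that the pair `(o,o)` goes to `0` -/
def Th (β : W ι → W ι → A) (o : ι) : ((ι × ι) →₀ ℤ) →+ A :=
  Finsupp.liftAddHom fun p => (zmultiplesHom A) (if p.1 = o ∧ p.2 = o then 0 else th β o p.1 p.2)

theorem Th_single (β : W ι → W ι → A) (o i j : ι) (n : ℤ) :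
    Th β o (Finsupp.single (i, j) n) = n • (if i = o ∧ j = o then 0 else th β o i j) := by
  unfold Th
  rw [Finsupp.liftAddHom_apply_single, zmultiplesHom_apply]

theorem tn_ee (i j : ι) (a b : ℤ) :
    tn (Finsupp.single i a) (Finsupp.single j b) = Finsupp.single (i, j) (a * b) := by
  ext ⟨x, y⟩
  rw [tn_apply]
  simp only [Finsupp.single_apply, Prod.mk.injEq]
  by_cases h1 : i = x <;> by_cases h2 : j = y <;> simp [h1, h2]

theorem main_single [Infinite ι] (h : BiAdd β) {o : ι} {u w : W ι} (hu : u o = 0) (hw : w o = 0)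
    (hd : dt u w = 0) : β u w = Th β o (tn u w) := by
  set γ : W ι → W ι → A := fun u w => β u w - Th β o (tn u w) with hγ
  have hb : BiAdd γ := by
    constructor
    · intro u u' w h1 h2
      simp only [hγ]
      rw [h.left _ _ _ h1 h2, tn_add_left, map_add]
      abel
    · intro u w w' h1 h2
      simp only [hγ]
      rw [h.right _ _ _ h1 h2, tn_add_right, map_add]
      abel
  have h0 : ∀ i j, i ≠ j → γ (ee i) (ee j) = 0 := by
    intro i j hij
    simp only [hγ]
    rw [tn_ee, Th_single, if_neg (by rintro ⟨rfl, rfl⟩; exact hij rfl)]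
    unfold th
    rw [if_neg hij]
    simp
  have h1 : ∀ i, i ≠ o → γ (ee i - ee o) (ee i + ee o) = 0 := by
    intro i hi
    simp only [hγ]
    have e1 : tn (ee i - ee o) (ee i + ee o) = Finsupp.single (i, i) 1 + Finsupp.single (i, o) 1 +
        (Finsupp.single (o, i) (-1) + Finsupp.single (o, o) (-1)) := by
      rw [sub_eq_add_neg, tn_add_left, tn_add_right, tn_add_right, ← Finsupp.single_neg, tn_ee,
        tn_ee, tn_ee, tn_ee]
      simp
    rw [e1]
    rw [map_add, map_add, map_add, Th_single, Th_single, Th_single, Th_single]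
    rw [if_neg (by rintro ⟨rfl, _⟩; exact hi rfl), if_neg (by rintro ⟨rfl, _⟩; exact hi rfl),
      if_neg (by rintro ⟨_, rfl⟩; exact hi rfl), if_pos ⟨rfl, rfl⟩]
    unfold th
    rw [if_pos rfl, if_neg hi, if_neg (Ne.symm hi)]
    simp only [one_smul, neg_smul, smul_zero]
    abel
  have := van4 hb h0 h1 hu hw hd
  exact sub_eq_zero.1 this

/-- PURE LEMMA: if the sum of the tensors vanishes, so does the sum of the values -/
theorem pure_lemma [Infinite ι] (h : BiAdd β) (L : List (W ι × W ι))
    (hd : ∀ p ∈ L, dt p.1 p.2 = 0) (hs : (L.map fun p => tn p.1 p.2).sum = 0) :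
    (L.map fun p => β p.1 p.2).sum = 0 := by
  have hfin : (⋃ p ∈ L, ((p.1.support : Set ι) ∪ (p.2.support : Set ι))).Finite := by
    apply Set.Finite.biUnion (List.finite_toSet L)
    intro p _
    exact p.1.support.finite_toSet.union p.2.support.finite_toSet
  obtain ⟨o, ho⟩ := hfin.exists_notMem
  simp only [Set.mem_iUnion, Set.mem_union, not_exists, not_or, Finset.mem_coe,
    Finsupp.mem_support_iff, not_not] at ho
  have e : (L.map fun p => β p.1 p.2) = L.map fun p => Th β o (tn p.1 p.2) := by
    apply List.map_congr_left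
    intro p hp
    exact main_single h (ho p hp).1 (ho p hp).2 (hd p hp)
  rw [e]
  have e2 : (L.map fun p => Th β o (tn p.1 p.2)) = (L.map fun p => tn p.1 p.2).map (Th β o) := by
    rw [List.map_map]; rfl
  rw [e2, ← map_list_sum, hs, map_zero]

/-- multiplicative form, with values in a commuting subgroup -/
theorem pure_lemma_mul [Infinite ι] {Q : Type} [Group Q] (S : Subgroup Q)
    (hS : ∀ x ∈ S, ∀ y ∈ S, x * y = y * x) (b : W ι → W ι → Q) (hb : ∀ u w, b u w ∈ S)
    (hl : ∀ u u' w, dt u w = 0 → dt u' w = 0 → b (u + u') w = b u w * b u' w)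
    (hr : ∀ u w w', dt u w = 0 → dt u w' = 0 → b u (w + w') = b u w * b u w')
    (L : List (W ι × W ι)) (hd : ∀ p ∈ L, dt p.1 p.2 = 0)
    (hs : (L.map fun p => tn p.1 p.2).sum = 0) : (L.map fun p => b p.1 p.2).prod = 1 := by
  letI inst : CommGroup ↥S :=
    { (inferInstance : Group ↥S) with
      mul_comm := fun x y => Subtype.ext (hS x.1 x.2 y.1 y.2) }
  let β : W ι → W ι → Additive ↥S := fun u w => Additive.ofMul ⟨b u w, hb u w⟩
  have hβ : BiAdd β := by
    constructor
    · intro u u' w h h'
      apply Additive.toMul.injective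
      apply Subtype.ext
      exact hl u u' w h h'
    · intro u w w' h h'
      apply Additive.toMul.injective
      apply Subtype.ext
      exact hr u w w' h h'
  have key := pure_lemma hβ L hd hs
  have e : ∀ L : List (W ι × W ι), (L.map fun p => b p.1 p.2).prod =
      ((Additive.toMul ((L.map fun p => β p.1 p.2).sum) : ↥S) : Q) := by
    intro L
    induction L with
    | nil => rfl
    | cons p L ih =>
      rw [List.map_cons, List.prod_cons, ih, List.map_cons, List.sum_cons]
      rfl
  rw [e L, key]
  rfl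

end Pool.WFS.K
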