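import Pool.Agent.WFS.K.Comm2
import Pool.Agent.WFS.K.PL

/-! # Integer vectors (helper91, WFS, module K) -/

set_option autoImplicit false
set_option linter.all false

noncomputable section

namespace Pool.WFS.K

open Polynomial
open scoped Classical

variable {ι : Type}

/-- the constant vector -/
def up (u : W ι) : V ι := u.mapRange (C : ℤ → R) (map_zero C)

theorem up_apply (u : W ι) (i : ι) : up u i = C (u i) := rfl

theorem up_add (u u' : W ι) : up (u + u') = up u + up u' := by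
  ext1 i
  rw [up_apply, Finsupp.add_apply, Finsupp.add_apply, C_add, up_apply, up_apply]

theorem up_neg (u : W ι) : up (-u) = -up u := by
  ext1 i
  rw [up_apply, Finsupp.neg_apply, Finsupp.neg_apply, C_neg, up_apply]

theorem up_single (i : ι) (c : ℤ) : up (Finsupp.single i c) = Finsupp.single i (C c) := by
  unfold up
  rw [Finsupp.mapRange_single]

/-- the constant row -/
def rr (w : W ι) : D ι := Finsupp.linearCombination R (fun i => (C (w i) : R))

theorem rr_single (w : W ι) (i : ι) (r : R) : rr w (Finsupp.single i r) = r * C (w i) := by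
  unfold rr
  rw [Finsupp.linearCombination_single, smul_eq_mul]

theorem rr_add (w w' : W ι) : rr (w + w') = rr w + rr w' := by
  apply dual_ext
  intro i
  rw [LinearMap.add_apply, rr_single, rr_single, rr_single, Finsupp.add_apply, C_add]
  ring

theorem rr_up (u w : W ι) : rr w (up u) = C (dt u w) := by
  induction u using Finsupp.induction_linear with
  | zero =>
    rw [dt_zero_left]
    have : up (0 : W ι) = 0 := by ext1 i; simp [up_apply]
    rw [this, map_zero, map_zero]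
  | add f g hf hg => rw [up_add, map_add, hf, hg, dt_add_left, C_add]
  | single i a => rw [up_single, rr_single, dt_single_left, C_mul]

theorem isRow_rr (w : W ι) : IsRow (rr w) := by
  apply w.support.finite_toSet.subset
  intro i hi
  rw [Finset.mem_coe, Finsupp.mem_support_iff]
  intro h0
  apply hi
  rw [rr_single, h0, C_0, mul_zero]

theorem co_eq_rr (j : ι) : co j = rr (ee j) := by
  apply dual_ext
  intro i
  rw [rr_single, co_apply, one_mul, Finsupp.single_apply, Finsupp.single_apply]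
  by_cases h : i = j
  · subst h; simp
  · rw [if_neg h, if_neg (Ne.symm h), C_0]

/-- `B(u,w) = 1 + X^a u w^T` -/
def B (a : ℕ) (u w : W ι) : G ι := tau (rr w) ((X : R) ^ a • up u)

theorem B_cond {a : ℕ} {u w : W ι} (h : dt u w = 0) : rr w ((X : R) ^ a • up u) = 0 := by
  rw [map_smul, rr_up, h, C_0, smul_zero]

theorem B_mem [Infinite ι] (a : ℕ) (u w : W ι) : B a u w ∈ E ι a := by
  by_cases h : rr w ((X : R) ^ a • up u) = 0
  · apply tau_mem_E (isRow_rr w) h
    intro i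
    rw [Finsupp.smul_apply, smul_eq_mul]
    exact dvd_mul_right _ _
  · unfold B
    rw [tau_of_ne h]
    exact (E ι a).one_mem

theorem B_add_left {a : ℕ} {u u' w : W ι} (h : dt u w = 0) (h' : dt u' w = 0) :
    B a (u + u') w = B a u w * B a u' w := by
  unfold B
  rw [up_add, smul_add, tau_add_right (B_cond h) (B_cond h')]

theorem B_add_right {a : ℕ} {u w w' : W ι} (h : dt u w = 0) (h' : dt u w' = 0) :
    B a u (w + w') = B a u w * B a u w' := by
  unfold B
  rw [rr_add, tau_add_left (B_cond h) (B_cond h')]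

theorem B_inv {a : ℕ} (u w : W ι) : (B a u w)⁻¹ = B a (-u) w := by
  unfold B
  rw [tau_inv, up_neg, smul_neg]

/-! ### the integral elementary group -/

/-- `E(ℤ)` -/
def EZ (ι : Type) : Subgroup (G ι) :=
  Subgroup.closure {g | ∃ i j, ∃ c : ℤ, i ≠ j ∧ g = xe i j (C c)}

theorem EZ_le_PP : EZ ι ≤ PP ι := by
  rw [EZ, Subgroup.closure_le]
  rintro _ ⟨i, j, c, hij, rfl⟩
  exact xe_mem hij _

variable [Infinite ι]

theorem xe_C_up {i j : ι} (hij : i ≠ j) (c : ℤ) (u : W ι) :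
    ∃ u', xe i j (C c) (up u) = up u' := by
  refine ⟨u + Finsupp.single i (u j * c), ?_⟩
  rw [xe_apply hij, up_add, up_single, up_apply, C_mul]

theorem xe_C_rr {i j : ι} (hij : i ≠ j) (c : ℤ) (w : W ι) :
    ∃ w', dl (xe i j (C c)) (rr w) = rr w' := by
  refine ⟨w + Finsupp.single j (-(w i * c)), ?_⟩
  apply dual_ext
  intro k
  rw [dl_apply, ← xe_neg, xe_apply hij, map_add, rr_single, rr_single, rr_single,
    Finsupp.add_apply, C_add]
  rw [Finsupp.single_apply, Finsupp.single_apply]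
  by_cases hk : k = j
  · subst hk
    rw [if_pos rfl, if_pos rfl]
    simp only [C_neg, C_mul]
    ring
  · rw [if_neg hk, if_neg (Ne.symm hk)]
    simp

theorem EZ_int {q : G ι} (hq : q ∈ EZ ι) :
    ((∀ u : W ι, ∃ u', q (up u) = up u') ∧ ∀ u : W ι, ∃ u', q⁻¹ (up u) = up u') ∧
    ((∀ w : W ι, ∃ w', dl q (rr w) = rr w') ∧ ∀ w : W ι, ∃ w', dl q⁻¹ (rr w) = rr w') := by
  induction hq using Subgroup.closure_induction with
  | mem x hx =>
    obtain ⟨i, j, c, hij, rfl⟩ := hx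
    refine ⟨⟨xe_C_up hij c, ?_⟩, ⟨xe_C_rr hij c, ?_⟩⟩
    · rw [← xe_neg, ← C_neg]
      exact xe_C_up hij (-c)
    · rw [← xe_neg, ← C_neg]
      exact xe_C_rr hij (-c)
  | one =>
    refine ⟨⟨fun u => ⟨u, rfl⟩, fun u => ⟨u, ?_⟩⟩, ⟨fun w => ⟨w, ?_⟩, fun w => ⟨w, ?_⟩⟩⟩
    · rw [inv_one]; rfl
    · apply LinearMap.ext; intro v; rw [dl_apply, inv_one]; rfl
    · apply LinearMap.ext; intro v; rw [dl_apply, inv_one, inv_one]; rfl
  | mul x y _ _ hx hy =>
    have dlm : ∀ (x y : G ι) (φ : D ι), dl (x * y) φ = dl x (dl y φ) := by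
      intro x y φ
      apply LinearMap.ext
      intro v
      rw [dl_apply, dl_apply, dl_apply, mul_inv_rev, LinearEquiv.mul_apply]
    refine ⟨⟨fun u => ?_, fun u => ?_⟩, ⟨fun w => ?_, fun w => ?_⟩⟩
    · obtain ⟨u1, h1⟩ := hy.1.1 u
      obtain ⟨u2, h2⟩ := hx.1.1 u1
      exact ⟨u2, by rw [LinearEquiv.mul_apply, h1, h2]⟩
    · obtain ⟨u1, h1⟩ := hx.1.2 u
      obtain ⟨u2, h2⟩ := hy.1.2 u1
      exact ⟨u2, by rw [mul_inv_rev, LinearEquiv.mul_apply, h1, h2]⟩
    · obtain ⟨u1, h1⟩ := hy.2.1 w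
      obtain ⟨u2, h2⟩ := hx.2.1 u1
      exact ⟨u2, by rw [dlm, h1, h2]⟩
    · obtain ⟨u1, h1⟩ := hx.2.2 w
      obtain ⟨u2, h2⟩ := hy.2.2 u1
      exact ⟨u2, by rw [mul_inv_rev, dlm, h1, h2]⟩
  | inv x _ hx =>
    refine ⟨⟨hx.1.2, ?_⟩, ⟨hx.2.2, ?_⟩⟩
    · rw [inv_inv]; exact hx.1.1
    · rw [inv_inv]; exact hx.2.1

/-- `P = E(ℤ) · E 1` -/
theorem PP_decomp {q : G ι} (hq : q ∈ PP ι) : ∃ q0 ∈ EZ ι, ∃ y ∈ E ι 1, q = q0 * y := by
  induction hq using Subgroup.closure_induction with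
  | mem x hx =>
    obtain ⟨i, j, r, hij, rfl⟩ := hx
    refine ⟨xe i j (C (r.coeff 0)), Subgroup.subset_closure ⟨i, j, _, hij, rfl⟩,
      xe i j (r - C (r.coeff 0)), ?_, ?_⟩
    · apply xe_mem_E' hij
      rw [pow_one, X_dvd_iff]
      simp
    · rw [← xe_add hij]; congr 1; ring
  | one => exact ⟨1, (EZ ι).one_mem, 1, (E ι 1).one_mem, by simp⟩
  | mul x y _ _ hx hy =>
    obtain ⟨a, ha, b, hb, rfl⟩ := hx
    obtain ⟨c, hc, d, hd, rfl⟩ := hy
    refine ⟨a * c, (EZ ι).mul_mem ha hc, c⁻¹ * b * c * d, (E ι 1).mul_mem ?_ hd, by group⟩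
    have := conj_mem_E ((PP ι).inv_mem (EZ_le_PP hc)) hb
    rwa [inv_inv] at this
  | inv x _ hx =>
    obtain ⟨a, ha, b, hb, rfl⟩ := hx
    refine ⟨a⁻¹, (EZ ι).inv_mem ha, a * b⁻¹ * a⁻¹,
      conj_mem_E (EZ_le_PP ha) ((E ι 1).inv_mem hb), by group⟩

end Pool.WFS.K
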