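import Pool.Agent.WFS.K.Int

/-! # (K): `E a ∩ Γ_(a+1) ≤ H a` (helper91, WFS, module K) -/

set_option autoImplicit false
set_option linter.all false

noncomputable section

namespace Pool.WFS.K

open Polynomial
open scoped Classical

variable {ι : Type} [Infinite ι]

/-- the image of `E a` in `P / H a` -/
def Va (ι : Type) [Infinite ι] (a : ℕ) : Subgroup (Qt ι a) :=
  ((E ι a).subgroupOf (PP ι)).map (pr a)

theorem pr_mem_Va {a : ℕ} {g : G ι} (hg : g ∈ E ι a) : pr a ⟨g, E_le_PP a hg⟩ ∈ Va ι a :=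
  Subgroup.mem_map_of_mem _ (by rw [Subgroup.mem_subgroupOf]; exact hg)

theorem Va_comm {a : ℕ} (ha : 1 ≤ a) {x y : Qt ι a} (hx : x ∈ Va ι a) (hy : y ∈ Va ι a) :
    x * y = y * x := by
  obtain ⟨g, hg, rfl⟩ := hx
  obtain ⟨h, hh, rfl⟩ := hy
  obtain ⟨_, _, hc⟩ := Cm_E (a := a) (E_anti ha (Subgroup.mem_subgroupOf.1 hg))
    (Subgroup.mem_subgroupOf.1 hh)
  exact hc

/-- the value of `B` in the quotient -/
def be (a : ℕ) (u w : W ι) : Qt ι a := pr a ⟨B a u w, E_le_PP a (B_mem a u w)⟩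

theorem be_add_left {a : ℕ} {u u' w : W ι} (h : dt u w = 0) (h' : dt u' w = 0) :
    be a (u + u') w = be a u w * be a u' w := by
  unfold be
  rw [← map_mul]
  congr 1
  exact Subtype.ext (B_add_left h h')

theorem be_add_right {a : ℕ} {u w w' : W ι} (h : dt u w = 0) (h' : dt u w' = 0) :
    be a u (w + w') = be a u w * be a u w' := by
  unfold be
  rw [← map_mul]
  congr 1
  exact Subtype.ext (B_add_right h h')

/-- `g` is a product of `B`'s modulo `H a` -/
def IsB (a : ℕ) (g : G ι) : Prop :=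
  ∃ L : List (W ι × W ι), (∀ p ∈ L, dt p.1 p.2 = 0) ∧
    g * ((L.map fun p => B a p.1 p.2).prod)⁻¹ ∈ H ι a

theorem prodB_mem {a : ℕ} (L : List (W ι × W ι)) : (L.map fun p => B a p.1 p.2).prod ∈ E ι a := by
  apply Subgroup.list_prod_mem
  intro x hx
  obtain ⟨p, _, rfl⟩ := List.mem_map.1 hx
  exact B_mem a p.1 p.2

theorem IsB.mul {a : ℕ} {g h : G ι} (hg' : g ∈ PP ι) (hg : IsB a g) (hh : IsB a h) :
    IsB a (g * h) := by
  obtain ⟨L, hL, h1⟩ := hg
  obtain ⟨L', hL', h2⟩ := hh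
  refine ⟨L ++ L', ?_, ?_⟩
  · intro p hp
    rcases List.mem_append.1 hp with h | h
    · exact hL p h
    · exact hL' p h
  · rw [List.map_append, List.prod_append]
    have := (H ι a).mul_mem (conj_mem_H hg' h2) h1
    convert this using 1
    group

theorem IsB.of_H {a : ℕ} {g : G ι} (hg : g ∈ H ι a) : IsB a g :=
  ⟨[], by simp, by simpa using hg⟩

theorem IsB.inv {a : ℕ} {g : G ι} (hg' : g ∈ PP ι) (hg : IsB a g) : IsB a g⁻¹ := by
  obtain ⟨L, hL, h1⟩ := hg
  refine ⟨(L.map fun p => (-p.1, p.2)).reverse, ?_, ?_⟩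
  · intro p hp
    rw [List.mem_reverse, List.mem_map] at hp
    obtain ⟨q, hq, rfl⟩ := hp
    show dt (-q.1) q.2 = 0
    rw [dt_neg_left, hL q hq, neg_zero]
  · have e : (((L.map fun p => (-p.1, p.2)).reverse.map fun p => B a p.1 p.2).prod) =
        ((L.map fun p => B a p.1 p.2).prod)⁻¹ := by
      rw [List.prod_inv_reverse, List.map_reverse, List.map_map, List.map_map]
      congr 2
      apply List.map_congr_left
      intro p _
      show B a (-p.1) p.2 = (B a p.1 p.2)⁻¹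
      rw [B_inv]
    rw [e, inv_inv]
    set m := (L.map fun p => B a p.1 p.2).prod
    have h2 := conj_mem_H ((PP ι).inv_mem hg') ((H ι a).inv_mem h1)
    convert h2 using 1
    group

theorem isB_gen {a : ℕ} (ha : 1 ≤ a) {q : G ι} (hq : q ∈ PP ι) {k l : ι} (hkl : k ≠ l) (r : R) :
    IsB a (q * xe k l (X ^ a * r) * q⁻¹) := by
  obtain ⟨q0, hq0, y, hy, rfl⟩ := PP_decomp hq
  have hq0' := EZ_le_PP hq0
  have hyP := E_le_PP _ hy
  -- the integral part
  set c := r.coeff 0 with hc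
  obtain ⟨r', hr'⟩ : ∃ r', r = C c + X * r' := by
    have : X ∣ r - C c := by rw [X_dvd_iff]; simp [hc]
    obtain ⟨s, hs⟩ := this
    exact ⟨s, by rw [← hs]; ring⟩
  have m1 : xe k l (X ^ (a + 1) * r') ∈ H ι a := E_le_H a (xe_mem_E hkl _ _)
  have e1 : xe k l (X ^ a * r) = xe k l (X ^ a * C c) * xe k l (X ^ (a + 1) * r') := by
    rw [← xe_add hkl]; congr 1
    conv_lhs => rw [hr']
    ring
  have m2 : y * xe k l (X ^ a * r) * y⁻¹ * (xe k l (X ^ a * r))⁻¹ ∈ H ι a :=
    (Cm.iff hyP (xe_mem hkl _)).1 (Cm_E hy (xe_mem_E hkl a r))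
  have hB : IsB a (q0 * xe k l (X ^ a * C c) * q0⁻¹) := by
    obtain ⟨u', hu'⟩ := (EZ_int hq0).1.1 (Finsupp.single k c)
    obtain ⟨w', hw'⟩ := (EZ_int hq0).2.1 (ee l)
    refine ⟨[(u', w')], ?_, ?_⟩
    · intro p hp
      rw [List.mem_singleton] at hp
      subst hp
      show dt u' w' = 0
      have h1 : rr w' (up u') = 0 := by
        rw [← hw', ← hu', dl_apply, inv_apply_self, rr_up, dt_single_left]
        simp [Finsupp.single_apply, Ne.symm hkl]
      rw [rr_up] at h1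
      exact C_injective (by rw [h1, C_0])
    · have e2 : q0 * xe k l (X ^ a * C c) * q0⁻¹ = B a u' w' := by
        unfold xe B
        rw [conj_tau, co_eq_rr, hw', ← hu', up_single, ← map_smul, Finsupp.smul_single, smul_eq_mul]
      rw [e2]
      simp [(H ι a).one_mem]
  have e3 : q0 * y * xe k l (X ^ a * r) * (q0 * y)⁻¹ =
      (q0 * (y * xe k l (X ^ a * r) * y⁻¹ * (xe k l (X ^ a * r))⁻¹) * q0⁻¹) *
        ((q0 * xe k l (X ^ a * C c) * q0⁻¹) * (q0 * xe k l (X ^ (a + 1) * r') * q0⁻¹)) := by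
    rw [e1]; group
  rw [e3]
  apply IsB.mul
  · exact H_le_PP a (conj_mem_H hq0' m2)
  · exact IsB.of_H (conj_mem_H hq0' m2)
  · apply IsB.mul _ hB (IsB.of_H (conj_mem_H hq0' m1))
    exact (PP ι).mul_mem ((PP ι).mul_mem hq0' (xe_mem hkl _)) ((PP ι).inv_mem hq0')

theorem isB {a : ℕ} (ha : 1 ≤ a) {g : G ι} (hg : g ∈ E ι a) : IsB a g := by
  induction hg using Subgroup.closure_induction with
  | mem x hx =>
    obtain ⟨q, hq, i, j, r, hij, rfl⟩ := hx
    exact isB_gen ha hq hij r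
  | one => exact IsB.of_H (H ι a).one_mem
  | mul x y hx1 _ hx hy => exact IsB.mul (E_le_PP a hx1) hx hy
  | inv x hx1 hx => exact IsB.inv (E_le_PP a hx1) hx

/-- the first order part of a product of `B`'s -/
theorem first_order {a : ℕ} (ha : 1 ≤ a) (L : List (W ι × W ι)) (hL : ∀ p ∈ L, dt p.1 p.2 = 0)
    (v : V ι) : ∃ v' : V ι, (L.map fun p => B a p.1 p.2).prod v =
      v + (X : R) ^ a • (L.map fun p => rr p.2 v • up p.1).sum + (X : R) ^ (a + 1) • v' := by
  induction L with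
  | nil => exact ⟨0, by simp⟩
  | cons p L ih =>
    obtain ⟨v', hv'⟩ := ih (fun q hq => hL q (List.mem_cons_of_mem _ hq))
    have hp := hL p (List.mem_cons_self)
    set S := (L.map fun p => rr p.2 v • up p.1).sum with hS
    obtain ⟨b, rfl⟩ : ∃ b, a = b + 1 := ⟨a - 1, by omega⟩
    refine ⟨v' + (X : R) ^ b • (rr p.2 S • up p.1) + (X : R) ^ (b + 1) • (rr p.2 v' • up p.1), ?_⟩
    rw [List.map_cons, List.prod_cons, LinearEquiv.mul_apply, hv', List.map_cons, List.sum_cons, ← hS]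
    unfold B
    rw [tau_apply (B_cond hp)]
    simp only [map_add, map_smul, smul_eq_mul, smul_add, smul_smul]
    have e1 : ((rr p.2) v + (X : R) ^ (b + 1) * (rr p.2) S + X ^ (b + 1 + 1) * (rr p.2) v') *
        X ^ (b + 1) = X ^ (b + 1) * (rr p.2) v + X ^ (b + 1 + 1) * (X ^ b * (rr p.2) S) +
          X ^ (b + 1 + 1) * (X ^ (b + 1) * (rr p.2) v') := by
      ring
    rw [e1, add_smul, add_smul]
    abel

theorem tn_sum {a : ℕ} (ha : 1 ≤ a) (L : List (W ι × W ι)) (hL : ∀ p ∈ L, dt p.1 p.2 = 0)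
    (hG : (L.map fun p => B a p.1 p.2).prod ∈ Gam ι (a + 1)) :
    (L.map fun p => tn p.1 p.2).sum = 0 := by
  ext ⟨i, j⟩
  obtain ⟨v', hv'⟩ := first_order ha L hL (Finsupp.single j 1)
  have h1 := hG (Finsupp.single j 1) i
  rw [hv'] at h1
  have e1 : ∀ (x y z : V ι), (x + y + z - x) i = y i + z i := by
    intro x y z
    rw [add_assoc, add_sub_cancel_left, Finsupp.add_apply]
  rw [e1, Finsupp.smul_apply, Finsupp.smul_apply, smul_eq_mul, smul_eq_mul] at h1
  have h2 : (X : R) ^ (a + 1) ∣ X ^ a * (L.map fun p => rr p.2 (Finsupp.single j 1) • up p.1).sum i :=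
    (dvd_add_left (dvd_mul_right _ _)).1 h1
  rw [pow_succ] at h2
  have h3 : (X : R) ∣ (L.map fun p => rr p.2 (Finsupp.single j 1) • up p.1).sum i :=
    (mul_dvd_mul_iff_left (pow_ne_zero a X_ne_zero)).1 h2
  have e2 : (L.map fun p => rr p.2 (Finsupp.single j 1) • up p.1).sum i =
      C ((L.map fun p => tn p.1 p.2).sum (i, j)) := by
    clear hv' h1 h2 h3 hG hL
    induction L with
    | nil => simp
    | cons p L ih =>
      rw [List.map_cons, List.sum_cons, Finsupp.add_apply, ih, List.map_cons, List.sum_cons,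
        Finsupp.add_apply, C_add, Finsupp.smul_apply, rr_single, up_apply, tn_apply, C_mul]
      simp [mul_comm]
  rw [e2, X_dvd_iff, coeff_C_zero] at h3
  exact h3

/-- the product of a list of `B`'s, by recursion -/
def pB (a : ℕ) : List (W ι × W ι) → G ι
  | [] => 1
  | p :: L => B a p.1 p.2 * pB a L

/-- the product in the quotient, by recursion -/
def pQ (a : ℕ) : List (W ι × W ι) → Qt ι a
  | [] => 1
  | p :: L => be a p.1 p.2 * pQ a L

theorem pB_eq (a : ℕ) (L : List (W ι × W ι)) : pB a L = (L.map fun p => B a p.1 p.2).prod := by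
  induction L with
  | nil => rfl
  | cons p L ih => rw [pB, ih, List.map_cons, List.prod_cons]

theorem pQ_eq (a : ℕ) (L : List (W ι × W ι)) : pQ a L = (L.map fun p => be a p.1 p.2).prod := by
  induction L with
  | nil => rfl
  | cons p L ih => rw [pQ, ih, List.map_cons, List.prod_cons]

theorem pB_mem (a : ℕ) (L : List (W ι × W ι)) : pB a L ∈ E ι a := by
  induction L with
  | nil => exact (E ι a).one_mem
  | cons p L ih => exact (E ι a).mul_mem (B_mem a p.1 p.2) ih

theorem pB_pr {a : ℕ} (L : List (W ι × W ι)) : pr a ⟨pB a L, E_le_PP a (pB_mem a L)⟩ = pQ a L := by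
  induction L with
  | nil => exact pr_eq_one.2 (H ι a).one_mem
  | cons p L ih =>
    rw [pQ, ← ih]
    exact (pr a).map_mul ⟨B a p.1 p.2, E_le_PP a (B_mem a p.1 p.2)⟩
      ⟨pB a L, E_le_PP a (pB_mem a L)⟩

/-- **(K)** -/
theorem K_main {a : ℕ} (ha : 1 ≤ a) {g : G ι} (hg : g ∈ E ι a) (hG : g ∈ Gam ι (a + 1)) :
    g ∈ H ι a := by
  obtain ⟨L, hL, h1⟩ := isB ha hg
  set m := (L.map fun p => B a p.1 p.2).prod with hm
  have hmE : m ∈ E ι a := prodB_mem L
  have hmG : m ∈ Gam ι (a + 1) := by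
    have := (Gam ι (a + 1)).mul_mem ((Gam ι (a + 1)).inv_mem (H_le_Gam a h1)) hG
    convert this using 1
    group
  have ht := tn_sum ha L hL hmG
  have key := pure_lemma_mul (Va ι a) (fun x hx y hy => Va_comm ha hx hy) (be a)
    (fun u w => pr_mem_Va (B_mem a u w)) (fun u u' w h h' => be_add_left h h')
    (fun u w w' h h' => be_add_right h h') L hL ht
  have hmH : pB a L ∈ H ι a := by
    apply (pr_eq_one (g := ⟨pB a L, E_le_PP a (pB_mem a L)⟩)).1
    rw [pB_pr, pQ_eq, key]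
  rw [pB_eq, ← hm] at hmH
  have := (H ι a).mul_mem h1 hmH
  convert this using 1
  group

end Pool.WFS.K
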