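import Pool.Agent.WFS.K.PL

/-! # The pure lemma on a type with at least four elements (helper91, WFS, module K) -/

set_option autoImplicit false
set_option linter.all false

noncomputable section

namespace Pool.WFS.K

open scoped Classical

variable {ι : Type} {A : Type} [AddCommGroup A] {β : W ι → W ι → A}

/-- at least four elements -/
def Four (ι : Type) : Prop := ∀ s : Finset ι, s.card ≤ 3 → ∃ x, x ∉ s

section vanish

variable (h : BiAdd β) (h0 : ∀ i j, i ≠ j → β (ee i) (ee j) = 0)
include h h0

theorem van3' (h4 : Four ι) {o : ι}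
    (h1 : ∀ i, i ≠ o → β (ee i - ee o) (ee i + ee o) = 0) {i : ι} (hi : i ≠ o) (c : ℤ) :
    β (ee i - c • ee o) (c • ee i + ee o) = 0 := by
  obtain ⟨j, hj⟩ := h4 {i, o} (Finset.card_le_two.trans (by norm_num))
  obtain ⟨k, hk⟩ := h4 {i, o, j} Finset.card_le_three
  simp only [Finset.mem_insert, Finset.mem_singleton, not_or] at hj hk
  obtain ⟨hji, hjo⟩ := hj
  obtain ⟨hki, hko, hkj⟩ := hk
  set K : ι → ℤ → A := fun i c => β (ee i - c • ee o) (c • ee i + ee o) with hK
  have K0 : ∀ i, i ≠ o → K i 0 = 0 := by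
    intro i hi
    simp only [hK, zero_smul, sub_zero, zero_add]
    exact h0 i o hi
  have K1 : ∀ i, i ≠ o → K i 1 = 0 := by
    intro i hi
    simp only [hK, one_smul]
    exact h1 i hi
  have form : ∀ (u w : W ι), u o = 0 → w o = 0 → dt u w = 0 → ∀ s : Finset ι, u.support ⊆ s →
      β u w = ∑ i ∈ s, u i • K i (w i) := by
    intro u w hu hw hd s hs
    rw [van2 h h0 hu hw hd]
    apply Finset.sum_subset hs
    intro x _ hx
    rw [Finsupp.notMem_support_iff.1 hx, zero_smul]
  have addK : ∀ c c' : ℤ, K i (c + c') = K i c + K i c' := by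
    intro c c'
    set u : W ι := ee i - c • ee j - c' • ee k with hu
    set w1 : W ι := c • ee i + ee j with hw1
    set w2 : W ι := c' • ee i + ee k with hw2
    have d1 : dt u w1 = 0 := by
      simp [hu, hw1, dt_sub_left, dt_smul_left, dt_add_right, dt_single_left,
        Finsupp.single_apply, hji, Ne.symm hji, hki, Ne.symm hki, hkj, Ne.symm hkj]
    have d2 : dt u w2 = 0 := by
      simp [hu, hw2, dt_sub_left, dt_smul_left, dt_add_right, dt_single_left,
        Finsupp.single_apply, hji, Ne.symm hji, hki, Ne.symm hki, hkj, Ne.symm hkj]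
    have uo : u o = 0 := by
      simp [hu, Finsupp.single_apply, hi, hjo, hko]
    have w1o : w1 o = 0 := by simp [hw1, Finsupp.single_apply, hi, hjo, hko]
    have w2o : w2 o = 0 := by simp [hw2, Finsupp.single_apply, hi, hjo, hko]
    have hs : u.support ⊆ {i, j, k} := by
      intro x hx
      by_contra hne
      simp only [Finset.mem_insert, Finset.mem_singleton, not_or] at hne
      apply (Finsupp.mem_support_iff.1 hx)
      simp [hu, Finsupp.single_apply, Ne.symm hne.1, Ne.symm hne.2.1, Ne.symm hne.2.2]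
    have A1 := form u w1 uo w1o d1 _ hs
    have A2 := form u w2 uo w2o d2 _ hs
    have A3 := form u (w1 + w2) uo (by rw [Finsupp.add_apply, w1o, w2o, add_zero])
      (by rw [dt_add_right, d1, d2, add_zero]) _ hs
    rw [h.right _ _ _ d1 d2, A1, A2] at A3
    have hij : i ∉ ({j, k} : Finset ι) := by simp [Ne.symm hji, Ne.symm hki]
    have hjk : j ∉ ({k} : Finset ι) := by simp [Ne.symm hkj]
    simp only [Finset.sum_insert hij, Finset.sum_insert hjk, Finset.sum_singleton] at A3
    have v1 : w1 i = c ∧ w1 j = 1 ∧ w1 k = 0 := by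
      simp [hw1, Finsupp.single_apply, hji, Ne.symm hji, hki, Ne.symm hki, hkj, Ne.symm hkj]
    have v2 : w2 i = c' ∧ w2 j = 0 ∧ w2 k = 1 := by
      simp [hw2, Finsupp.single_apply, hji, Ne.symm hji, hki, Ne.symm hki, hkj, Ne.symm hkj]
    have ui : u i = 1 := by
      simp [hu, Finsupp.single_apply, hji, hki]
    simp only [Finsupp.add_apply, v1.1, v1.2.1, v1.2.2, v2.1, v2.2.1, v2.2.2, ui, add_zero,
      zero_add, K0 j hjo, K0 k hko, K1 j hjo, K1 k hko, smul_zero, one_smul] at A3
    exact A3.symm
  have hom : ∀ c : ℤ, K i c = c • K i 1 := by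
    let f : ℤ →+ A := { toFun := K i, map_zero' := K0 i hi, map_add' := addK }
    intro c
    have := map_zsmul f c 1
    rw [smul_eq_mul, mul_one] at this
    exact this
  show K i c = 0
  rw [hom, K1 i hi, smul_zero]

theorem van4' (h4 : Four ι) {o : ι}
    (h1 : ∀ i, i ≠ o → β (ee i - ee o) (ee i + ee o) = 0) {u w : W ι} (hu : u o = 0)
    (hw : w o = 0) (hd : dt u w = 0) : β u w = 0 := by
  rw [van2 h h0 hu hw hd]
  apply Finset.sum_eq_zero
  intro i hi
  have hio : i ≠ o := by
    rintro rfl
    exact (Finsupp.mem_support_iff.1 hi) hu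
  rw [van3' h h0 h4 h1 hio, smul_zero]

end vanish

theorem main_single' (h4 : Four ι) (h : BiAdd β) {o : ι} {u w : W ι} (hu : u o = 0) (hw : w o = 0)
    (hd : dt u w = 0) : β u w = Th β o (tn u w) := by
  set γ : W ι → W ι → A := fun u w => β u w - Th β o (tn u w) with hγ
  have hb : BiAdd γ := by
    constructor
    · intro u u' w h1 h2
      simp only [hγ]
      rw [h.left _ _ _ h1 h2, tn_add_left, map_add]
      abel
    · intro u w w' h1 h2
      simp only [hγ]
      rw [h.right _ _ _ h1 h2, tn_add_right, map_add]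
      abel
  have h0 : ∀ i j, i ≠ j → γ (ee i) (ee j) = 0 := by
    intro i j hij
    simp only [hγ]
    rw [tn_ee, Th_single, if_neg (by rintro ⟨rfl, rfl⟩; exact hij rfl)]
    unfold th
    rw [if_neg hij]
    simp
  have h1 : ∀ i, i ≠ o → γ (ee i - ee o) (ee i + ee o) = 0 := by
    intro i hi
    simp only [hγ]
    have e1 : tn (ee i - ee o) (ee i + ee o) = Finsupp.single (i, i) 1 + Finsupp.single (i, o) 1 +
        (Finsupp.single (o, i) (-1) + Finsupp.single (o, o) (-1)) := by
      rw [sub_eq_add_neg, tn_add_left, tn_add_right, tn_add_right, ← Finsupp.single_neg, tn_ee,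
        tn_ee, tn_ee, tn_ee]
      simp
    rw [e1]
    rw [map_add, map_add, map_add, Th_single, Th_single, Th_single, Th_single]
    rw [if_neg (by rintro ⟨rfl, _⟩; exact hi rfl), if_neg (by rintro ⟨rfl, _⟩; exact hi rfl),
      if_neg (by rintro ⟨_, rfl⟩; exact hi rfl), if_pos ⟨rfl, rfl⟩]
    unfold th
    rw [if_pos rfl, if_neg hi, if_neg (Ne.symm hi)]
    simp only [one_smul, neg_smul, smul_zero]
    abel
  have := van4' hb h0 h4 h1 hu hw hd
  exact sub_eq_zero.1 this

/-- PURE LEMMA: if the sum of the tensors vanishes, so does the sum of the values -/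
theorem pure_lemma' (h4 : Four ι) (h : BiAdd β) (o : ι) (L : List (W ι × W ι))
    (hd : ∀ p ∈ L, dt p.1 p.2 = 0) (ho : ∀ p ∈ L, p.1 o = 0 ∧ p.2 o = 0)
    (hs : (L.map fun p => tn p.1 p.2).sum = 0) :
    (L.map fun p => β p.1 p.2).sum = 0 := by
  have e : (L.map fun p => β p.1 p.2) = L.map fun p => Th β o (tn p.1 p.2) := by
    apply List.map_congr_left
    intro p hp
    exact main_single' h4 h (ho p hp).1 (ho p hp).2 (hd p hp)
  rw [e]
  have e2 : (L.map fun p => Th β o (tn p.1 p.2)) = (L.map fun p => tn p.1 p.2).map (Th β o) := by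
    rw [List.map_map]; rfl
  rw [e2, ← map_list_sum, hs, map_zero]

/-- multiplicative form, with values in a commuting subgroup -/
theorem pure_lemma_mul' (h4 : Four ι) {Q : Type} [Group Q] (S : Subgroup Q)
    (hS : ∀ x ∈ S, ∀ y ∈ S, x * y = y * x) (b : W ι → W ι → Q) (hb : ∀ u w, b u w ∈ S)
    (hl : ∀ u u' w, dt u w = 0 → dt u' w = 0 → b (u + u') w = b u w * b u' w)
    (hr : ∀ u w w', dt u w = 0 → dt u w' = 0 → b u (w + w') = b u w * b u w')
    (o : ι) (L : List (W ι × W ι)) (hd : ∀ p ∈ L, dt p.1 p.2 = 0)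
    (ho : ∀ p ∈ L, p.1 o = 0 ∧ p.2 o = 0)
    (hs : (L.map fun p => tn p.1 p.2).sum = 0) : (L.map fun p => b p.1 p.2).prod = 1 := by
  letI inst : CommGroup ↥S :=
    { (inferInstance : Group ↥S) with
      mul_comm := fun x y => Subtype.ext (hS x.1 x.2 y.1 y.2) }
  let β : W ι → W ι → Additive ↥S := fun u w => Additive.ofMul ⟨b u w, hb u w⟩
  have hβ : BiAdd β := by
    constructor
    · intro u u' w h h'
      apply Additive.toMul.injective
      apply Subtype.ext
      exact hl u u' w h h'
    · intro u w w' h h'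
      apply Additive.toMul.injective
      apply Subtype.ext
      exact hr u w w' h h'
  have key := pure_lemma' h4 hβ o L hd ho hs
  have e : ∀ L : List (W ι × W ι), (L.map fun p => b p.1 p.2).prod =
      ((Additive.toMul ((L.map fun p => β p.1 p.2).sum) : ↥S) : Q) := by
    intro L
    induction L with
    | nil => rfl
    | cons p L ih =>
      rw [List.map_cons, List.prod_cons, ih, List.map_cons, List.sum_cons]
      rfl
  rw [e L, key]
  rfl

end Pool.WFS.K
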