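import Pool.Agent.WFS.K.Tau

/-! # Rows, stable Vaserstein, centrality, stable Tits (helper91, WFS, module K) -/

set_option autoImplicit false
set_option linter.all false

noncomputable section

namespace Pool.WFS.K

open Polynomial
open scoped Classical

variable {ι : Type}

theorem single_eq_smul (l : ι) (r : R) : (Finsupp.single l r : V ι) = r • Finsupp.single l 1 := by
  rw [Finsupp.smul_single, smul_eq_mul, mul_one]

theorem dual_ext {φ ψ : D ι} (h : ∀ i, φ (Finsupp.single i 1) = ψ (Finsupp.single i 1)) :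
    φ = ψ := by
  apply Finsupp.lhom_ext
  intro i r
  rw [single_eq_smul, map_smul, map_smul, h i]

/-- a row: `1 + e_l φ` -/
theorem row_mem_E {a : ℕ} {l : ι} (s : Finset ι) : ∀ {φ : D ι},
    (∀ i, φ (Finsupp.single i 1) ≠ 0 → i ∈ s) → φ (Finsupp.single l 1) = 0 →
    (∀ i, X ^ a ∣ φ (Finsupp.single i 1)) → tau φ (Finsupp.single l 1) ∈ E ι a := by
  induction s using Finset.induction_on with
  | empty =>
    intro φ h _ _
    have : φ = 0 := by
      apply dual_ext
      intro i
      by_contra hne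
      exact absurd (h i (by simpa using hne)) (by simp)
    rw [this, tau_zero_left]
    exact (E ι a).one_mem
  | insert k s hk ih =>
    intro φ h hl hd
    by_cases hkl : k = l
    · apply ih _ hl hd
      intro i hi
      rcases Finset.mem_insert.1 (h i hi) with h1 | h1
      · exact absurd (by rw [h1, hkl]; exact hl) hi
      · exact h1
    · set c := φ (Finsupp.single k 1) with hc
      set ψ : D ι := φ - c • co k with hψ
      have e1 : φ = c • co k + ψ := by rw [hψ]; abel
      have hck : co k (Finsupp.single l 1) = 0 := co_single (Ne.symm hkl) 1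
      have hψl : ψ (Finsupp.single l 1) = 0 := by
        rw [hψ, LinearMap.sub_apply, LinearMap.smul_apply, hck, smul_zero, hl, sub_zero]
      rw [e1, tau_add_left (by rw [LinearMap.smul_apply, hck, smul_zero]) hψl, tau_smul_left hck]
      refine (E ι a).mul_mem ?_ (ih ?_ hψl ?_)
      · rw [Finsupp.smul_single, smul_eq_mul, mul_one]
        exact xe_mem_E' (Ne.symm hkl) (hd k)
      · intro i hi
        have hik : i ≠ k := by
          rintro rfl
          apply hi
          rw [hψ, LinearMap.sub_apply, LinearMap.smul_apply, co_apply, Finsupp.single_eq_same,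
            smul_eq_mul, mul_one, ← hc, sub_self]
        have : φ (Finsupp.single i 1) ≠ 0 := by
          intro h0
          apply hi
          rw [hψ, LinearMap.sub_apply, LinearMap.smul_apply, co_single hik, smul_zero, h0, sub_zero]
        exact Finset.mem_of_mem_insert_of_ne (h i this) hik
      · intro i
        by_cases hik : i = k
        · subst hik
          rw [hψ, LinearMap.sub_apply, LinearMap.smul_apply, co_apply, Finsupp.single_eq_same,
            smul_eq_mul, mul_one, ← hc, sub_self]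
          exact dvd_zero _
        · rw [hψ, LinearMap.sub_apply, LinearMap.smul_apply, co_single hik, smul_zero, sub_zero]
          exact hd i

theorem row_mem_E' {a : ℕ} {l : ι} {φ : D ι} (hφ : IsRow φ) (hl : φ (Finsupp.single l 1) = 0)
    (hd : ∀ i, X ^ a ∣ φ (Finsupp.single i 1)) : tau φ (Finsupp.single l 1) ∈ E ι a :=
  row_mem_E hφ.toFinset (fun i hi => by simpa using hi) hl hd

theorem exists_smul {a : ℕ} {u : V ι} (h : ∀ i, X ^ a ∣ u i) : ∃ w : V ι, u = (X : R) ^ a • w := by
  choose f hf using h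
  refine ⟨Finsupp.onFinset u.support f ?_, ?_⟩
  · intro i hi
    rw [Finsupp.mem_support_iff, hf i]
    exact mul_ne_zero (pow_ne_zero _ X_ne_zero) hi
  · ext1 i
    rw [hf i, Finsupp.smul_apply, Finsupp.onFinset_apply, smul_eq_mul]

theorem co_eq_zero {l : ι} {u : V ι} (h : l ∉ (u.support : Set ι)) : u l = 0 :=
  Finsupp.notMem_support_iff.1 (by simpa using h)

/-- `K1`: the transvections with a finite row and a column divisible by `X^a` are in `E a` -/
theorem tau_mem_E [Infinite ι] {a : ℕ} {φ : D ι} (hφ : IsRow φ) {u : V ι} (h : φ u = 0)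
    (hu : ∀ i, X ^ a ∣ u i) : tau φ u ∈ E ι a := by
  obtain ⟨w, rfl⟩ := exists_smul hu
  have hw : φ w = 0 := by
    rw [map_smul, smul_eq_mul] at h
    exact (mul_eq_zero.1 h).resolve_left (pow_ne_zero _ X_ne_zero)
  obtain ⟨l, hl⟩ := exists_fresh (hφ.union w.support.finite_toSet)
  simp only [Set.mem_union, not_or] at hl
  have hφl : φ (Finsupp.single l 1) = 0 := by
    by_contra hne
    exact hl.1 hne
  have hwl : w l = 0 := co_eq_zero hl.2
  have key := comm_tau (φ := co l) (ψ := φ) (u := w) (w := (X : R) ^ a • Finsupp.single l 1)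
    (by rw [co_apply, hwl]) (by rw [map_smul, hφl, smul_zero]) hw
  have e1 : co l ((X : R) ^ a • Finsupp.single l 1) = X ^ a := by
    rw [co_apply, Finsupp.smul_apply, Finsupp.single_eq_same, smul_eq_mul, mul_one]
  rw [e1] at key
  rw [← key]
  have m1 : tau (co l) w ∈ PP ι := by
    rw [← E_zero]
    exact col_mem_E hwl (by simp)
  have m2 : tau φ ((X : R) ^ a • Finsupp.single l 1) ∈ E ι a := by
    rw [← tau_smul_left hφl]
    apply row_mem_E' (hφ.smul _)
    · rw [LinearMap.smul_apply, hφl, smul_zero]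
    · intro i
      rw [LinearMap.smul_apply, smul_eq_mul]
      exact dvd_mul_right _ _
  exact (E ι a).mul_mem (conj_mem_E m1 m2) ((E ι a).inv_mem m2)

theorem tau_mem_PP [Infinite ι] {φ : D ι} (hφ : IsRow φ) {u : V ι} (h : φ u = 0) :
    tau φ u ∈ PP ι := by
  rw [← E_zero]
  exact tau_mem_E hφ h (by simp)

/-- `xe i j r` is a commutator -/
theorem xe_comm {i j l : ι} (hij : i ≠ j) (hil : i ≠ l) (hlj : l ≠ j) (r s : R) :
    xe i j (r * s) = xe i l r * xe l j s * (xe i l r)⁻¹ * (xe l j s)⁻¹ := by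
  unfold xe
  rw [comm_tau (co_single hil r) (co_single hlj s) (co_single hij r), co_apply,
    Finsupp.single_eq_same, Finsupp.smul_single, smul_eq_mul, mul_comm]

theorem comm_mod {b : ℕ} {z A B eA eB : G ι} (hA : A ∈ PP ι) (hB : B ∈ PP ι)
    (h1 : eA ∈ E ι b) (h2 : eB ∈ E ι b) (e1 : z * A * z⁻¹ = eA * A) (e2 : z * B * z⁻¹ = eB * B) :
    z * (A * B * A⁻¹ * B⁻¹) * z⁻¹ * (A * B * A⁻¹ * B⁻¹)⁻¹ ∈ E ι b := by
  have hp : A * B * A⁻¹ * B⁻¹ ∈ PP ι :=
    (PP ι).mul_mem ((PP ι).mul_mem ((PP ι).mul_mem hA hB) ((PP ι).inv_mem hA)) ((PP ι).inv_mem hB)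
  have hc : A * B * A⁻¹ ∈ PP ι := (PP ι).mul_mem ((PP ι).mul_mem hA hB) ((PP ι).inv_mem hA)
  have e3 : z * (A * B * A⁻¹ * B⁻¹) * z⁻¹ =
      (z * A * z⁻¹) * (z * B * z⁻¹) * (z * A * z⁻¹)⁻¹ * (z * B * z⁻¹)⁻¹ := by group
  rw [e3, e1, e2]
  have e4 : eA * A * (eB * B) * (eA * A)⁻¹ * (eB * B)⁻¹ * (A * B * A⁻¹ * B⁻¹)⁻¹ =
      eA * (A * eB * A⁻¹) * ((A * B * A⁻¹) * eA⁻¹ * (A * B * A⁻¹)⁻¹) *
        ((A * B * A⁻¹ * B⁻¹) * eB⁻¹ * (A * B * A⁻¹ * B⁻¹)⁻¹) := by group
  rw [e4]
  exact (E ι b).mul_mem ((E ι b).mul_mem ((E ι b).mul_mem h1 (conj_mem_E hA h2))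
    (conj_mem_E hc ((E ι b).inv_mem h1))) (conj_mem_E hp ((E ι b).inv_mem h2))

/-- `K3`, centrality: `[z, p] ∈ E b` for `z ∈ P ∩ Γ_b`, `p ∈ P` -/
theorem central [Infinite ι] {b : ℕ} {z : G ι} (hz : z ∈ PP ι) (hz' : z ∈ Gam ι b) {p : G ι}
    (hp : p ∈ PP ι) : z * p * z⁻¹ * p⁻¹ ∈ E ι b := by
  induction hp using Subgroup.closure_induction with
  | mem x hx =>
    obtain ⟨i, j, r, hij, rfl⟩ := hx
    obtain ⟨l, hl⟩ := exists_fresh ((fr_finite hz).union ({i, j} : Set ι).toFinite)
    simp only [Set.mem_union, not_or, Set.mem_insert_iff, Set.mem_singleton_iff] at hl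
    obtain ⟨hl1, hli, hlj⟩ := hl
    have hfr : Fr l z := by
      by_contra hne
      exact hl1 hne
    have hA : z * xe i l r * z⁻¹ * (xe i l r)⁻¹ ∈ E ι b := by
      unfold xe
      have hd : dl z (co l) = co l := by
        apply LinearMap.ext
        intro v
        rw [dl_apply, co_apply, co_apply, hfr.inv.2]
      have h0 : co l (z (Finsupp.single i r)) = 0 := by
        rw [co_apply, hfr.2, Finsupp.single_apply, if_neg (Ne.symm hli)]
      have h1 : co l (-(Finsupp.single i r)) = 0 := by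
        rw [map_neg, co_single (Ne.symm hli), neg_zero]
      rw [conj_tau, hd, tau_inv, ← tau_add_right h0 h1]
      apply col_mem_E
      · rw [← co_apply l, map_add, h0, h1, add_zero]
      · intro k
        have := hz' (Finsupp.single i r) k
        rwa [sub_eq_add_neg] at this
    have hB : z * xe l j 1 * z⁻¹ * (xe l j 1)⁻¹ ∈ E ι b := by
      unfold xe
      have h0 : dl z (co j) (Finsupp.single l 1) = 0 := by
        rw [dl_apply, hfr.inv.1, co_single hlj]
      have h1 : (-(co j)) (Finsupp.single l (1 : R)) = 0 := by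
        rw [LinearMap.neg_apply, co_single hlj, neg_zero]
      rw [conj_tau, hfr.1, tau_inv, ← tau_neg_left, ← tau_add_left h0 h1]
      apply row_mem_E' ((IsRow.dl hz (IsRow.co j)).add (IsRow.co j).neg)
      · rw [LinearMap.add_apply, h0, h1, add_zero]
      · intro k
        have := (Gam ι b).inv_mem hz' (Finsupp.single k 1) j
        rw [LinearMap.add_apply, LinearMap.neg_apply, ← sub_eq_add_neg, dl_apply, co_apply,
          co_apply]
        rwa [Finsupp.sub_apply] at this
    have e1 := xe_comm hij (Ne.symm hli) hlj r 1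
    rw [mul_one] at e1
    rw [e1]
    refine comm_mod (xe_mem (Ne.symm hli) r) (xe_mem hlj 1) hA hB ?_ ?_
    · group
    · group
  | one => simp [(E ι b).one_mem]
  | mul x y hx1 hy1 hx hy =>
    have := (E ι b).mul_mem hx (conj_mem_E hx1 hy)
    convert this using 1
    group
  | inv x hx1 hx =>
    have := conj_mem_E ((PP ι).inv_mem hx1) ((E ι b).inv_mem hx)
    convert this using 1
    group

/-! ### stable Tits -/

/-- the subgroup generated by the elementary automorphisms divisible by `X^a` -/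
def Lt (ι : Type) (a : ℕ) : Subgroup (G ι) :=
  Subgroup.closure {g | ∃ i j r, i ≠ j ∧ g = xe i j (X ^ a * r)}

theorem xe_mem_Lt {i j : ι} (hij : i ≠ j) {a : ℕ} {r : R} (h : X ^ a ∣ r) : xe i j r ∈ Lt ι a := by
  obtain ⟨s, rfl⟩ := h
  exact Subgroup.subset_closure ⟨i, j, s, hij, rfl⟩

theorem Lt_le_E (a : ℕ) : Lt ι a ≤ E ι a := by
  rw [Lt, Subgroup.closure_le]
  rintro _ ⟨i, j, r, hij, rfl⟩
  exact xe_mem_E hij a r

end Pool.WFS.K
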