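import Pool.Agent.WFK.SDefs
import Pool.Agent.WFS.K.KK

/-! # Centrality with supports (helper91, WFS, module K) -/

set_option autoImplicit false
set_option linter.all false

noncomputable section

namespace Pool.WFS.K

open Polynomial
open scoped Classical

variable {ι : Type}

theorem comm_modS {J : Set ι} {b : ℕ} {z A B eA eB : G ι} (hA : A ∈ PPs J) (hB : B ∈ PPs J)
    (h1 : eA ∈ Es J b) (h2 : eB ∈ Es J b) (e1 : z * A * z⁻¹ = eA * A) (e2 : z * B * z⁻¹ = eB * B) :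
    z * (A * B * A⁻¹ * B⁻¹) * z⁻¹ * (A * B * A⁻¹ * B⁻¹)⁻¹ ∈ Es J b := by
  have hp : A * B * A⁻¹ * B⁻¹ ∈ PPs J :=
    (PPs J).mul_mem ((PPs J).mul_mem ((PPs J).mul_mem hA hB) ((PPs J).inv_mem hA))
      ((PPs J).inv_mem hB)
  have hc : A * B * A⁻¹ ∈ PPs J := (PPs J).mul_mem ((PPs J).mul_mem hA hB) ((PPs J).inv_mem hA)
  have e3 : z * (A * B * A⁻¹ * B⁻¹) * z⁻¹ =
      (z * A * z⁻¹) * (z * B * z⁻¹) * (z * A * z⁻¹)⁻¹ * (z * B * z⁻¹)⁻¹ := by group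
  rw [e3, e1, e2]
  have e4 : eA * A * (eB * B) * (eA * A)⁻¹ * (eB * B)⁻¹ * (A * B * A⁻¹ * B⁻¹)⁻¹ =
      eA * (A * eB * A⁻¹) * ((A * B * A⁻¹) * eA⁻¹ * (A * B * A⁻¹)⁻¹) *
        ((A * B * A⁻¹ * B⁻¹) * eB⁻¹ * (A * B * A⁻¹ * B⁻¹)⁻¹) := by group
  rw [e4]
  exact (Es J b).mul_mem ((Es J b).mul_mem ((Es J b).mul_mem h1 (conj_mem_Es hA h2))
    (conj_mem_Es hc ((Es J b).inv_mem h1))) (conj_mem_Es hp ((Es J b).inv_mem h2))

/-- centrality with supports: one spare index -/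
theorem central_s {K J : Set ι} (hKJ : K ⊆ J) {l : ι} (hl : l ∈ J) (hlK : l ∉ K) {b : ℕ}
    {z : G ι} (hz : z ∈ PPs K) (hz' : z ∈ Gam ι b) {p : G ι} (hp : p ∈ PPs K) :
    z * p * z⁻¹ * p⁻¹ ∈ Es J b := by
  have hzJ : z ∈ PPs J := PPs_mono hKJ hz
  have hzP : z ∈ PP ι := PPs_le_PP K hz
  induction hp using Subgroup.closure_induction with
  | mem x hx =>
    obtain ⟨i, j, r, hij, hi, hj, rfl⟩ := hx
    have hli : l ≠ i := by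
      intro h
      apply hlK
      rw [h]
      exact hi
    have hlj : l ≠ j := by
      intro h
      apply hlK
      rw [h]
      exact hj
    have hfr : Fr l z := Fr_of_mem_PPs hz hlK
    have hA : z * xe i l r * z⁻¹ * (xe i l r)⁻¹ ∈ Es J b := by
      unfold xe
      have hd : dl z (co l) = co l := by
        apply LinearMap.ext
        intro v
        rw [dl_apply, co_apply, co_apply, hfr.inv.2]
      have h0 : co l (z (Finsupp.single i r)) = 0 := by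
        rw [co_apply, hfr.2, Finsupp.single_apply, if_neg (Ne.symm hli)]
      have h1 : co l (-(Finsupp.single i r)) = 0 := by
        rw [map_neg, co_single (Ne.symm hli), neg_zero]
      rw [conj_tau, hd, tau_inv, ← tau_add_right h0 h1]
      apply Lts_le_Es
      apply col_mem_Lts hl
      · rw [← co_apply l, map_add, h0, h1, add_zero]
      · intro k hk
        have hkf : Fr k z := Fr_of_mem_PPs hz (fun h => hk (hKJ h))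
        have hik : i ≠ k := by
          intro h
          apply hk
          rw [← h]
          exact hKJ hi
        rw [Finsupp.add_apply, hkf.2, Finsupp.neg_apply, add_neg_cancel]
      · intro k
        have := hz' (Finsupp.single i r) k
        rwa [sub_eq_add_neg] at this
    have hB : z * xe l j 1 * z⁻¹ * (xe l j 1)⁻¹ ∈ Es J b := by
      unfold xe
      have h0 : dl z (co j) (Finsupp.single l 1) = 0 := by
        rw [dl_apply, hfr.inv.1, co_single hlj]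
      have h1 : (-(co j)) (Finsupp.single l (1 : R)) = 0 := by
        rw [LinearMap.neg_apply, co_single hlj, neg_zero]
      rw [conj_tau, hfr.1, tau_inv, ← tau_neg_left, ← tau_add_left h0 h1]
      apply Lts_le_Es
      have hR : IsRow (dl z (co j) + -(co j)) := (IsRow.dl hzP (IsRow.co j)).add (IsRow.co j).neg
      apply row_mem_Lts hl hR.toFinset (fun i hi => by simpa using hi)
      · intro k hk
        have hkf : Fr k z := Fr_of_mem_PPs hz (fun h => hk (hKJ h))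
        rw [LinearMap.add_apply, dl_apply, hkf.inv.1, LinearMap.neg_apply, add_neg_cancel]
      · rw [LinearMap.add_apply, h0, h1, add_zero]
      · intro k
        have := (Gam ι b).inv_mem hz' (Finsupp.single k 1) j
        rw [LinearMap.add_apply, LinearMap.neg_apply, ← sub_eq_add_neg, dl_apply, co_apply,
          co_apply]
        rwa [Finsupp.sub_apply] at this
    have e1 := xe_comm hij (Ne.symm hli) hlj r 1
    rw [mul_one] at e1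
    rw [e1]
    refine comm_modS (xe_mem_PPs (Ne.symm hli) (hKJ hi) hl r)
      (xe_mem_PPs hlj hl (hKJ hj) 1) hA hB ?_ ?_
    · group
    · group
  | one => simp [(Es J b).one_mem]
  | mul x y hx1 hy1 hx hy =>
    have := (Es J b).mul_mem hx (conj_mem_Es (PPs_mono hKJ hx1) hy)
    convert this using 1
    group
  | inv x hx1 hx =>
    have := conj_mem_Es ((PPs J).inv_mem (PPs_mono hKJ hx1)) ((Es J b).inv_mem hx)
    convert this using 1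
    group

/-! ### the quotient -/

/-- data: a set of indices, a subgroup `H` normalised by `PPs K`, modulo which the elements of
`Γ_(a+1)` are central -/
structure Nm (ι : Type) where
  K : Set ι
  H : Subgroup (G ι)
  a : ℕ
  conj : ∀ p ∈ PPs K, ∀ g ∈ H, p * g * p⁻¹ ∈ H
  cen : ∀ z ∈ PPs K, z ∈ Gam ι (a + 1) → ∀ p ∈ PPs K, z * p * z⁻¹ * p⁻¹ ∈ H
  le : Es K (a + 1) ≤ H

variable (σ : Nm ι)

instance Nm.norm : (σ.H.subgroupOf (PPs σ.K)).Normal where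
  conj_mem := by
    intro n hn g
    rw [Subgroup.mem_subgroupOf] at hn ⊢
    exact σ.conj g g.2 n hn

/-- the quotient -/
abbrev Nm.Q := ↥(PPs σ.K) ⧸ σ.H.subgroupOf (PPs σ.K)

/-- the projection -/
def Nm.pr : ↥(PPs σ.K) →* σ.Q := QuotientGroup.mk' _

variable {σ}

theorem Nm.pr_eq_one {g : ↥(PPs σ.K)} : σ.pr g = 1 ↔ (g : G ι) ∈ σ.H := by
  unfold Nm.pr
  rw [QuotientGroup.mk'_apply, QuotientGroup.eq_one_iff, Subgroup.mem_subgroupOf]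

theorem Nm.pr_mul {x y : G ι} (hx : x ∈ PPs σ.K) (hy : y ∈ PPs σ.K) (h : x * y ∈ PPs σ.K) :
    σ.pr ⟨x * y, h⟩ = σ.pr ⟨x, hx⟩ * σ.pr ⟨y, hy⟩ := σ.pr.map_mul ⟨x, hx⟩ ⟨y, hy⟩

theorem Nm.pr_inv {x : G ι} (hx : x ∈ PPs σ.K) (h : x⁻¹ ∈ PPs σ.K) :
    σ.pr ⟨x⁻¹, h⟩ = (σ.pr ⟨x, hx⟩)⁻¹ := σ.pr.map_inv ⟨x, hx⟩

theorem Nm.pr_comm {x y : G ι} (hx : x ∈ PPs σ.K) (hy : y ∈ PPs σ.K)
    (h : x * y * x⁻¹ * y⁻¹ ∈ PPs σ.K) : σ.pr ⟨x * y * x⁻¹ * y⁻¹, h⟩ =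
      σ.pr ⟨x, hx⟩ * σ.pr ⟨y, hy⟩ * (σ.pr ⟨x, hx⟩)⁻¹ * (σ.pr ⟨y, hy⟩)⁻¹ := by
  rw [← map_inv, ← map_inv, ← map_mul, ← map_mul, ← map_mul]; rfl

theorem Nm.pr_comm2 {x y : G ι} (hx : x ∈ PPs σ.K) (hy : y ∈ PPs σ.K)
    (h : x⁻¹ * y * x * y⁻¹ ∈ PPs σ.K) : σ.pr ⟨x⁻¹ * y * x * y⁻¹, h⟩ =
      (σ.pr ⟨x, hx⟩)⁻¹ * σ.pr ⟨y, hy⟩ * σ.pr ⟨x, hx⟩ * (σ.pr ⟨y, hy⟩)⁻¹ := by
  rw [← map_inv, ← map_inv, ← map_mul, ← map_mul, ← map_mul]; rfl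

theorem Nm.comm_mem {x y : G ι} (hx : x ∈ PPs σ.K) (hy : y ∈ PPs σ.K) :
    x * y * x⁻¹ * y⁻¹ ∈ PPs σ.K :=
  (PPs σ.K).mul_mem ((PPs σ.K).mul_mem ((PPs σ.K).mul_mem hx hy) ((PPs σ.K).inv_mem hx))
    ((PPs σ.K).inv_mem hy)

/-- `y` and `g` commute modulo `H` -/
def Nm.Cm (σ : Nm ι) (y g : G ι) : Prop :=
  ∃ (hy : y ∈ PPs σ.K) (hg : g ∈ PPs σ.K), Commute (σ.pr ⟨y, hy⟩) (σ.pr ⟨g, hg⟩)

theorem Nm.Cm.symm {y g : G ι} (h : σ.Cm y g) : σ.Cm g y := by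
  obtain ⟨hy, hg, h⟩ := h
  exact ⟨hg, hy, h.symm⟩

theorem Nm.Cm.mul_right {y g g' : G ι} (h : σ.Cm y g) (h' : σ.Cm y g') :
    σ.Cm y (g * g') := by
  obtain ⟨hy, hg, h⟩ := h
  obtain ⟨_, hg', h'⟩ := h'
  refine ⟨hy, (PPs σ.K).mul_mem hg hg', ?_⟩
  rw [Nm.pr_mul hg hg']
  exact h.mul_right h'

theorem Nm.Cm.inv_right {y g : G ι} (h : σ.Cm y g) : σ.Cm y g⁻¹ := by
  obtain ⟨hy, hg, h⟩ := h
  refine ⟨hy, (PPs σ.K).inv_mem hg, ?_⟩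
  rw [Nm.pr_inv hg]
  exact h.inv_right

theorem Nm.Cm.of_H {y g : G ι} (hy : y ∈ PPs σ.K) (hg : g ∈ PPs σ.K) (hgH : g ∈ σ.H) :
    σ.Cm y g := by
  refine ⟨hy, hg, ?_⟩
  have : σ.pr ⟨g, hg⟩ = 1 := Nm.pr_eq_one.2 hgH
  rw [this]
  exact Commute.one_right _

theorem Nm.Cm.iff {y g : G ι} (hy : y ∈ PPs σ.K) (hg : g ∈ PPs σ.K) :
    σ.Cm y g ↔ y * g * y⁻¹ * g⁻¹ ∈ σ.H := by
  have e : y * g * y⁻¹ * g⁻¹ ∈ σ.H ↔
      σ.pr ⟨y, hy⟩ * σ.pr ⟨g, hg⟩ * (σ.pr ⟨y, hy⟩)⁻¹ * (σ.pr ⟨g, hg⟩)⁻¹ = 1 := by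
    rw [← Nm.pr_comm hy hg (Nm.comm_mem hy hg), Nm.pr_eq_one]
  rw [e]
  constructor
  · rintro ⟨_, _, h⟩
    rw [h.eq]; group
  · intro h
    refine ⟨hy, hg, ?_⟩
    show _ * _ = _ * _
    have h2 : σ.pr ⟨y, hy⟩ * σ.pr ⟨g, hg⟩ =
      (σ.pr ⟨y, hy⟩ * σ.pr ⟨g, hg⟩ * (σ.pr ⟨y, hy⟩)⁻¹ * (σ.pr ⟨g, hg⟩)⁻¹) *
        (σ.pr ⟨g, hg⟩ * σ.pr ⟨y, hy⟩) := by group
    rw [h2, h, one_mul]

/-- the subgroup of the elements commuting with `g` modulo `H` -/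
def Nm.Cn (σ : Nm ι) {g : G ι} (hg : g ∈ PPs σ.K) : Subgroup (G ι) where
  carrier := {y | σ.Cm y g}
  mul_mem' := fun {x y} hx hy => (Nm.Cm.mul_right (Nm.Cm.symm hx) (Nm.Cm.symm hy)).symm
  one_mem' := (Nm.Cm.of_H hg (PPs σ.K).one_mem σ.H.one_mem).symm
  inv_mem' := fun {x} hx => (Nm.Cm.inv_right (Nm.Cm.symm hx)).symm

theorem Nm.central_pr {z : G ι} (hz : z ∈ PPs σ.K) (hz' : z ∈ Gam ι (σ.a + 1)) (q : σ.Q) :
    Commute (σ.pr ⟨z, hz⟩) q := by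
  obtain ⟨p, rfl⟩ := QuotientGroup.mk'_surjective _ q
  have := (Nm.Cm.iff (σ := σ) hz p.2).2 (σ.cen z hz hz' p.1 p.2)
  obtain ⟨_, _, h⟩ := this
  exact h

theorem Nm.comm_central {y g : G ι} (hy : y ∈ PPs σ.K) (hg : g ∈ PPs σ.K) (hy1 : y ∈ Gam ι 1)
    (hga : g ∈ Gam ι σ.a) (q : σ.Q) :
    Commute (σ.pr ⟨y, hy⟩ * σ.pr ⟨g, hg⟩ * (σ.pr ⟨y, hy⟩)⁻¹ * (σ.pr ⟨g, hg⟩)⁻¹) q := by
  have h1 := comm_mem_Gam hy1 hga
  rw [add_comm] at h1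
  have := Nm.central_pr (σ := σ) (z := y * g * y⁻¹ * g⁻¹) (Nm.comm_mem hy hg) h1 q
  rwa [Nm.pr_comm hy hg] at this

end Pool.WFS.K
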