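import Pool.Agent.WFS.K.Sa
import Pool.Agent.WFS.K.GL2

/-! # Independence of the indices; `[E 1, E a] ≤ H` with supports (helper91, WFS, module K) -/

set_option autoImplicit false
set_option linter.all false

noncomputable section

namespace Pool.WFS.K

open Polynomial
open scoped Classical

variable {ι : Type} {σ : Nm ι}

/-! ### additivity, without any condition on the type -/

theorem xeS_add {i j : ι} (hij : i ≠ j) (r s : R) : xe i j (r + s) = xe i j r * xe i j s := by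
  unfold xe
  rw [Finsupp.single_add, tau_add_right (co_single hij r) (co_single hij s)]

theorem xeS_neg {i j : ι} (r : R) : xe i j (-r) = (xe i j r)⁻¹ := by
  unfold xe
  rw [Finsupp.single_neg, tau_inv]

theorem xeS_zero {i j : ι} : xe i j 0 = 1 := by
  unfold xe
  rw [Finsupp.single_zero, tau_zero_right]

theorem xeS_C_mem {K : Subgroup (G ι)} {i j : ι} (hij : i ≠ j) {s : R} (h : xe i j s ∈ K) (c : ℤ) :
    xe i j (C c * s) ∈ K := by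
  induction c using Int.induction_on with
  | zero => simp [xeS_zero, K.one_mem]
  | succ n ih =>
    have e : (C ((n : ℤ) + 1) : R) * s = C (n : ℤ) * s + s := by
      rw [C_add, C_1, add_mul, one_mul]
    rw [e, xeS_add hij]
    exact K.mul_mem ih h
  | pred n ih =>
    have e : (C (-(n : ℤ) - 1) : R) * s = C (-(n : ℤ)) * s + -s := by
      rw [C_sub, C_1, sub_mul, one_mul, sub_eq_add_neg]
    rw [e, xeS_add hij, xeS_neg]
    exact K.mul_mem ih (K.inv_mem h)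

/-! ### the commutators `Cab` -/

theorem CabS_mem_Gam {a : ℕ} {i j : ι} (hij : i ≠ j) : Cab i j 1 a ∈ Gam ι (a + 1) := by
  have := comm_mem_Gam (b := 1) (a := a) (xe_mem_Gam hij (a := 1) (r := X ^ 1) dvd_rfl)
    (xe_mem_Gam hij.symm (a := a) (r := X ^ a) dvd_rfl)
  rw [add_comm] at this
  exact this

/-- `[x_kp(-1), x_lk(r)] = x_lp(r)` -/
theorem xe_comm' {l k p : ι} (hlk : l ≠ k) (hlp : l ≠ p) (hkp : k ≠ p) (r : R) :
    (xe k p 1)⁻¹ * xe l k r * xe k p 1 * (xe l k r)⁻¹ = xe l p r := by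
  have e1 := xe_comm hlp hlk hkp r (-1)
  have e2 : xe l p r = (xe l p (r * -1))⁻¹ := by
    rw [← xeS_neg]; congr 1; ring
  rw [e2, e1, xeS_neg]
  group

/-- `[x_lk(-1), x_pl(r)] = x_pk(r)` -/
theorem xe_comm'' {l k p : ι} (hlk : l ≠ k) (hlp : l ≠ p) (hkp : k ≠ p) (r : R) :
    (xe l k 1)⁻¹ * xe p l r * xe l k 1 * (xe p l r)⁻¹ = xe p k r := by
  have e1 := xe_comm hkp.symm hlp.symm hlk r (-1)
  have e2 : xe p k r = (xe p k (r * -1))⁻¹ := by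
    rw [← xeS_neg]; congr 1; ring
  rw [e2, e1, xeS_neg]
  group

theorem Nm.memK {i j : ι} (hij : i ≠ j) (hi : i ∈ σ.K) (hj : j ∈ σ.K) (r : R) :
    xe i j r ∈ PPs σ.K := xe_mem_PPs hij hi hj r

theorem Nm.pr_eq_of {x y : G ι} (h : x = y) (hx : x ∈ PPs σ.K) (hy : y ∈ PPs σ.K) :
    σ.pr ⟨x, hx⟩ = σ.pr ⟨y, hy⟩ := by
  subst h; rfl

theorem Nm.indep1 {l k p : ι} (hlk : l ≠ k) (hlp : l ≠ p) (hkp : k ≠ p) (hl : l ∈ σ.K)
    (hk : k ∈ σ.K) (hp : p ∈ σ.K) :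
    σ.pr ⟨Cab l k 1 σ.a, Cab_mem_PPs hlk hl hk 1 σ.a⟩ =
      σ.pr ⟨Cab l p 1 σ.a, Cab_mem_PPs hlp hl hp 1 σ.a⟩ := by
  have mY := Nm.memK (σ := σ) hlk hl hk (X ^ 1)
  have mA := Nm.memK (σ := σ) hkp hk hp 1
  have mn := Nm.memK (σ := σ) hlp.symm hp hl (X ^ σ.a)
  have mw := Nm.memK (σ := σ) hlp hl hp (X ^ 1)
  have mkl := Nm.memK (σ := σ) hlk.symm hk hl (X ^ σ.a)
  set Y := σ.pr ⟨_, mY⟩ with hY
  set A := σ.pr ⟨_, mA⟩ with hA
  set n := σ.pr ⟨_, mn⟩ with hn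
  have ew : A⁻¹ * Y * A * Y⁻¹ = σ.pr ⟨_, mw⟩ := by
    have e := xe_comm' hlk hlp hkp (X ^ 1)
    have m : (xe k p 1)⁻¹ * xe l k (X ^ 1) * xe k p 1 * (xe l k (X ^ 1))⁻¹ ∈ PPs σ.K := by
      rw [e]; exact mw
    rw [hA, hY, ← Nm.pr_comm2 mA mY m]
    exact Nm.pr_eq_of e _ _
  have ekl : A * n * A⁻¹ * n⁻¹ = σ.pr ⟨_, mkl⟩ := by
    have e := xe_comm hlk.symm hkp hlp.symm 1 (X ^ σ.a)
    rw [one_mul] at e
    rw [hA, hn, ← Nm.pr_comm mA mn (Nm.comm_mem mA mn)]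
    exact Nm.pr_eq_of e.symm _ _
  have hYn : Commute Y n := by
    have h : σ.Cm (xe p l (X ^ σ.a)) (xe l k (X ^ 1)) := by
      rw [Nm.Cm.iff mn mY, ← xe_comm hkp.symm hlp.symm hlk]
      apply σ.le
      apply xe_mem_Es hkp.symm hp hk
      rw [← pow_add]
    obtain ⟨_, _, h⟩ := h
    exact h.symm
  have hcen := Nm.comm_central (σ := σ) mw mn (xe_mem_Gam hlp (by rw [])) (xe_mem_Gam hlp.symm dvd_rfl)
  have key := gd1 hYn (by rw [ew]; exact hcen)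
  rw [ekl, ew] at key
  have e1 : σ.pr ⟨Cab l k 1 σ.a, Cab_mem_PPs hlk hl hk 1 σ.a⟩ =
      Y * σ.pr ⟨_, mkl⟩ * Y⁻¹ * (σ.pr ⟨_, mkl⟩)⁻¹ := Nm.pr_comm mY mkl _
  have e2 : σ.pr ⟨Cab l p 1 σ.a, Cab_mem_PPs hlp hl hp 1 σ.a⟩ =
      σ.pr ⟨_, mw⟩ * n * (σ.pr ⟨_, mw⟩)⁻¹ * n⁻¹ := Nm.pr_comm mw mn _
  rw [e1, e2]
  exact key

theorem Nm.indep2 {l k p : ι} (hlk : l ≠ k) (hlp : l ≠ p) (hkp : k ≠ p) (hl : l ∈ σ.K)
    (hk : k ∈ σ.K) (hp : p ∈ σ.K) :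
    σ.pr ⟨Cab l p 1 σ.a, Cab_mem_PPs hlp hl hp 1 σ.a⟩ =
      σ.pr ⟨Cab k p 1 σ.a, Cab_mem_PPs hkp hk hp 1 σ.a⟩ := by
  have mA := Nm.memK (σ := σ) hlk hl hk 1
  have my := Nm.memK (σ := σ) hkp hk hp (X ^ 1)
  have mn := Nm.memK (σ := σ) hlp.symm hp hl (X ^ σ.a)
  have mw := Nm.memK (σ := σ) hkp.symm hp hk (X ^ σ.a)
  have mD := Nm.memK (σ := σ) hlp hl hp (X ^ 1)
  set A := σ.pr ⟨_, mA⟩ with hA
  set y := σ.pr ⟨_, my⟩ with hy
  set n := σ.pr ⟨_, mn⟩ with hn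
  have ew : A⁻¹ * n * A * n⁻¹ = σ.pr ⟨_, mw⟩ := by
    have e := xe_comm'' hlk hlp hkp (X ^ σ.a)
    have m : (xe l k 1)⁻¹ * xe p l (X ^ σ.a) * xe l k 1 * (xe p l (X ^ σ.a))⁻¹ ∈ PPs σ.K := by
      rw [e]; exact mw
    rw [hA, hn, ← Nm.pr_comm2 mA mn m]
    exact Nm.pr_eq_of e _ _
  have eD : A * y * A⁻¹ * y⁻¹ = σ.pr ⟨_, mD⟩ := by
    have e := xe_comm hlp hlk hkp 1 (X ^ 1)
    rw [one_mul] at e
    rw [hA, hy, ← Nm.pr_comm mA my (Nm.comm_mem mA my)]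
    exact Nm.pr_eq_of e.symm _ _
  have hyn : Commute y n := by
    have h : σ.Cm (xe k p (X ^ 1)) (xe p l (X ^ σ.a)) := by
      rw [Nm.Cm.iff my mn, ← xe_comm hlk.symm hkp hlp.symm]
      apply σ.le
      apply xe_mem_Es hlk.symm hk hl
      rw [← pow_add, add_comm]
    obtain ⟨_, _, h⟩ := h
    exact h
  have hcen := Nm.comm_central (σ := σ) my mw (xe_mem_Gam hkp (by rw []))
    (xe_mem_Gam hkp.symm dvd_rfl)
  have key := gd2 hyn (by rw [ew]; exact hcen)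
  rw [eD, ew] at key
  have e1 : σ.pr ⟨Cab l p 1 σ.a, Cab_mem_PPs hlp hl hp 1 σ.a⟩ =
      σ.pr ⟨_, mD⟩ * n * (σ.pr ⟨_, mD⟩)⁻¹ * n⁻¹ := Nm.pr_comm mD mn _
  have e2 : σ.pr ⟨Cab k p 1 σ.a, Cab_mem_PPs hkp hk hp 1 σ.a⟩ =
      y * σ.pr ⟨_, mw⟩ * y⁻¹ * (σ.pr ⟨_, mw⟩)⁻¹ := Nm.pr_comm my mw _
  rw [e1, e2]
  exact key

/-- the class of `C^(ij)` does not depend on `i, j` -/
theorem Nm.indep {i j k l : ι} (hij : i ≠ j) (hkl : k ≠ l) (hi : i ∈ σ.K) (hj : j ∈ σ.K)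
    (hk : k ∈ σ.K) (hl : l ∈ σ.K) (h3 : ∀ x y : ι, ∃ z ∈ σ.K, z ≠ x ∧ z ≠ y) :
    σ.pr ⟨Cab i j 1 σ.a, Cab_mem_PPs hij hi hj 1 σ.a⟩ =
      σ.pr ⟨Cab k l 1 σ.a, Cab_mem_PPs hkl hk hl 1 σ.a⟩ := by
  have A1 : ∀ (i j l : ι) (hij : i ≠ j) (hil : i ≠ l) (hi : i ∈ σ.K) (hj : j ∈ σ.K) (hl : l ∈ σ.K),
      σ.pr ⟨Cab i j 1 σ.a, Cab_mem_PPs hij hi hj 1 σ.a⟩ =
        σ.pr ⟨Cab i l 1 σ.a, Cab_mem_PPs hil hi hl 1 σ.a⟩ := by
    intro i j l hij hil hi hj hl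
    by_cases hjl : j = l
    · subst hjl; rfl
    · exact Nm.indep1 hij hil hjl hi hj hl
  have A2 : ∀ (i k l : ι) (hil : i ≠ l) (hkl : k ≠ l) (hi : i ∈ σ.K) (hk : k ∈ σ.K) (hl : l ∈ σ.K),
      σ.pr ⟨Cab i l 1 σ.a, Cab_mem_PPs hil hi hl 1 σ.a⟩ =
        σ.pr ⟨Cab k l 1 σ.a, Cab_mem_PPs hkl hk hl 1 σ.a⟩ := by
    intro i k l hil hkl hi hk hl
    by_cases hik : i = k
    · subst hik; rfl
    · exact Nm.indep2 hik hil hkl hi hk hl
  by_cases hil : i = l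
  · subst hil
    obtain ⟨m, hm, hmi, hmk⟩ := h3 i k
    rw [A1 i j m hij (Ne.symm hmi) hi hj hm, A2 i k m (Ne.symm hmi) (Ne.symm hmk) hi hk hm,
      A1 k m i (Ne.symm hmk) hkl hk hm hl]
  · rw [A1 i j l hij hil hi hj hl, A2 i k l hil hkl hi hk hl]

/-! ### `[E 1, E a] ≤ H` -/

/-- `H` contains all the `C^(ij)` -/
def Nm.HC (σ : Nm ι) : Prop := ∀ i j, i ≠ j → i ∈ σ.K → j ∈ σ.K → Cab i j 1 σ.a ∈ σ.H

theorem Nm.S2 (hC : σ.HC) {l p : ι} (hlp : l ≠ p) (hl : l ∈ σ.K) (hp : p ∈ σ.K) (b : R) :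
    σ.Cm (xe l p X) (xe p l (X ^ σ.a * b)) := by
  have mX := Nm.memK (σ := σ) hlp hl hp X
  have base : σ.Cm (xe l p X) (xe p l (X ^ σ.a)) := by
    refine (Nm.Cm.iff mX (Nm.memK hlp.symm hp hl _)).2 ?_
    have := hC l p hlp hl hp
    unfold Cab at this
    rwa [pow_one] at this
  apply Nm.Cm.symm
  show xe p l (X ^ σ.a * b) ∈ σ.Cn mX
  induction b using Polynomial.induction_on' with
  | add p' q hp hq =>
    rw [mul_add, xeS_add hlp.symm]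
    exact Subgroup.mul_mem _ hp hq
  | monomial n c =>
    rcases Nat.eq_zero_or_pos n with rfl | hn
    · rw [monomial_zero_left, mul_comm]
      exact xeS_C_mem hlp.symm base.symm c
    · apply Nm.Cm.symm
      have hm : xe p l (X ^ σ.a * monomial n c) ∈ Es σ.K (σ.a + 1) := by
        apply xe_mem_Es hlp.symm hp hl
        obtain ⟨k, rfl⟩ : ∃ k, n = k + 1 := ⟨n - 1, by omega⟩
        refine ⟨C c * X ^ k, ?_⟩
        rw [← C_mul_X_pow_eq_monomial]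
        ring
      exact Nm.Cm.of_H mX (Es_le_PPs _ _ hm) (σ.le hm)

theorem Nm.S3 (hC : σ.HC) (h3 : ∀ x y : ι, ∃ z ∈ σ.K, z ≠ x ∧ z ≠ y) {l p : ι} (hlp : l ≠ p)
    (hl : l ∈ σ.K) (hp : p ∈ σ.K) (b c : R) :
    σ.Cm (xe l p (X * c)) (xe p l (X ^ σ.a * b)) := by
  have mg := Nm.memK (σ := σ) hlp.symm hp hl (X ^ σ.a * b)
  show xe l p (X * c) ∈ σ.Cn mg
  induction c using Polynomial.induction_on' with
  | add p' q hp hq =>
    rw [mul_add, xeS_add hlp]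
    exact Subgroup.mul_mem _ hp hq
  | monomial n c =>
    rcases Nat.eq_zero_or_pos n with rfl | hn
    · rw [monomial_zero_left, mul_comm (X : R) (C c)]
      exact xeS_C_mem (K := σ.Cn mg) hlp (Nm.S2 hC hlp hl hp b) c
    · obtain ⟨m, hm, hml, hmp⟩ := h3 l p
      have hd : (X : R) ^ 1 ∣ monomial n c := by
        obtain ⟨k, rfl⟩ : ∃ k, n = k + 1 := ⟨n - 1, by omega⟩
        refine ⟨C c * X ^ k, ?_⟩
        rw [← C_mul_X_pow_eq_monomial]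
        ring
      have m1 := Nm.memK (σ := σ) (Ne.symm hml) hl hm X
      have m2 := Nm.memK (σ := σ) hmp hm hp (monomial n c)
      have key := gcc (Nm.comm_central (σ := σ) m1 mg (xe_mem_Gam (Ne.symm hml) (by simp))
          (xe_mem_Gam hlp.symm (dvd_mul_right _ _)))
        (Nm.comm_central (σ := σ) m2 mg (xe_mem_Gam hmp hd)
          (xe_mem_Gam hlp.symm (dvd_mul_right _ _)))
      have e := xe_comm hlp (Ne.symm hml) hmp X (monomial n c)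
      rw [e]
      refine ⟨Nm.comm_mem m1 m2, mg, ?_⟩
      rw [Nm.pr_comm m1 m2]
      exact key

theorem Nm.S4 (hC : σ.HC) (h3 : ∀ x y : ι, ∃ z ∈ σ.K, z ≠ x ∧ z ≠ y) {l p : ι} (hlp : l ≠ p)
    (hl : l ∈ σ.K) (hp : p ∈ σ.K) (b : R) {i : ι} (hip : i ≠ p) (hi : i ∈ σ.K) {r : R}
    (hr : X ^ 1 ∣ r) : σ.Cm (xe i p r) (xe p l (X ^ σ.a * b)) := by
  obtain ⟨c, rfl⟩ := hr
  rw [pow_one]
  by_cases hil : i = l
  · subst hil
    exact Nm.S3 hC h3 hlp hl hp b c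
  · rw [Nm.Cm.iff (Nm.memK hip hi hp _) (Nm.memK hlp.symm hp hl _), ← xe_comm hil hip hlp.symm]
    apply σ.le
    apply xe_mem_Es hil hi hl
    exact ⟨c * b, by ring⟩

/-- columns in a general subgroup, with supports -/
theorem col_mem_s {K : Subgroup (G ι)} {J : Set ι} {a : ℕ} {l : ι}
    (hK : ∀ i r, i ≠ l → i ∈ J → X ^ a ∣ r → xe i l r ∈ K)
    {u : V ι} (hl : u l = 0) (hJ : ∀ i, i ∉ J → u i = 0) (hu : ∀ i, X ^ a ∣ u i) :
    tau (co l) u ∈ K := by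
  induction u using Finsupp.induction with
  | zero => rw [tau_zero_right]; exact K.one_mem
  | single_add k r f hk hr ih =>
    have hfk : f k = 0 := Finsupp.notMem_support_iff.1 hk
    by_cases hkl : k = l
    · subst hkl
      rw [Finsupp.add_apply, Finsupp.single_eq_same, hfk, add_zero] at hl
      exact absurd hl hr
    · have hfl : f l = 0 := by
        rw [Finsupp.add_apply, Finsupp.single_apply, if_neg hkl, zero_add] at hl
        exact hl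
      have hkJ : k ∈ J := by
        by_contra hne
        have := hJ k hne
        rw [Finsupp.add_apply, Finsupp.single_eq_same, hfk, add_zero] at this
        exact hr this
      rw [tau_add_right (co_single hkl r) hfl]
      have hkr : X ^ a ∣ r := by
        have := hu k
        rwa [Finsupp.add_apply, Finsupp.single_eq_same, hfk, add_zero] at this
      have hother : ∀ i, i ≠ k → (Finsupp.single k r + f) i = f i := by
        intro i hik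
        rw [Finsupp.add_apply, Finsupp.single_apply, if_neg (Ne.symm hik), zero_add]
      refine K.mul_mem (hK k r hkl hkJ hkr) (ih hfl ?_ ?_)
      · intro i hi
        by_cases hik : i = k
        · rw [hik]; exact hfk
        · rw [← hother i hik]; exact hJ i hi
      · intro i
        by_cases hik : i = k
        · rw [hik, hfk]; exact dvd_zero _
        · rw [← hother i hik]; exact hu i

theorem Nm.S5 (hC : σ.HC) (h3 : ∀ x y : ι, ∃ z ∈ σ.K, z ≠ x ∧ z ≠ y) {J : Set ι} (hJ : J ⊆ σ.K)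
    {p : ι} (hp : p ∈ σ.K) (hpJ : p ∉ J) {y : G ι} (hy : y ∈ Es J 1) {k l : ι} (hkl : k ≠ l)
    (hk : k ∈ J) (hl : l ∈ J) (b : R) : σ.Cm y (xe k l (X ^ σ.a * b)) := by
  have hyJ : y ∈ PPs J := Es_le_PPs _ _ hy
  have hyP : y ∈ PPs σ.K := PPs_mono hJ hyJ
  have hpk : p ≠ k := by
    intro h
    apply hpJ
    rw [h]
    exact hk
  have hpl : p ≠ l := by
    intro h
    apply hpJ
    rw [h]
    exact hl
  have hfr : Fr p y := Fr_of_mem_PPs hyJ hpJ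
  have hd : dl y (co p) = co p := by
    apply LinearMap.ext
    intro v
    rw [dl_apply, co_apply, co_apply, hfr.inv.2]
  have h0 : co p (y (Finsupp.single k 1)) = 0 := by
    rw [co_apply, hfr.2, Finsupp.single_apply, if_neg (Ne.symm hpk)]
  have h1 : co p (-(Finsupp.single k (1 : R))) = 0 := by
    rw [map_neg, co_single (Ne.symm hpk), neg_zero]
  -- the commutator `[A⁻¹, y]`
  have e1 : (xe k p 1)⁻¹ * y * xe k p 1 * y⁻¹ =
      tau (co p) (-(Finsupp.single k 1) + y (Finsupp.single k 1)) := by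
    rw [tau_add_right h1 h0]
    have : y * xe k p 1 * y⁻¹ = tau (co p) (y (Finsupp.single k 1)) := by
      unfold xe
      rw [conj_tau, hd]
    rw [← this, ← tau_inv]
    show (xe k p 1)⁻¹ * y * xe k p 1 * y⁻¹ = (xe k p 1)⁻¹ * (y * xe k p 1 * y⁻¹)
    group
  have mg := Nm.memK (σ := σ) hpl hp (hJ hl) (X ^ σ.a * b)
  have mA := Nm.memK (σ := σ) (Ne.symm hpk) (hJ hk) hp 1
  have m1 : σ.Cm ((xe k p 1)⁻¹ * y * xe k p 1 * y⁻¹) (xe p l (X ^ σ.a * b)) := by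
    rw [e1]
    show _ ∈ σ.Cn mg
    apply col_mem_s (a := 1) (J := σ.K)
    · intro i r hip hi hr
      exact Nm.S4 hC h3 (Ne.symm hpl) (hJ hl) hp b hip hi hr
    · rw [← co_apply p, map_add, h0, h1, add_zero]
    · intro i hi
      have hif : Fr i y := Fr_of_mem_PPs hyJ (fun h => hi (hJ h))
      rw [Finsupp.add_apply, hif.2, Finsupp.neg_apply, neg_add_cancel]
    · intro i
      have := Es_le_Gam J 1 hy (Finsupp.single k 1) i
      rwa [sub_eq_add_neg, add_comm] at this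
  obtain ⟨hm0, _, m1⟩ := m1
  rw [Nm.pr_comm2 mA hyP] at m1
  have key := gc2 (Y := σ.pr ⟨y, hyP⟩) (A := σ.pr ⟨xe k p 1, mA⟩)
    (n := σ.pr ⟨xe p l (X ^ σ.a * b), mg⟩) m1
    (Nm.comm_central (σ := σ) hyP mg (Es_le_Gam J 1 hy) (xe_mem_Gam hpl (dvd_mul_right _ _)))
  have e := xe_comm hkl (Ne.symm hpk) hpl 1 (X ^ σ.a * b)
  rw [one_mul] at e
  rw [e]
  refine ⟨hyP, Nm.comm_mem mA mg, ?_⟩
  rw [Nm.pr_comm mA mg]
  exact key

/-- `[E 1, E a] ≤ H` -/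
theorem Nm.Cm_E (hC : σ.HC) (h3 : ∀ x y : ι, ∃ z ∈ σ.K, z ≠ x ∧ z ≠ y) {J : Set ι}
    (hJ : J ⊆ σ.K) {p : ι} (hp : p ∈ σ.K) (hpJ : p ∉ J) {y g : G ι} (hy : y ∈ Es J 1)
    (hg : g ∈ Es J σ.a) : σ.Cm y g := by
  have hyP : y ∈ PPs σ.K := PPs_mono hJ (Es_le_PPs _ _ hy)
  apply Nm.Cm.symm
  show g ∈ σ.Cn hyP
  revert g
  show Es J σ.a ≤ σ.Cn hyP
  rw [Es, Subgroup.closure_le]
  rintro _ ⟨q, hq, i, j, r, hij, hi, hj, rfl⟩
  have h1 : q⁻¹ * y * q ∈ Es J 1 := by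
    have := conj_mem_Es ((PPs J).inv_mem hq) hy
    rwa [inv_inv] at this
  have h2 := Nm.S5 (σ := σ) hC h3 hJ hp hpJ h1 hij hi hj r
  apply Nm.Cm.symm
  have hqK : q ∈ PPs σ.K := PPs_mono hJ hq
  have mx := Nm.memK (σ := σ) hij (hJ hi) (hJ hj) (X ^ σ.a * r)
  have hqx : q * xe i j (X ^ σ.a * r) * q⁻¹ ∈ PPs σ.K :=
    (PPs σ.K).mul_mem ((PPs σ.K).mul_mem hqK mx) ((PPs σ.K).inv_mem hqK)
  rw [Nm.Cm.iff (PPs_mono hJ (Es_le_PPs _ _ h1)) mx] at h2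
  rw [Nm.Cm.iff hyP hqx]
  have := σ.conj q hqK _ h2
  convert this using 1
  group

end Pool.WFS.K
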