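import Pool.Agent.WFS.K.Sb
import Pool.Agent.WFS.K.PL2

/-! # Integer vectors with supports (helper91, WFS, module K) -/

set_option autoImplicit false
set_option linter.all false

noncomputable section

namespace Pool.WFS.K

open Polynomial
open scoped Classical

variable {ι : Type}

/-- `u` is supported in `J` -/
def Sv (J : Set ι) (u : W ι) : Prop := ∀ i, i ∉ J → u i = 0

theorem Sv.mono {J J' : Set ι} (h : J ⊆ J') {u : W ι} (hu : Sv J u) : Sv J' u :=
  fun i hi => hu i (fun h' => hi (h h'))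

/-- the transvections with supports -/
theorem tau_mem_s {J J' : Set ι} (hJ : J ⊆ J') {l : ι} (hl : l ∈ J') (hlJ : l ∉ J) {a : ℕ}
    {φ : D ι} (hφ : IsRow φ) (hφJ : ∀ i, i ∉ J → φ (Finsupp.single i 1) = 0) {u : V ι}
    (huJ : ∀ i, i ∉ J → u i = 0) (h : φ u = 0) (hu : ∀ i, X ^ a ∣ u i) : tau φ u ∈ Es J' a := by
  obtain ⟨w, rfl⟩ := exists_smul hu
  have hw : φ w = 0 := by
    rw [map_smul, smul_eq_mul] at h
    exact (mul_eq_zero.1 h).resolve_left (pow_ne_zero _ X_ne_zero)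
  have hwJ : ∀ i, i ∉ J → w i = 0 := by
    intro i hi
    have := huJ i hi
    rw [Finsupp.smul_apply, smul_eq_mul] at this
    exact (mul_eq_zero.1 this).resolve_left (pow_ne_zero _ X_ne_zero)
  have hφl : φ (Finsupp.single l 1) = 0 := hφJ l hlJ
  have hwl : w l = 0 := hwJ l hlJ
  have key := comm_tau (φ := co l) (ψ := φ) (u := w) (w := (X : R) ^ a • Finsupp.single l 1)
    (by rw [co_apply, hwl]) (by rw [map_smul, hφl, smul_zero]) hw
  have e1 : co l ((X : R) ^ a • Finsupp.single l 1) = X ^ a := by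
    rw [co_apply, Finsupp.smul_apply, Finsupp.single_eq_same, smul_eq_mul, mul_one]
  rw [e1] at key
  rw [← key]
  have m1 : tau (co l) w ∈ PPs J' := by
    rw [← Es_zero]
    apply Lts_le_Es
    apply col_mem_Lts hl hwl
    · intro i hi
      exact hwJ i (fun h => hi (hJ h))
    · simp
  have m2 : tau φ ((X : R) ^ a • Finsupp.single l 1) ∈ Es J' a := by
    rw [← tau_smul_left hφl]
    apply Lts_le_Es
    apply row_mem_Lts hl (hφ.smul ((X : R) ^ a)).toFinset
      (fun i hi => (Set.Finite.mem_toFinset _).2 hi)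
    · intro i hi
      rw [LinearMap.smul_apply, hφJ i (fun h => hi (hJ h)), smul_zero]
    · rw [LinearMap.smul_apply, hφl, smul_zero]
    · intro i
      rw [LinearMap.smul_apply, smul_eq_mul]
      exact dvd_mul_right _ _
  exact (Es J' a).mul_mem (conj_mem_Es m1 m2) ((Es J' a).inv_mem m2)

theorem B_mem_s {J J' : Set ι} (hJ : J ⊆ J') {l : ι} (hl : l ∈ J') (hlJ : l ∉ J) (a : ℕ)
    {u w : W ι} (hu : Sv J u) (hw : Sv J w) : B a u w ∈ Es J' a := by
  by_cases h : rr w ((X : R) ^ a • up u) = 0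
  · apply tau_mem_s hJ hl hlJ (isRow_rr w) _ _ h
    · intro i
      rw [Finsupp.smul_apply, smul_eq_mul]
      exact dvd_mul_right _ _
    · intro i hi
      rw [rr_single, hw i hi, C_0, mul_zero]
    · intro i hi
      rw [Finsupp.smul_apply, up_apply, hu i hi, C_0, smul_zero]
  · unfold B
    rw [tau_of_ne h]
    exact (Es J' a).one_mem

/-! ### the integral elementary group -/

/-- `E(ℤ)` with supports -/
def EZs (J : Set ι) : Subgroup (G ι) :=
  Subgroup.closure {g | ∃ i j, ∃ c : ℤ, i ≠ j ∧ i ∈ J ∧ j ∈ J ∧ g = xe i j (C c)}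

theorem EZs_le_PPs (J : Set ι) : EZs J ≤ PPs J := by
  rw [EZs, Subgroup.closure_le]
  rintro _ ⟨i, j, c, hij, hi, hj, rfl⟩
  exact xe_mem_PPs hij hi hj _

theorem xe_C_up_s {J : Set ι} {i j : ι} (hij : i ≠ j) (hi : i ∈ J) (c : ℤ) (u : W ι)
    (hu : Sv J u) : ∃ u', Sv J u' ∧ xe i j (C c) (up u) = up u' := by
  refine ⟨u + Finsupp.single i (u j * c), ?_, ?_⟩
  · intro k hk
    have hik : i ≠ k := by
      intro h
      apply hk
      rw [← h]
      exact hi
    rw [Finsupp.add_apply, hu k hk, Finsupp.single_apply, if_neg hik, add_zero]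
  · rw [xe_apply hij, up_add, up_single, up_apply, C_mul]

theorem xe_C_rr_s {J : Set ι} {i j : ι} (hij : i ≠ j) (hj : j ∈ J) (c : ℤ) (w : W ι)
    (hw : Sv J w) : ∃ w', Sv J w' ∧ dl (xe i j (C c)) (rr w) = rr w' := by
  refine ⟨w + Finsupp.single j (-(w i * c)), ?_, ?_⟩
  · intro k hk
    have hjk : j ≠ k := by
      intro h
      apply hk
      rw [← h]
      exact hj
    rw [Finsupp.add_apply, hw k hk, Finsupp.single_apply, if_neg hjk, add_zero]
  apply dual_ext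
  intro k
  rw [dl_apply, ← xeS_neg, xe_apply hij, map_add, rr_single, rr_single, rr_single,
    Finsupp.add_apply, C_add]
  rw [Finsupp.single_apply, Finsupp.single_apply]
  by_cases hk : k = j
  · subst hk
    rw [if_pos rfl, if_pos rfl]
    simp only [C_neg, C_mul]
    ring
  · rw [if_neg hk, if_neg (Ne.symm hk)]
    simp

theorem EZ_int_s {J : Set ι} {q : G ι} (hq : q ∈ EZs J) :
    ((∀ u : W ι, Sv J u → ∃ u', Sv J u' ∧ q (up u) = up u') ∧
      ∀ u : W ι, Sv J u → ∃ u', Sv J u' ∧ q⁻¹ (up u) = up u') ∧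
    ((∀ w : W ι, Sv J w → ∃ w', Sv J w' ∧ dl q (rr w) = rr w') ∧
      ∀ w : W ι, Sv J w → ∃ w', Sv J w' ∧ dl q⁻¹ (rr w) = rr w') := by
  induction hq using Subgroup.closure_induction with
  | mem x hx =>
    obtain ⟨i, j, c, hij, hi, hj, rfl⟩ := hx
    refine ⟨⟨xe_C_up_s hij hi c, ?_⟩, ⟨xe_C_rr_s hij hj c, ?_⟩⟩
    · rw [← xeS_neg, ← C_neg]
      exact xe_C_up_s hij hi (-c)
    · rw [← xeS_neg, ← C_neg]
      exact xe_C_rr_s hij hj (-c)
  | one =>
    refine ⟨⟨fun u hu => ⟨u, hu, rfl⟩, fun u hu => ⟨u, hu, ?_⟩⟩,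
      ⟨fun w hw => ⟨w, hw, ?_⟩, fun w hw => ⟨w, hw, ?_⟩⟩⟩
    · rw [inv_one]; rfl
    · apply LinearMap.ext; intro v; rw [dl_apply, inv_one]; rfl
    · apply LinearMap.ext; intro v; rw [dl_apply, inv_one, inv_one]; rfl
  | mul x y _ _ hx hy =>
    have dlm : ∀ (x y : G ι) (φ : D ι), dl (x * y) φ = dl x (dl y φ) := by
      intro x y φ
      apply LinearMap.ext
      intro v
      rw [dl_apply, dl_apply, dl_apply, mul_inv_rev, LinearEquiv.mul_apply]
    refine ⟨⟨fun u hu => ?_, fun u hu => ?_⟩, ⟨fun w hw => ?_, fun w hw => ?_⟩⟩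
    · obtain ⟨u1, k1, h1⟩ := hy.1.1 u hu
      obtain ⟨u2, k2, h2⟩ := hx.1.1 u1 k1
      exact ⟨u2, k2, by rw [LinearEquiv.mul_apply, h1, h2]⟩
    · obtain ⟨u1, k1, h1⟩ := hx.1.2 u hu
      obtain ⟨u2, k2, h2⟩ := hy.1.2 u1 k1
      exact ⟨u2, k2, by rw [mul_inv_rev, LinearEquiv.mul_apply, h1, h2]⟩
    · obtain ⟨u1, k1, h1⟩ := hy.2.1 w hw
      obtain ⟨u2, k2, h2⟩ := hx.2.1 u1 k1
      exact ⟨u2, k2, by rw [dlm, h1, h2]⟩
    · obtain ⟨u1, k1, h1⟩ := hx.2.2 w hw
      obtain ⟨u2, k2, h2⟩ := hy.2.2 u1 k1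
      exact ⟨u2, k2, by rw [mul_inv_rev, dlm, h1, h2]⟩
  | inv x _ hx =>
    refine ⟨⟨hx.1.2, ?_⟩, ⟨hx.2.2, ?_⟩⟩
    · rw [inv_inv]; exact hx.1.1
    · rw [inv_inv]; exact hx.2.1

/-- `P = E(ℤ) · E 1` with supports -/
theorem PP_decomp_s {J : Set ι} {q : G ι} (hq : q ∈ PPs J) :
    ∃ q0 ∈ EZs J, ∃ y ∈ Es J 1, q = q0 * y := by
  induction hq using Subgroup.closure_induction with
  | mem x hx =>
    obtain ⟨i, j, r, hij, hi, hj, rfl⟩ := hx
    refine ⟨xe i j (C (r.coeff 0)), Subgroup.subset_closure ⟨i, j, _, hij, hi, hj, rfl⟩,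
      xe i j (r - C (r.coeff 0)), ?_, ?_⟩
    · apply xe_mem_Es hij hi hj
      rw [pow_one, X_dvd_iff]
      simp
    · rw [← xeS_add hij]; congr 1; ring
  | one => exact ⟨1, (EZs J).one_mem, 1, (Es J 1).one_mem, by simp⟩
  | mul x y _ _ hx hy =>
    obtain ⟨a, ha, b, hb, rfl⟩ := hx
    obtain ⟨c, hc, d, hd, rfl⟩ := hy
    refine ⟨a * c, (EZs J).mul_mem ha hc, c⁻¹ * b * c * d, (Es J 1).mul_mem ?_ hd, by group⟩
    have := conj_mem_Es ((PPs J).inv_mem (EZs_le_PPs J hc)) hb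
    rwa [inv_inv] at this
  | inv x _ hx =>
    obtain ⟨a, ha, b, hb, rfl⟩ := hx
    refine ⟨a⁻¹, (EZs J).inv_mem ha, a * b⁻¹ * a⁻¹,
      conj_mem_Es (EZs_le_PPs J ha) ((Es J 1).inv_mem hb), by group⟩

/-! ### extension by zero -/

/-- extension by zero of a vector on the subtype -/
def ex (J : Set ι) (u : W ↥J) : W ι := u.mapDomain Subtype.val

theorem ex_apply (J : Set ι) (u : W ↥J) {i : ι} (hi : i ∈ J) : ex J u i = u ⟨i, hi⟩ := by
  unfold ex
  exact Finsupp.mapDomain_apply Subtype.val_injective u ⟨i, hi⟩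

theorem ex_notMem (J : Set ι) (u : W ↥J) : Sv J (ex J u) := by
  intro i hi
  unfold ex
  apply Finsupp.mapDomain_notin_range
  rintro ⟨x, rfl⟩
  exact hi x.2

theorem ex_add (J : Set ι) (u u' : W ↥J) : ex J (u + u') = ex J u + ex J u' :=
  Finsupp.mapDomain_add

theorem dt_ex (J : Set ι) (u w : W ↥J) : dt (ex J u) (ex J w) = dt u w := by
  induction u using Finsupp.induction_linear with
  | zero =>
    have : ex J (0 : W ↥J) = 0 := Finsupp.mapDomain_zero
    rw [this, dt_zero_left, dt_zero_left]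
  | add f g hf hg => rw [ex_add, dt_add_left, dt_add_left, hf, hg]
  | single i a =>
    have : ex J (Finsupp.single i a) = Finsupp.single i.1 a := Finsupp.mapDomain_single
    rw [this, dt_single_left, dt_single_left, ex_apply J w i.2]

/-- restriction of a vector -/
def rs (J : Set ι) (u : W ι) : W ↥J := u.comapDomain Subtype.val Subtype.val_injective.injOn

theorem rs_apply (J : Set ι) (u : W ι) (i : ↥J) : rs J u i = u i.1 := rfl

theorem ex_rs {J : Set ι} {u : W ι} (hu : Sv J u) : ex J (rs J u) = u := by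
  ext i
  by_cases hi : i ∈ J
  · rw [ex_apply J _ hi]; rfl
  · rw [ex_notMem J _ i hi, hu i hi]

end Pool.WFS.K
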