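import Pool.Agent.WFS.K.Sc

/-! # (K) with supports (helper91, WFS, module K) -/

set_option autoImplicit false
set_option linter.all false

noncomputable section

namespace Pool.WFS.K

open Polynomial
open scoped Classical

variable {ι : Type} {σ : Nm ι}

/-- the chain of supports -/
structure Chn (σ : Nm ι) where
  J : Set ι
  J2 : Set ι
  J1 : Set ι
  hJ : J ⊆ J2
  hJ2 : J2 ⊆ J1
  hJ1 : J1 ⊆ σ.K
  o : ι
  ho : o ∈ J2
  hoJ : o ∉ J
  l : ι
  hl : l ∈ J1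
  hlJ : l ∉ J2
  p : ι
  hp : p ∈ σ.K
  hpJ : p ∉ J1
  hC : σ.HC
  h3 : ∀ x y : ι, ∃ z ∈ σ.K, z ≠ x ∧ z ≠ y
  h4 : Four ↥J2
  ha : 1 ≤ σ.a

variable (c : Chn σ)

/-- the image of `E a` in the quotient -/
def Chn.Va : Subgroup σ.Q := ((Es c.J1 σ.a).subgroupOf (PPs σ.K)).map σ.pr

variable {c}

theorem Chn.memP {a : ℕ} {g : G ι} (hg : g ∈ Es c.J1 a) : g ∈ PPs σ.K :=
  PPs_mono c.hJ1 (Es_le_PPs _ _ hg)

theorem Chn.pr_mem_Va {g : G ι} (hg : g ∈ Es c.J1 σ.a) (hgP : g ∈ PPs σ.K) :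
    σ.pr ⟨g, hgP⟩ ∈ c.Va :=
  Subgroup.mem_map_of_mem _ (by rw [Subgroup.mem_subgroupOf]; exact hg)

theorem Chn.Va_comm {x y : σ.Q} (hx : x ∈ c.Va) (hy : y ∈ c.Va) : x * y = y * x := by
  obtain ⟨g, hg, rfl⟩ := hx
  obtain ⟨h, hh, rfl⟩ := hy
  obtain ⟨_, _, hc⟩ := Nm.Cm_E (σ := σ) c.hC c.h3 c.hJ1 c.hp c.hpJ
    (Es_anti _ c.ha (Subgroup.mem_subgroupOf.1 hg)) (Subgroup.mem_subgroupOf.1 hh)
  exact hc

theorem Chn.B_mem {u w : W ι} (hu : Sv c.J2 u) (hw : Sv c.J2 w) : B σ.a u w ∈ Es c.J1 σ.a :=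
  B_mem_s c.hJ2 c.hl c.hlJ σ.a hu hw

theorem Chn.B_mem' (u w : W ↥c.J2) : B σ.a (ex c.J2 u) (ex c.J2 w) ∈ Es c.J1 σ.a :=
  Chn.B_mem (ex_notMem _ _) (ex_notMem _ _)

variable (c)

/-- the value of `B` in the quotient -/
def Chn.be (u w : W ↥c.J2) : σ.Q :=
  σ.pr ⟨B σ.a (ex c.J2 u) (ex c.J2 w), Chn.memP (Chn.B_mem' u w)⟩

variable {c}

theorem Chn.be_add_left {u u' w : W ↥c.J2} (h : dt u w = 0) (h' : dt u' w = 0) :
    c.be (u + u') w = c.be u w * c.be u' w := by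
  unfold Chn.be
  rw [← map_mul]
  congr 1
  apply Subtype.ext
  show B σ.a (ex c.J2 (u + u')) (ex c.J2 w) = _ * _
  rw [ex_add]
  exact B_add_left (by rw [dt_ex, h]) (by rw [dt_ex, h'])

theorem Chn.be_add_right {u w w' : W ↥c.J2} (h : dt u w = 0) (h' : dt u w' = 0) :
    c.be u (w + w') = c.be u w * c.be u w' := by
  unfold Chn.be
  rw [← map_mul]
  congr 1
  apply Subtype.ext
  show B σ.a (ex c.J2 u) (ex c.J2 (w + w')) = _ * _
  rw [ex_add]
  exact B_add_right (by rw [dt_ex, h]) (by rw [dt_ex, h'])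

/-- the product of a list of `B`'s, by recursion -/
def qB (a : ℕ) : List (W ι × W ι) → G ι
  | [] => 1
  | p :: L => B a p.1 p.2 * qB a L

theorem qB_append (a : ℕ) (L L' : List (W ι × W ι)) : qB a (L ++ L') = qB a L * qB a L' := by
  induction L with
  | nil => rw [List.nil_append, qB, one_mul]
  | cons p L ih => rw [List.cons_append, qB, qB, ih, mul_assoc]

/-- `(-u, w)` -/
def ng (p : W ι × W ι) : W ι × W ι := (-p.1, p.2)

theorem B_inv' {a : ℕ} (u w : W ι) : (B a u w)⁻¹ = B a (-u) w := by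
  unfold B
  rw [tau_inv, up_neg, smul_neg]

theorem qB_inv (a : ℕ) (L : List (W ι × W ι)) : (qB a L)⁻¹ = qB a (L.map ng).reverse := by
  induction L with
  | nil => rw [List.map_nil, List.reverse_nil, qB, inv_one]
  | cons p L ih =>
    rw [qB, mul_inv_rev, ih, List.map_cons, List.reverse_cons, qB_append]
    congr 1
    rw [qB, qB, mul_one, B_inv']
    rfl

/-- the condition on the pairs -/
def Ok (J : Set ι) (p : W ι × W ι) : Prop := dt p.1 p.2 = 0 ∧ Sv J p.1 ∧ Sv J p.2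

theorem Ok.ng {J : Set ι} {p : W ι × W ι} (h : Ok J p) : Ok J (ng p) := by
  refine ⟨?_, ?_, h.2.2⟩
  · show dt (-p.1) p.2 = 0
    rw [dt_neg_left, h.1, neg_zero]
  · intro i hi
    show (-p.1) i = 0
    rw [Finsupp.neg_apply, h.2.1 i hi, neg_zero]

theorem Chn.qB_mem {L : List (W ι × W ι)} (h : ∀ p ∈ L, Ok c.J2 p) : qB σ.a L ∈ Es c.J1 σ.a := by
  induction L with
  | nil => exact (Es c.J1 σ.a).one_mem
  | cons p L ih =>
    have hp := h p List.mem_cons_self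
    exact (Es c.J1 σ.a).mul_mem (Chn.B_mem hp.2.1 hp.2.2)
      (ih (fun q hq => h q (List.mem_cons_of_mem _ hq)))

/-- `g` is a product of `B`'s modulo `H` -/
def Nm.IsB (σ : Nm ι) (J : Set ι) (g : G ι) : Prop :=
  ∃ L : List (W ι × W ι), (∀ p ∈ L, Ok J p) ∧ g * (qB σ.a L)⁻¹ ∈ σ.H

theorem Nm.IsB.mul {J : Set ι} {g h : G ι} (hg' : g ∈ PPs σ.K) (hg : σ.IsB J g)
    (hh : σ.IsB J h) : σ.IsB J (g * h) := by
  obtain ⟨L, hL, h1⟩ := hg
  obtain ⟨L', hL', h2⟩ := hh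
  refine ⟨L ++ L', ?_, ?_⟩
  · intro p hp
    rcases List.mem_append.1 hp with h | h
    · exact hL p h
    · exact hL' p h
  · rw [qB_append]
    have := σ.H.mul_mem (σ.conj g hg' _ h2) h1
    convert this using 1
    group

theorem Nm.IsB.of_H {J : Set ι} {g : G ι} (hg : g ∈ σ.H) : σ.IsB J g :=
  ⟨[], by simp, by rw [qB]; simpa using hg⟩

theorem Nm.IsB.inv {J : Set ι} {g : G ι} (hg' : g ∈ PPs σ.K) (hg : σ.IsB J g) :
    σ.IsB J g⁻¹ := by
  obtain ⟨L, hL, h1⟩ := hg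
  refine ⟨(L.map ng).reverse, ?_, ?_⟩
  · intro p hp
    rw [List.mem_reverse, List.mem_map] at hp
    obtain ⟨q, hq, rfl⟩ := hp
    exact (hL q hq).ng
  · rw [← qB_inv, inv_inv]
    have h2 := σ.conj g⁻¹ ((PPs σ.K).inv_mem hg') _ (σ.H.inv_mem h1)
    convert h2 using 1
    group

theorem Chn.isB_gen {q : G ι} (hq : q ∈ PPs c.J) {k l : ι} (hkl : k ≠ l) (hk : k ∈ c.J)
    (hl : l ∈ c.J) (r : R) : σ.IsB c.J (q * xe k l (X ^ σ.a * r) * q⁻¹) := by
  obtain ⟨q0, hq0, y, hy, rfl⟩ := PP_decomp_s hq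
  have hJK : c.J ⊆ σ.K := (c.hJ.trans c.hJ2).trans c.hJ1
  have hq0' : q0 ∈ PPs σ.K := PPs_mono hJK (EZs_le_PPs _ hq0)
  have hyP : y ∈ PPs σ.K := PPs_mono hJK (Es_le_PPs _ _ hy)
  have hx : ∀ r, xe k l r ∈ PPs σ.K := fun r => xe_mem_PPs hkl (hJK hk) (hJK hl) r
  -- the integral part
  set c0 := r.coeff 0 with hc
  obtain ⟨r', hr'⟩ : ∃ r', r = C c0 + X * r' := by
    have : X ∣ r - C c0 := by rw [X_dvd_iff]; simp [hc]
    obtain ⟨s, hs⟩ := this
    exact ⟨s, by rw [← hs]; ring⟩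
  have m1 : xe k l (X ^ (σ.a + 1) * r') ∈ σ.H :=
    σ.le (xe_mem_Es hkl (hJK hk) (hJK hl) (dvd_mul_right _ _))
  have e1 : xe k l (X ^ σ.a * r) = xe k l (X ^ σ.a * C c0) * xe k l (X ^ (σ.a + 1) * r') := by
    rw [← xeS_add hkl]; congr 1
    conv_lhs => rw [hr']
    ring
  have m2 : y * xe k l (X ^ σ.a * r) * y⁻¹ * (xe k l (X ^ σ.a * r))⁻¹ ∈ σ.H := by
    have hJ1 : c.J ⊆ c.J1 := c.hJ.trans c.hJ2
    exact (Nm.Cm.iff hyP (hx _)).1 (Nm.Cm_E (σ := σ) c.hC c.h3 c.hJ1 c.hp c.hpJ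
      (Es_mono hJ1 1 hy) (xe_mem_Es hkl (hJ1 hk) (hJ1 hl) (dvd_mul_right _ _)))
  have hB : σ.IsB c.J (q0 * xe k l (X ^ σ.a * C c0) * q0⁻¹) := by
    have s1 : Sv c.J (Finsupp.single k c0) := by
      intro i hi
      have hki : k ≠ i := by
        intro h
        apply hi
        rw [← h]
        exact hk
      rw [Finsupp.single_apply, if_neg hki]
    have s2 : Sv c.J (ee l) := by
      intro i hi
      have hli : l ≠ i := by
        intro h
        apply hi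
        rw [← h]
        exact hl
      rw [Finsupp.single_apply, if_neg hli]
    obtain ⟨u', ku', hu'⟩ := (EZ_int_s hq0).1.1 (Finsupp.single k c0) s1
    obtain ⟨w', kw', hw'⟩ := (EZ_int_s hq0).2.1 (ee l) s2
    refine ⟨[(u', w')], ?_, ?_⟩
    · intro p hp
      rw [List.mem_singleton] at hp
      subst hp
      refine ⟨?_, ku', kw'⟩
      show dt u' w' = 0
      have h1 : rr w' (up u') = 0 := by
        rw [← hw', ← hu', dl_apply, inv_apply_self, rr_up, dt_single_left]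
        simp [Finsupp.single_apply, Ne.symm hkl]
      rw [rr_up] at h1
      exact C_injective (by rw [h1, C_0])
    · have e2 : q0 * xe k l (X ^ σ.a * C c0) * q0⁻¹ = B σ.a u' w' := by
        unfold xe B
        rw [conj_tau, co_eq_rr, hw', ← hu', up_single, ← map_smul, Finsupp.smul_single, smul_eq_mul]
      rw [e2, qB, qB, mul_one, mul_inv_cancel]
      exact σ.H.one_mem
  have e3 : q0 * y * xe k l (X ^ σ.a * r) * (q0 * y)⁻¹ =
      (q0 * (y * xe k l (X ^ σ.a * r) * y⁻¹ * (xe k l (X ^ σ.a * r))⁻¹) * q0⁻¹) *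
        ((q0 * xe k l (X ^ σ.a * C c0) * q0⁻¹) * (q0 * xe k l (X ^ (σ.a + 1) * r') * q0⁻¹)) := by
    rw [e1]; group
  rw [e3]
  have hc1 : y * xe k l (X ^ σ.a * r) * y⁻¹ * (xe k l (X ^ σ.a * r))⁻¹ ∈ PPs σ.K :=
    Nm.comm_mem hyP (hx _)
  apply Nm.IsB.mul
  · exact (PPs σ.K).mul_mem ((PPs σ.K).mul_mem hq0' hc1) ((PPs σ.K).inv_mem hq0')
  · exact Nm.IsB.of_H (σ.conj _ hq0' _ m2)
  · apply Nm.IsB.mul _ hB (Nm.IsB.of_H (σ.conj _ hq0' _ m1))
    exact (PPs σ.K).mul_mem ((PPs σ.K).mul_mem hq0' (hx _)) ((PPs σ.K).inv_mem hq0')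

theorem Chn.isB {g : G ι} (hg : g ∈ Es c.J σ.a) : σ.IsB c.J g := by
  have hJK : c.J ⊆ σ.K := (c.hJ.trans c.hJ2).trans c.hJ1
  induction hg using Subgroup.closure_induction with
  | mem x hx =>
    obtain ⟨q, hq, i, j, r, hij, hi, hj, rfl⟩ := hx
    exact Chn.isB_gen hq hij hi hj r
  | one => exact Nm.IsB.of_H σ.H.one_mem
  | mul x y hx1 _ hx hy => exact Nm.IsB.mul (PPs_mono hJK (Es_le_PPs _ _ hx1)) hx hy
  | inv x hx1 hx => exact Nm.IsB.inv (PPs_mono hJK (Es_le_PPs _ _ hx1)) hx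

/-- the first order part of a product of `B`'s -/
theorem first_order_s {a : ℕ} (ha : 1 ≤ a) (L : List (W ι × W ι)) (hL : ∀ p ∈ L, dt p.1 p.2 = 0)
    (v : V ι) : ∃ v' : V ι, qB a L v =
      v + (X : R) ^ a • (L.map fun p => rr p.2 v • up p.1).sum + (X : R) ^ (a + 1) • v' := by
  induction L with
  | nil => exact ⟨0, by simp [qB]⟩
  | cons p L ih =>
    obtain ⟨v', hv'⟩ := ih (fun q hq => hL q (List.mem_cons_of_mem _ hq))
    have hp := hL p (List.mem_cons_self)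
    set S := (L.map fun p => rr p.2 v • up p.1).sum with hS
    obtain ⟨b, rfl⟩ : ∃ b, a = b + 1 := ⟨a - 1, by omega⟩
    refine ⟨v' + (X : R) ^ b • (rr p.2 S • up p.1) + (X : R) ^ (b + 1) • (rr p.2 v' • up p.1), ?_⟩
    rw [qB, LinearEquiv.mul_apply, hv', List.map_cons, List.sum_cons, ← hS]
    unfold B
    rw [tau_apply (B_cond hp)]
    simp only [map_add, map_smul, smul_eq_mul, smul_add, smul_smul]
    have e1 : ((rr p.2) v + (X : R) ^ (b + 1) * (rr p.2) S + X ^ (b + 1 + 1) * (rr p.2) v') *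
        X ^ (b + 1) = X ^ (b + 1) * (rr p.2) v + X ^ (b + 1 + 1) * (X ^ b * (rr p.2) S) +
          X ^ (b + 1 + 1) * (X ^ (b + 1) * (rr p.2) v') := by
      ring
    rw [e1, add_smul, add_smul]
    abel

theorem tn_sum_s {a : ℕ} (ha : 1 ≤ a) (L : List (W ι × W ι)) (hL : ∀ p ∈ L, dt p.1 p.2 = 0)
    (hG : qB a L ∈ Gam ι (a + 1)) (i j : ι) :
    (L.map fun p => p.1 i * p.2 j).sum = 0 := by
  obtain ⟨v', hv'⟩ := first_order_s ha L hL (Finsupp.single j 1)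
  have h1 := hG (Finsupp.single j 1) i
  rw [hv'] at h1
  have e1 : ∀ (x y z : V ι), (x + y + z - x) i = y i + z i := by
    intro x y z
    rw [add_assoc, add_sub_cancel_left, Finsupp.add_apply]
  rw [e1, Finsupp.smul_apply, Finsupp.smul_apply, smul_eq_mul, smul_eq_mul] at h1
  have h2 : (X : R) ^ (a + 1) ∣ X ^ a * (L.map fun p => rr p.2 (Finsupp.single j 1) • up p.1).sum i :=
    (dvd_add_left (dvd_mul_right _ _)).1 h1
  rw [pow_succ] at h2
  have h3 : (X : R) ∣ (L.map fun p => rr p.2 (Finsupp.single j 1) • up p.1).sum i :=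
    (mul_dvd_mul_iff_left (pow_ne_zero a X_ne_zero)).1 h2
  have e2 : (L.map fun p => rr p.2 (Finsupp.single j 1) • up p.1).sum i =
      C ((L.map fun p => p.1 i * p.2 j).sum) := by
    clear hv' h1 h2 h3 hG hL
    induction L with
    | nil => simp
    | cons p L ih =>
      rw [List.map_cons, List.sum_cons, Finsupp.add_apply, ih, List.map_cons, List.sum_cons,
        C_add, Finsupp.smul_apply, rr_single, up_apply, C_mul]
      simp [mul_comm]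
  rw [e2, X_dvd_iff, coeff_C_zero] at h3
  exact h3

variable (c)

/-- the restricted list -/
def Chn.rl (L : List (W ι × W ι)) : List (W ↥c.J2 × W ↥c.J2) :=
  L.map fun p => (rs c.J2 p.1, rs c.J2 p.2)

/-- the product in the quotient, by recursion -/
def Chn.rQ : List (W ↥c.J2 × W ↥c.J2) → σ.Q
  | [] => 1
  | p :: L => c.be p.1 p.2 * Chn.rQ L

variable {c}

theorem Chn.rQ_eq (L : List (W ↥c.J2 × W ↥c.J2)) :
    c.rQ L = (L.map fun p => c.be p.1 p.2).prod := by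
  induction L with
  | nil => rfl
  | cons p L ih => rw [Chn.rQ, ih, List.map_cons, List.prod_cons]

theorem Chn.be_rs {u w : W ι} (hu : Sv c.J2 u) (hw : Sv c.J2 w) (h : B σ.a u w ∈ PPs σ.K) :
    c.be (rs c.J2 u) (rs c.J2 w) = σ.pr ⟨B σ.a u w, h⟩ := by
  unfold Chn.be
  apply Nm.pr_eq_of
  rw [ex_rs hu, ex_rs hw]

theorem Chn.qB_pr {L : List (W ι × W ι)} (hL : ∀ p ∈ L, Ok c.J2 p) (h : qB σ.a L ∈ PPs σ.K) :
    σ.pr ⟨qB σ.a L, h⟩ = c.rQ (c.rl L) := by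
  induction L with
  | nil => exact Nm.pr_eq_one.2 σ.H.one_mem
  | cons p L ih =>
    have hp := hL p List.mem_cons_self
    have hL' := fun q hq => hL q (List.mem_cons_of_mem _ hq)
    have h1 : B σ.a p.1 p.2 ∈ PPs σ.K := Chn.memP (c := c) (Chn.B_mem hp.2.1 hp.2.2)
    have h2 : qB σ.a L ∈ PPs σ.K := Chn.memP (c := c) (Chn.qB_mem hL')
    have e : c.rQ (c.rl (p :: L)) =
        c.be (rs c.J2 p.1) (rs c.J2 p.2) * c.rQ (c.rl L) := rfl
    rw [e, ← ih hL' h2, Chn.be_rs hp.2.1 hp.2.2 h1]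
    exact Nm.pr_mul h1 h2 h

theorem dt_rs {J : Set ι} {u w : W ι} (hu : Sv J u) (hw : Sv J w) :
    dt (rs J u) (rs J w) = dt u w := by
  rw [← dt_ex, ex_rs hu, ex_rs hw]

/-- **(K)**, for a chain -/
theorem Chn.K {g : G ι} (hg : g ∈ Es c.J σ.a) (hG : g ∈ Gam ι (σ.a + 1))
    (hH : σ.H ≤ Gam ι (σ.a + 1)) : g ∈ σ.H := by
  obtain ⟨L, hL, h1⟩ := Chn.isB hg
  have hL2 : ∀ p ∈ L, Ok c.J2 p := fun p hp =>
    ⟨(hL p hp).1, (hL p hp).2.1.mono c.hJ, (hL p hp).2.2.mono c.hJ⟩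
  set m := qB σ.a L with hm
  have hmE : m ∈ Es c.J1 σ.a := Chn.qB_mem hL2
  have hmG : m ∈ Gam ι (σ.a + 1) := by
    have := (Gam ι (σ.a + 1)).mul_mem ((Gam ι (σ.a + 1)).inv_mem (hH h1)) hG
    convert this using 1
    group
  have ht := tn_sum_s c.ha L (fun p hp => (hL p hp).1) hmG
  have hs : ((c.rl L).map fun p => tn p.1 p.2).sum = 0 := by
    ext ⟨i, j⟩
    have := ht i.1 j.1
    rw [Finsupp.zero_apply, ← this]
    clear this ht hmG hmE h1 hL hL2 hm m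
    induction L with
    | nil => rfl
    | cons p L ih =>
      have e : (c.rl (p :: L)).map (fun p => tn p.1 p.2) =
          tn (rs c.J2 p.1) (rs c.J2 p.2) :: (c.rl L).map (fun p => tn p.1 p.2) := rfl
      rw [e, List.sum_cons, Finsupp.add_apply, ih, List.map_cons, List.sum_cons, tn_apply,
        rs_apply, rs_apply]
  have hd : ∀ p ∈ c.rl L, dt p.1 p.2 = 0 := by
    intro p hp
    obtain ⟨q, hq, rfl⟩ := List.mem_map.1 hp
    show dt (rs c.J2 q.1) (rs c.J2 q.2) = 0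
    rw [dt_rs (hL2 q hq).2.1 (hL2 q hq).2.2]
    exact (hL q hq).1
  have ho : ∀ p ∈ c.rl L, p.1 ⟨c.o, c.ho⟩ = 0 ∧ p.2 ⟨c.o, c.ho⟩ = 0 := by
    intro p hp
    obtain ⟨q, hq, rfl⟩ := List.mem_map.1 hp
    exact ⟨(hL q hq).2.1 c.o c.hoJ, (hL q hq).2.2 c.o c.hoJ⟩
  have key := pure_lemma_mul' c.h4 c.Va (fun x hx y hy => Chn.Va_comm hx hy) c.be
    (fun u w => Chn.pr_mem_Va (Chn.B_mem' u w) _) (fun u u' w h h' => Chn.be_add_left h h')
    (fun u w w' h h' => Chn.be_add_right h h') ⟨c.o, c.ho⟩ (c.rl L) hd ho hs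
  have hmP : m ∈ PPs σ.K := Chn.memP (c := c) hmE
  have hmH : m ∈ σ.H := by
    apply (Nm.pr_eq_one (g := ⟨m, hmP⟩)).1
    exact (Chn.qB_pr hL2 hmP).trans (by rw [Chn.rQ_eq, key])
  have := σ.H.mul_mem h1 hmH
  convert this using 1
  group

end Pool.WFS.K
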