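import Pool.Agent.WFS.K.Defs

/-! # Transvections, elementary automorphisms (helper91, WFS, module K) -/

set_option autoImplicit false
set_option linter.all false

noncomputable section

namespace Pool.WFS.K

open Polynomial
open scoped Classical

variable {ι : Type}

/-- `φ ∘ q⁻¹` -/
def dl (q : G ι) (φ : D ι) : D ι := φ ∘ₗ (q⁻¹ : G ι).toLinearMap

theorem dl_apply (q : G ι) (φ : D ι) (v : V ι) : dl q φ v = φ (q⁻¹ v) := rfl

theorem inv_apply_self (q : G ι) (v : V ι) : q⁻¹ (q v) = v := by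
  rw [← LinearEquiv.mul_apply, inv_mul_cancel]; rfl

theorem apply_inv_self (q : G ι) (v : V ι) : q (q⁻¹ v) = v := by
  rw [← LinearEquiv.mul_apply, mul_inv_cancel]; rfl

theorem tau_of_ne {φ : D ι} {u : V ι} (h : φ u ≠ 0) : tau φ u = 1 := by
  unfold tau; rw [dif_neg h]

theorem tau_zero_left (u : V ι) : tau (0 : D ι) u = 1 := by
  ext1 v
  rw [tau_apply (by simp)]
  simp

theorem tau_zero_right (φ : D ι) : tau φ 0 = 1 := by
  apply LinearEquiv.ext
  intro v
  rw [tau_apply (by simp)]
  simp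

theorem tau_add_right {φ : D ι} {u u' : V ι} (h : φ u = 0) (h' : φ u' = 0) :
    tau φ (u + u') = tau φ u * tau φ u' := by
  apply LinearEquiv.ext
  intro v
  rw [tau_apply (by simp [h, h']), LinearEquiv.mul_apply, tau_apply h', tau_apply h]
  simp only [map_add, map_smul, smul_eq_mul, h', mul_zero, add_zero, smul_add]
  abel

theorem tau_add_left {φ ψ : D ι} {u : V ι} (h : φ u = 0) (h' : ψ u = 0) :
    tau (φ + ψ) u = tau φ u * tau ψ u := by
  apply LinearEquiv.ext
  intro v
  rw [tau_apply (by simp [h, h']), LinearEquiv.mul_apply, tau_apply h', tau_apply h]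
  simp only [map_add, map_smul, smul_eq_mul, h, mul_zero, add_zero, LinearMap.add_apply, add_smul]
  abel

theorem tau_inv (φ : D ι) (u : V ι) : (tau φ u)⁻¹ = tau φ (-u) := by
  by_cases h : φ u = 0
  · rw [inv_eq_iff_mul_eq_one, ← tau_add_right h (by simp [h]), add_neg_cancel, tau_zero_right]
  · rw [tau_of_ne h, tau_of_ne (by simpa using h), inv_one]

theorem tau_neg_left (φ : D ι) (u : V ι) : tau (-φ) u = tau φ (-u) := by
  by_cases h : φ u = 0
  · apply LinearEquiv.ext
    intro v
    rw [tau_apply (by simp [h]), tau_apply (by simp [h])]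
    simp
  · rw [tau_of_ne (by simpa using h), tau_of_ne (by simpa using h)]

theorem tau_smul_left {φ : D ι} {u : V ι} (h : φ u = 0) (r : R) : tau (r • φ) u = tau φ (r • u) := by
  apply LinearEquiv.ext
  intro v
  rw [tau_apply (by simp [h]), tau_apply (by simp [h])]
  simp only [LinearMap.smul_apply, smul_eq_mul, smul_smul]
  rw [mul_comm]

theorem conj_tau (q : G ι) (φ : D ι) (u : V ι) : q * tau φ u * q⁻¹ = tau (dl q φ) (q u) := by
  by_cases h : φ u = 0
  · apply LinearEquiv.ext
    intro v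
    rw [tau_apply (by rw [dl_apply, inv_apply_self, h]), LinearEquiv.mul_apply,
      LinearEquiv.mul_apply, tau_apply h, map_add, map_smul, apply_inv_self, dl_apply]
  · rw [tau_of_ne h, tau_of_ne (by rwa [dl_apply, inv_apply_self]), mul_one, mul_inv_cancel]

/-- the commutator formula -/
theorem comm_tau {φ ψ : D ι} {u w : V ι} (h1 : φ u = 0) (h2 : ψ w = 0) (h3 : ψ u = 0) :
    tau φ u * tau ψ w * (tau φ u)⁻¹ * (tau ψ w)⁻¹ = tau ψ (φ w • u) := by
  have hd : dl (tau φ u) ψ = ψ := by
    ext v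
    simp only [dl_apply, tau_inv, LinearMap.comp_apply]
    rw [tau_apply (by simp [h1])]
    simp [h3]
  rw [conj_tau, hd, tau_apply h1, tau_add_right h2 (by simp [h3]), mul_assoc]
  rw [show tau ψ (φ w • u) * (tau ψ w)⁻¹ = (tau ψ w)⁻¹ * tau ψ (φ w • u) by
    rw [tau_inv, ← tau_add_right (by simp [h3]) (by simp [h2]),
      ← tau_add_right (by simp [h2]) (by simp [h3]), add_comm]]
  rw [← mul_assoc, mul_inv_cancel, one_mul]

/-! ### rows, fresh indices -/

theorem IsRow.co (j : ι) : IsRow (co j) := by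
  apply (Set.finite_singleton j).subset
  intro i hi
  by_contra hne
  exact hi (co_single hne 1)

theorem IsRow.zero : IsRow (0 : D ι) := by
  unfold IsRow; simp

theorem IsRow.add {φ ψ : D ι} (h : IsRow φ) (h' : IsRow ψ) : IsRow (φ + ψ) := by
  apply (h.union h').subset
  intro i hi
  by_contra hne
  simp only [Set.mem_union, Set.mem_ofPred_eq, not_or, not_not] at hne
  apply hi
  rw [LinearMap.add_apply, hne.1, hne.2, add_zero]

theorem IsRow.smul {φ : D ι} (h : IsRow φ) (r : R) : IsRow (r • φ) := by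
  apply h.subset
  intro i hi
  simp only [Set.mem_ofPred_eq, LinearMap.smul_apply] at hi ⊢
  intro h0
  exact hi (by rw [h0, smul_zero])

theorem IsRow.neg {φ : D ι} (h : IsRow φ) : IsRow (-φ) := by
  apply h.subset
  intro i hi
  simp only [Set.mem_ofPred_eq, LinearMap.neg_apply] at hi ⊢
  intro h0
  exact hi (by rw [h0, neg_zero])

theorem Fr.one (l : ι) : Fr l (1 : G ι) := ⟨rfl, fun _ => rfl⟩

theorem Fr.mul {l : ι} {g h : G ι} (hg : Fr l g) (hh : Fr l h) : Fr l (g * h) := by
  refine ⟨?_, fun v => ?_⟩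
  · rw [LinearEquiv.mul_apply, hh.1, hg.1]
  · rw [LinearEquiv.mul_apply, hg.2, hh.2]

theorem Fr.inv {l : ι} {g : G ι} (hg : Fr l g) : Fr l g⁻¹ := by
  refine ⟨?_, fun v => ?_⟩
  · conv_lhs => rw [← hg.1]
    rw [inv_apply_self]
  · rw [← hg.2, apply_inv_self]

theorem Fr.xe {l i j : ι} (hij : i ≠ j) (hi : l ≠ i) (hj : l ≠ j) (r : R) : Fr l (xe i j r) := by
  refine ⟨?_, fun v => ?_⟩
  · rw [xe_apply hij, Finsupp.single_apply, if_neg hj, zero_mul, Finsupp.single_zero, add_zero]
  · rw [xe_apply hij, Finsupp.add_apply, Finsupp.single_apply, if_neg hi.symm, add_zero]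

theorem fr_finite {q : G ι} (hq : q ∈ PP ι) : {l | ¬ Fr l q}.Finite := by
  induction hq using Subgroup.closure_induction with
  | mem x hx =>
    obtain ⟨i, j, r, hij, rfl⟩ := hx
    apply ((Set.finite_singleton i).union (Set.finite_singleton j)).subset
    intro l hl
    by_contra hne
    simp only [Set.mem_union, Set.mem_singleton_iff, not_or] at hne
    exact hl (Fr.xe hij hne.1 hne.2 r)
  | one =>
    simp [Fr.one]
  | mul x y _ _ hx hy =>
    apply (hx.union hy).subset
    intro l hl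
    by_contra hne
    simp only [Set.mem_union, Set.mem_ofPred_eq, not_or, not_not] at hne
    exact hl (hne.1.mul hne.2)
  | inv x _ hx =>
    apply hx.subset
    intro l hl h
    exact hl h.inv

theorem IsRow.dl {q : G ι} (hq : q ∈ PP ι) {φ : D ι} (h : IsRow φ) : IsRow (dl q φ) := by
  apply (h.union (fr_finite hq)).subset
  intro l hl
  by_contra hne
  simp only [Set.mem_union, Set.mem_ofPred_eq, not_or, not_not] at hne
  apply hl
  rw [dl_apply, hne.2.inv.1, hne.1]

/-- fresh indices exist -/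
theorem exists_fresh [Infinite ι] {s : Set ι} (hs : s.Finite) : ∃ l, l ∉ s :=
  hs.exists_notMem

/-! ### the subgroups `E a` -/

theorem E_le_PP (a : ℕ) : E ι a ≤ PP ι := by
  rw [E, Subgroup.closure_le]
  rintro _ ⟨p, hp, i, j, r, hij, rfl⟩
  exact (PP ι).mul_mem ((PP ι).mul_mem hp (xe_mem hij _)) ((PP ι).inv_mem hp)

theorem xe_mem_E {i j : ι} (hij : i ≠ j) (a : ℕ) (r : R) : xe i j (X ^ a * r) ∈ E ι a :=
  Subgroup.subset_closure ⟨1, (PP ι).one_mem, i, j, r, hij, by simp⟩

theorem xe_mem_E' {i j : ι} (hij : i ≠ j) {a : ℕ} {r : R} (h : X ^ a ∣ r) : xe i j r ∈ E ι a := by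
  obtain ⟨s, rfl⟩ := h
  exact xe_mem_E hij a s

theorem conj_mem_E {a : ℕ} {p g : G ι} (hp : p ∈ PP ι) (hg : g ∈ E ι a) :
    p * g * p⁻¹ ∈ E ι a := by
  induction hg using Subgroup.closure_induction with
  | mem x hx =>
    obtain ⟨q, hq, i, j, r, hij, rfl⟩ := hx
    refine Subgroup.subset_closure ⟨p * q, (PP ι).mul_mem hp hq, i, j, r, hij, ?_⟩
    group
  | one => simpa using (E ι a).one_mem
  | mul x y _ _ hx hy =>
    have := (E ι a).mul_mem hx hy
    convert this using 1
    group
  | inv x _ hx =>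
    have := (E ι a).inv_mem hx
    convert this using 1
    group

theorem E_anti {a b : ℕ} (h : a ≤ b) : E ι b ≤ E ι a := by
  rw [E, Subgroup.closure_le]
  rintro _ ⟨p, hp, i, j, r, hij, rfl⟩
  apply conj_mem_E hp
  exact xe_mem_E' hij ⟨X ^ (b - a) * r, by rw [← mul_assoc, ← pow_add, Nat.add_sub_cancel' h]⟩

theorem E_zero : E ι 0 = PP ι := by
  apply le_antisymm (E_le_PP 0)
  rw [PP, Subgroup.closure_le]
  rintro _ ⟨i, j, r, hij, rfl⟩
  exact xe_mem_E' hij (by simp)

theorem Gam_anti {a b : ℕ} (h : a ≤ b) : Gam ι b ≤ Gam ι a := by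
  intro g hg v i
  exact (pow_dvd_pow _ h).trans (hg v i)

theorem conj_mem_Gam {a : ℕ} (p : G ι) {g : G ι} (hg : g ∈ Gam ι a) : p * g * p⁻¹ ∈ Gam ι a := by
  intro v i
  have h1 : (p * g * p⁻¹) v - v = p (g (p⁻¹ v) - p⁻¹ v) := by
    rw [map_sub, LinearEquiv.mul_apply, LinearEquiv.mul_apply, apply_inv_self]
  rw [h1]
  have h2 : ∃ w, g (p⁻¹ v) - p⁻¹ v = (X : R) ^ a • w := by
    have := hg (p⁻¹ v)
    choose f hf using this
    refine ⟨Finsupp.onFinset (g (p⁻¹ v) - p⁻¹ v).support f ?_, ?_⟩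
    · intro i hi
      rw [Finsupp.mem_support_iff, hf i]
      exact mul_ne_zero (pow_ne_zero _ X_ne_zero) hi
    · ext1 i
      rw [hf i, Finsupp.smul_apply, Finsupp.onFinset_apply, smul_eq_mul]
  obtain ⟨w, hw⟩ := h2
  rw [hw, map_smul, Finsupp.smul_apply, smul_eq_mul]
  exact dvd_mul_right _ _

theorem xe_mem_Gam {i j : ι} (hij : i ≠ j) {a : ℕ} {r : R} (h : X ^ a ∣ r) : xe i j r ∈ Gam ι a := by
  intro v k
  rw [xe_apply hij, add_sub_cancel_left, Finsupp.single_apply]
  split_ifs
  · exact h.mul_left _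
  · exact dvd_zero _

theorem E_le_Gam (a : ℕ) : E ι a ≤ Gam ι a := by
  rw [E, Subgroup.closure_le]
  rintro _ ⟨p, hp, i, j, r, hij, rfl⟩
  exact conj_mem_Gam p (xe_mem_Gam hij (dvd_mul_right _ _))

/-- a column: `1 + u e_l^*` -/
theorem col_mem_E {a : ℕ} {l : ι} {u : V ι} (hl : u l = 0) (hu : ∀ i, X ^ a ∣ u i) :
    tau (co l) u ∈ E ι a := by
  induction u using Finsupp.induction with
  | zero => rw [tau_zero_right]; exact (E ι a).one_mem
  | single_add k r f hk hr ih =>
    by_cases hkl : k = l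
    · subst hkl
      rw [Finsupp.add_apply, Finsupp.single_eq_same, Finsupp.notMem_support_iff.1 hk, add_zero] at hl
      exact absurd hl hr
    · have hfl : f l = 0 := by
        rw [Finsupp.add_apply, Finsupp.single_apply, if_neg hkl, zero_add] at hl
        exact hl
      rw [tau_add_right (co_single hkl r) hfl]
      have hkr : X ^ a ∣ r := by
        have := hu k
        rwa [Finsupp.add_apply, Finsupp.single_eq_same, Finsupp.notMem_support_iff.1 hk,
          add_zero] at this
      refine (E ι a).mul_mem (xe_mem_E' hkl hkr) (ih hfl ?_)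
      intro i
      by_cases hik : i = k
      · subst hik
        rw [Finsupp.notMem_support_iff.1 hk]
        exact dvd_zero _
      · have := hu i
        rwa [Finsupp.add_apply, Finsupp.single_apply, if_neg (Ne.symm hik), zero_add] at this

end Pool.WFS.K
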