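import Pool.Agent.WFS.NilE

/-! # Tits' lemma without a new index (helper60, WFS, module K)

`p x_ij(ab) p⁻¹`, `a, b ∈ I`, is a product of elementary matrices with entries in `I`, on the same
(at least three) indices.
-/

set_option autoImplicit false
set_option linter.all false

namespace Pool.WFS.K.Tits

open Matrix Pool.WFS.Nil

variable {ι A : Type} [Fintype ι] [DecidableEq ι] [CommRing A]

/-- products of elementary matrices with entries in `I` -/
def FI (ι : Type) {A : Type} [Fintype ι] [DecidableEq ι] [CommRing A] (I : Ideal A) :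
    Subgroup (Matrix.SpecialLinearGroup ι A) :=
  Subgroup.closure {g | ∃ (i j : ι) (h : i ≠ j) (c : A), c ∈ I ∧ g = xs i j h c}

/-- a matrix in the image of `FI` -/
def InF (I : Ideal A) (M : Matrix ι ι A) : Prop := ∃ g ∈ FI ι I, (g : Matrix ι ι A) = M

theorem InF.one {I : Ideal A} : InF I (1 : Matrix ι ι A) :=
  ⟨1, one_mem _, Matrix.SpecialLinearGroup.coe_one⟩

theorem InF.mul {I : Ideal A} {M N : Matrix ι ι A} (h : InF I M) (h' : InF I N) : InF I (M * N) := by
  obtain ⟨g, hg, rfl⟩ := h
  obtain ⟨g', hg', rfl⟩ := h'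
  exact ⟨g * g', mul_mem hg hg', Matrix.SpecialLinearGroup.coe_mul _ _⟩

theorem InF.inv {I : Ideal A} {M N : Matrix ι ι A} (h : InF I M) (e : N * M = 1) : InF I N := by
  obtain ⟨g, hg, rfl⟩ := h
  refine ⟨g⁻¹, inv_mem hg, ?_⟩
  have e2 : (g : Matrix ι ι A) * ((g⁻¹ : Matrix.SpecialLinearGroup ι A) : Matrix ι ι A) = 1 := by
    rw [← Matrix.SpecialLinearGroup.coe_mul, mul_inv_cancel, Matrix.SpecialLinearGroup.coe_one]
  calc ((g⁻¹ : Matrix.SpecialLinearGroup ι A) : Matrix ι ι A)
      = N * (g : Matrix ι ι A) * ((g⁻¹ : Matrix.SpecialLinearGroup ι A) : Matrix ι ι A) := by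
        rw [e, Matrix.one_mul]
    _ = N := by rw [Matrix.mul_assoc, e2, Matrix.mul_one]

theorem InF.el {I : Ideal A} {i j : ι} (h : i ≠ j) {c : A} (hc : c ∈ I) :
    InF I (1 + Matrix.single i j c) :=
  ⟨xs i j h c, Subgroup.subset_closure ⟨i, j, h, c, hc, rfl⟩, coe_xs i j h c⟩

/-- products with a common row -/
theorem InF.sum_col {I : Ideal A} {κ : Type} (T : Finset κ) (u : κ → ι → A) (w : ι → A)
    (h0 : ∀ s ∈ T, w ⬝ᵥ u s = 0) (h : ∀ s ∈ T, InF I (1 + vecMulVec (u s) w)) :
    InF I (1 + vecMulVec (∑ s ∈ T, u s) w) := by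
  classical
  induction T using Finset.induction_on with
  | empty =>
    simp only [Finset.sum_empty]
    rw [show vecMulVec (0 : ι → A) w = 0 by ext; simp [vecMulVec_apply], add_zero]
    exact InF.one
  | insert s T hs ih =>
    have h1 := h s (Finset.mem_insert_self _ _)
    have h2 := ih (fun t ht => h0 t (Finset.mem_insert_of_mem ht))
      (fun t ht => h t (Finset.mem_insert_of_mem ht))
    have := h1.mul h2
    convert this using 1
    have hz : w ⬝ᵥ (∑ t ∈ T, u t) = 0 := by
      rw [dotProduct_sum]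
      exact Finset.sum_eq_zero fun t ht => h0 t (Finset.mem_insert_of_mem ht)
    rw [Finset.sum_insert hs, Matrix.add_vecMulVec, add_mul, one_mul, mul_add, mul_one,
      Matrix.vecMulVec_mul_vecMulVec, hz, zero_smul, Matrix.vecMulVec_zero, add_zero]
    abel

/-- products with a common column -/
theorem InF.sum_row {I : Ideal A} {κ : Type} (T : Finset κ) (w : κ → ι → A) (u : ι → A)
    (h0 : ∀ s ∈ T, w s ⬝ᵥ u = 0) (h : ∀ s ∈ T, InF I (1 + vecMulVec u (w s))) :
    InF I (1 + vecMulVec u (∑ s ∈ T, w s)) := by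
  classical
  induction T using Finset.induction_on with
  | empty =>
    simp only [Finset.sum_empty]
    rw [Matrix.vecMulVec_zero, add_zero]
    exact InF.one
  | insert s T hs ih =>
    have h1 := h s (Finset.mem_insert_self _ _)
    have h2 := ih (fun t ht => h0 t (Finset.mem_insert_of_mem ht))
      (fun t ht => h t (Finset.mem_insert_of_mem ht))
    have := h1.mul h2
    convert this using 1
    rw [Finset.sum_insert hs, Matrix.vecMulVec_add, add_mul, one_mul, mul_add, mul_one,
      Matrix.vecMulVec_mul_vecMulVec, h0 s (Finset.mem_insert_self _ _), zero_smul,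
      Matrix.vecMulVec_zero, add_zero]
    abel

/-- the row `v_l e_k - v_k e_l` -/
def wr (v : ι → A) (k l : ι) : ι → A := Pi.single k (v l) - Pi.single l (v k)

theorem wr_dot (v : ι → A) (k l : ι) (u : ι → A) : wr v k l ⬝ᵥ u = v l * u k - v k * u l := by
  unfold wr
  rw [sub_dotProduct, single_dotProduct, single_dotProduct]

theorem single_vmv (i k : ι) (c d : A) :
    vecMulVec (Pi.single i c) (Pi.single k d) = Matrix.single i k (c * d) := by
  ext a b
  rw [vecMulVec_apply, Matrix.single_apply, Pi.single_apply, Pi.single_apply]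
  by_cases ha : a = i <;> by_cases hb : b = k
  · simp [ha, hb]
  · simp [ha, hb, Ne.symm hb]
  · simp [ha, hb, Ne.symm ha]
  · simp [ha, hb, Ne.symm ha]

/-- the outer factors -/
theorem InF.out {I : Ideal A} {i k l : ι} (hk : i ≠ k) (hl : i ≠ l) (v : ι → A) {c : A}
    (hc : c ∈ I) : InF I (1 + vecMulVec (Pi.single i c) (wr v k l)) := by
  have h1 : InF I (1 + Matrix.single i k (c * v l)) := InF.el hk (I.mul_mem_right _ hc)
  have h2 : InF I (1 + Matrix.single i l (-(c * v k))) :=
    InF.el hl (I.neg_mem (I.mul_mem_right _ hc))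
  have := h1.mul h2
  convert this using 1
  have e : vecMulVec (Pi.single i c) (wr v k l) =
      Matrix.single i k (c * v l) + Matrix.single i l (-(c * v k)) := by
    unfold wr
    rw [sub_eq_add_neg, Matrix.vecMulVec_add, ← Pi.single_neg, single_vmv, single_vmv, mul_neg]
  rw [e, add_mul, one_mul, mul_add, mul_one, Matrix.single_mul_single_of_ne _ _ _ _ (Ne.symm hk),
    add_zero]
  abel

/-- the inner factor -/
theorem InF.inn {I : Ideal A} {i k l : ι} (hk : i ≠ k) (hl : i ≠ l) (hkl : k ≠ l) (v : ι → A)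
    {a b : A} (ha : a ∈ I) (hb : b ∈ I) (u : A) :
    InF I (1 + vecMulVec (Pi.single k (a * b * u * v k) + Pi.single l (a * b * u * v l))
      (wr v k l)) := by
  -- `P = 1 + (a u v') e_i`, `Q = 1 + (b e_i) w`
  set x : ι → A := Pi.single k (a * u * v k) + Pi.single l (a * u * v l) with hx
  set w := wr v k l with hw
  have hB : ∀ s : A, s ∈ I → InF I (1 + vecMulVec (Pi.single i s) w) := fun s hs => InF.out hk hl v hs
  have hA : ∀ s : A, s ∈ I → InF I (1 + vecMulVec (Pi.single k (s * u * v k) +
      Pi.single l (s * u * v l)) (Pi.single i (1 : A))) := by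
    intro s hs
    have h1 : InF I (1 + Matrix.single k i (s * u * v k)) :=
      InF.el (Ne.symm hk) (I.mul_mem_right _ (I.mul_mem_right _ hs))
    have h2 : InF I (1 + Matrix.single l i (s * u * v l)) :=
      InF.el (Ne.symm hl) (I.mul_mem_right _ (I.mul_mem_right _ hs))
    have := h1.mul h2
    convert this using 1
    rw [Matrix.add_vecMulVec, single_vmv, single_vmv, mul_one, mul_one, add_mul, one_mul, mul_add,
      mul_one, Matrix.single_mul_single_of_ne _ _ _ _ hl, add_zero]
    abel
  have hA1 := hA a ha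
  rw [← hx] at hA1
  have hA2 := hA (-a) (I.neg_mem ha)
  have ex : (Pi.single k (-a * u * v k) + Pi.single l (-a * u * v l) : ι → A) = -x := by
    rw [hx, neg_add, ← Pi.single_neg, ← Pi.single_neg]
    congr 2 <;> ring
  rw [ex] at hA2
  have hB1 := hB b hb
  have hB2 := hB (-b) (I.neg_mem hb)
  have eb : (Pi.single i (-b) : ι → A) = -Pi.single i b := by rw [← Pi.single_neg]
  rw [eb] at hB2
  have := ((hA1.mul hB1).mul hA2).mul hB2
  convert this using 1
  have hix : (Pi.single i (1 : A)) ⬝ᵥ x = 0 := by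
    rw [single_dotProduct, hx]
    simp [hk, hl]
  have hwx : w ⬝ᵥ x = 0 := by
    rw [hw, wr_dot, hx]
    simp [hkl, Ne.symm hkl]
    ring
  have hwi : w ⬝ᵥ (Pi.single i b) = 0 := by
    rw [hw, wr_dot]
    simp [Ne.symm hk, Ne.symm hl]
  have hii : (Pi.single i (1 : A)) ⬝ᵥ (Pi.single i b : ι → A) = b := by
    rw [single_dotProduct]; simp
  have e1 : (Pi.single k (a * b * u * v k) + Pi.single l (a * b * u * v l) : ι → A) = b • x := by
    rw [hx, smul_add]
    ext t
    simp only [Pi.add_apply, Pi.smul_apply, smul_eq_mul]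
    by_cases h1 : t = k
    · subst h1
      simp [hkl]; ring
    · by_cases h2 : t = l
      · subst h2
        simp [Ne.symm hkl]; ring
      · simp [h1, h2]
  rw [e1]
  set y : ι → A := Pi.single i b with hy
  set e : ι → A := Pi.single i (1 : A) with he
  have m1 : vecMulVec x e * vecMulVec x e = 0 := by
    rw [Matrix.vecMulVec_mul_vecMulVec, hix, zero_smul, Matrix.vecMulVec_zero]
  have m2 : vecMulVec y w * vecMulVec x e = 0 := by
    rw [Matrix.vecMulVec_mul_vecMulVec, hwx, zero_smul, Matrix.vecMulVec_zero]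
  have m3 : vecMulVec y w * vecMulVec y w = 0 := by
    rw [Matrix.vecMulVec_mul_vecMulVec, hwi, zero_smul, Matrix.vecMulVec_zero]
  have m4 : vecMulVec x e * vecMulVec y w = vecMulVec (b • x) w := by
    rw [Matrix.vecMulVec_mul_vecMulVec, hii, Matrix.vecMulVec_smul, Matrix.smul_vecMulVec]
  rw [Matrix.neg_vecMulVec, Matrix.neg_vecMulVec, ← m4]
  generalize vecMulVec x e = U at *
  generalize vecMulVec y w = W at *
  have m5 : U * W * U = 0 := by rw [mul_assoc, m2, mul_zero]
  have m6 : U * W * W = 0 := by rw [mul_assoc, m3, mul_zero]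
  have : (1 + U) * (1 + W) * (1 + -U) * (1 + -W) =
      1 + U * W - U * U - W * U - U * W * U - W * W - U * W * W + U * U * W + W * U * W +
        U * W * U * W := by noncomm_ring
  rw [this, m1, m2, m3, m5, m6]
  simp

/-- a factor -/
theorem InF.fac {I : Ideal A} (h3 : ∀ k l : ι, ∃ i, i ≠ k ∧ i ≠ l) {k l : ι} (hkl : k ≠ l)
    (v : ι → A) {a b : A} (ha : a ∈ I) (hb : b ∈ I) (u : A) :
    InF I (1 + vecMulVec ((a * b * u) • v) (wr v k l)) := by
  obtain ⟨i, hk, hl⟩ := h3 k l
  have h1 := InF.inn hk hl hkl v ha hb u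
  have h2 : InF I (1 + vecMulVec (∑ t ∈ (Finset.univ.erase k).erase l,
      (Pi.single t (a * b * u * v t) : ι → A)) (wr v k l)) := by
    apply InF.sum_col
    · intro t ht
      rw [Finset.mem_erase, Finset.mem_erase] at ht
      rw [wr_dot]
      simp [Ne.symm ht.1, Ne.symm ht.2.1]
    · intro t ht
      rw [Finset.mem_erase, Finset.mem_erase] at ht
      apply InF.out ht.2.1 ht.1
      exact I.mul_mem_right _ (I.mul_mem_right _ (I.mul_mem_right _ ha))
  have := h1.mul h2
  convert this using 1
  have e1 : ((a * b * u) • v : ι → A) = (Pi.single k (a * b * u * v k) +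
      Pi.single l (a * b * u * v l)) + ∑ t ∈ (Finset.univ.erase k).erase l,
      (Pi.single t (a * b * u * v t) : ι → A) := by
    have e2 : ((a * b * u) • v : ι → A) = ∑ t, (Pi.single t (a * b * u * v t) : ι → A) := by
      ext s
      rw [Finset.sum_apply, Finset.sum_eq_single s]
      · simp
      · intro t _ ht
        simp [Ne.symm ht]
      · intro h; exact absurd (Finset.mem_univ _) h
    rw [e2, ← Finset.add_sum_erase Finset.univ _ (Finset.mem_univ k),
      ← Finset.add_sum_erase (Finset.univ.erase k) _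
        (Finset.mem_erase.2 ⟨Ne.symm hkl, Finset.mem_univ l⟩), add_assoc]
  have hz : wr v k l ⬝ᵥ (∑ t ∈ (Finset.univ.erase k).erase l,
      (Pi.single t (a * b * u * v t) : ι → A)) = 0 := by
    rw [dotProduct_sum]
    refine Finset.sum_eq_zero fun t ht => ?_
    rw [Finset.mem_erase, Finset.mem_erase] at ht
    rw [wr_dot]
    simp [Ne.symm ht.1, Ne.symm ht.2.1]
  rw [e1, Matrix.add_vecMulVec, add_mul, one_mul, mul_add, mul_one,
    Matrix.vecMulVec_mul_vecMulVec, hz, zero_smul, Matrix.vecMulVec_zero, add_zero]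
  abel

theorem wr_sum (v φ ρ : ι → A) (h0 : φ ⬝ᵥ v = 0) (h1 : ρ ⬝ᵥ v = 1) :
    φ = ∑ s ∈ (Finset.univ : Finset (ι × ι)).filter (fun s => s.1 ≠ s.2),
      (φ s.1 * ρ s.2) • wr v s.1 s.2 := by
  rw [Finset.sum_filter_of_ne]
  · rw [← Finset.univ_product_univ, Finset.sum_product]
    ext t
    simp only [Finset.sum_apply, Pi.smul_apply, smul_eq_mul, wr, Pi.sub_apply, mul_sub,
      Finset.sum_sub_distrib]
    have e1 : ∑ k, ∑ l, φ k * ρ l * (Pi.single k (v l) : ι → A) t = φ t := by
      rw [Finset.sum_eq_single t]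
      · simp only [Pi.single_eq_same]
        rw [show (∑ l, φ t * ρ l * v l) = φ t * (ρ ⬝ᵥ v) by
          rw [dotProduct, Finset.mul_sum]
          exact Finset.sum_congr rfl fun l _ => by ring]
        rw [h1, mul_one]
      · intro k _ hk
        refine Finset.sum_eq_zero fun l _ => ?_
        simp [Ne.symm hk]
      · intro h; exact absurd (Finset.mem_univ _) h
    have e2 : ∑ k, ∑ l, φ k * ρ l * (Pi.single l (v k) : ι → A) t = 0 := by
      rw [Finset.sum_comm, Finset.sum_eq_single t]
      · simp only [Pi.single_eq_same]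
        rw [show (∑ k, φ k * ρ t * v k) = ρ t * (φ ⬝ᵥ v) by
          rw [dotProduct, Finset.mul_sum]
          exact Finset.sum_congr rfl fun l _ => by ring]
        rw [h0, mul_zero]
      · intro l _ hl
        refine Finset.sum_eq_zero fun k _ => ?_
        simp [Ne.symm hl]
      · intro h; exact absurd (Finset.mem_univ _) h
    rw [e1, e2, sub_zero]
  · rintro ⟨k, l⟩ _ h he
    apply h
    simp only at he ⊢
    subst he
    simp [wr]

/-- **Tits** -/
theorem conj_mem_FI (h3 : ∀ k l : ι, ∃ i, i ≠ k ∧ i ≠ l) {I : Ideal A}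
    (p : Matrix.SpecialLinearGroup ι A) {i j : ι} (h : i ≠ j) {a b : A} (ha : a ∈ I) (hb : b ∈ I)
    (r : A) : p * xs i j h (a * b * r) * p⁻¹ ∈ FI ι I := by
  set P : Matrix ι ι A := (p : Matrix ι ι A) with hP
  set P' : Matrix ι ι A := ((p⁻¹ : Matrix.SpecialLinearGroup ι A) : Matrix ι ι A) with hP'
  have hPP : P' * P = 1 := by
    rw [hP, hP', ← Matrix.SpecialLinearGroup.coe_mul, inv_mul_cancel,
      Matrix.SpecialLinearGroup.coe_one]
  have hPP' : P * P' = 1 := by
    rw [hP, hP', ← Matrix.SpecialLinearGroup.coe_mul, mul_inv_cancel,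
      Matrix.SpecialLinearGroup.coe_one]
  set v : ι → A := fun s => P s i with hv
  set φ : ι → A := fun s => P' j s with hφ
  set ρ : ι → A := fun s => P' i s with hρ
  have h0 : φ ⬝ᵥ v = 0 := by
    have := congrFun (congrFun hPP j) i
    rw [Matrix.mul_apply, Matrix.one_apply_ne (Ne.symm h)] at this
    exact this
  have h1 : ρ ⬝ᵥ v = 1 := by
    have := congrFun (congrFun hPP i) i
    rw [Matrix.mul_apply, Matrix.one_apply_eq] at this
    exact this
  have key : InF I (1 + vecMulVec v ((a * b * r) • φ)) := by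
    have e : (a * b * r) • φ = ∑ s ∈ (Finset.univ : Finset (ι × ι)).filter (fun s => s.1 ≠ s.2),
        (a * b * r) • ((φ s.1 * ρ s.2) • wr v s.1 s.2) := by
      conv_lhs => rw [wr_sum v φ ρ h0 h1]
      rw [Finset.smul_sum]
    rw [e]
    apply InF.sum_row
    · intro s _
      rw [smul_dotProduct, smul_dotProduct, wr_dot]
      simp [mul_comm]
    · intro s hs
      rw [Finset.mem_filter] at hs
      have := InF.fac h3 hs.2 v ha hb (r * (φ s.1 * ρ s.2))
      rw [smul_smul, Matrix.vecMulVec_smul, ← Matrix.smul_vecMulVec]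
      convert this using 4
      ring
  obtain ⟨g, hg, e⟩ := key
  have : p * xs i j h (a * b * r) * p⁻¹ = g := by
    apply Subtype.ext
    rw [e]
    rw [Matrix.SpecialLinearGroup.coe_mul, Matrix.SpecialLinearGroup.coe_mul, coe_xs, ← hP, ← hP',
      mul_add, add_mul, mul_one, hPP']
    congr 1
    ext s t
    rw [Matrix.mul_apply, Finset.sum_eq_single j]
    · rw [Matrix.mul_apply, Finset.sum_eq_single i]
      · rw [Matrix.single_apply_same, vecMulVec_apply]
        simp only [hv, hφ, Pi.smul_apply, smul_eq_mul]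
        ring
      · intro b' _ hb'
        rw [Matrix.single_apply, if_neg (fun h => hb' h.1.symm), mul_zero]
      · intro h'; exact absurd (Finset.mem_univ _) h'
    · intro b' _ hb'
      rw [Matrix.mul_apply]
      rw [Finset.sum_eq_zero, zero_mul]
      intro c _
      rw [Matrix.single_apply, if_neg (fun h => hb' h.2.symm), mul_zero]
    · intro h'; exact absurd (Finset.mem_univ _) h'
  rw [this]
  exact hg

end Pool.WFS.K.Tits
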