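import Mathlib

/-! # Torsion of the class `[x_ij(X), x_ji(X^a)]` (helper60, WFS, module K)

Steinberg relations on three indices, `x_pq(r) = 1` for `D ∣ r`. Then `[x_ij(r), x_ji(s)]`
(`D ∣ r s`) is central, does not depend on the pair of indices, and Hall-Witt gives
`[x_ij(X), x_ji(X^(m-1))]^m = 1` (`D = X^m`).
-/

set_option autoImplicit false
set_option linter.all false

namespace Pool.WFS.K

/-- Steinberg relations -/
structure St {ι Q R : Type} [Group Q] [CommRing R] (x : ι → ι → R → Q) : Prop where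
  add : ∀ i j, i ≠ j → ∀ r s, x i j (r + s) = x i j r * x i j s
  comm : ∀ i j k, i ≠ j → j ≠ k → i ≠ k → ∀ r s,
    x i j r * x j k s * (x i j r)⁻¹ * (x j k s)⁻¹ = x i k (r * s)
  row : ∀ i j k, i ≠ j → j ≠ k → i ≠ k → ∀ r s, Commute (x i j r) (x i k s)
  col : ∀ i j k, i ≠ j → j ≠ k → i ≠ k → ∀ r s, Commute (x i k r) (x j k s)

/-- the commutator `[x_ij(r), x_ji(s)]` -/
def Fc {ι Q R : Type} [Group Q] (x : ι → ι → R → Q) (i j : ι) (r s : R) : Q :=
  x i j r * x j i s * (x i j r)⁻¹ * (x j i s)⁻¹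

section

variable {ι Q R : Type} [Group Q] [CommRing R] {x : ι → ι → R → Q}

theorem Fc_inv (i j : ι) (r s : R) : (Fc x i j r s)⁻¹ = Fc x j i s r := by
  unfold Fc; group

theorem St.zero (h : St x) {i j : ι} (hij : i ≠ j) : x i j 0 = 1 := by
  have := h.add i j hij 0 0
  rw [add_zero] at this
  exact left_eq_mul.1 this

theorem St.neg (h : St x) {i j : ι} (hij : i ≠ j) (r : R) : x i j (-r) = (x i j r)⁻¹ := by
  have := h.add i j hij r (-r)
  rw [add_neg_cancel, h.zero hij] at this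
  exact eq_inv_of_mul_eq_one_right this.symm

/-- transpose inverse -/
theorem St.tr (h : St x) : St (fun i j r => x j i (-r)) where
  add i j hij r s := by
    show x j i (-(r + s)) = x j i (-r) * x j i (-s)
    rw [neg_add, h.add j i hij.symm]
  comm i j k hij hjk hik r s := by
    show x j i (-r) * x k j (-s) * (x j i (-r))⁻¹ * (x k j (-s))⁻¹ = x k i (-(r * s))
    have := h.comm k j i hjk.symm hij.symm hik.symm (-s) (-r)
    rw [h.neg hik.symm, show r * s = -s * -r by ring, ← this]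
    group
  row i j k hij hjk hik r s := h.col j k i hjk hik.symm hij.symm (-r) (-s)
  col i j k hij hjk hik r s := h.row k i j hik.symm hij hjk.symm (-r) (-s)

/-- conjugation form of `comm` -/
theorem St.cj (h : St x) {i j k : ι} (hij : i ≠ j) (hjk : j ≠ k) (hik : i ≠ k) (r s : R) :
    x i j r * x j k s * (x i j r)⁻¹ = x i k (r * s) * x j k s := by
  rw [← h.comm i j k hij hjk hik r s]; group

theorem St.cz1 (h : St x) {D : R} (h1 : ∀ p q, p ≠ q → ∀ r, D ∣ r → x p q r = 1) {i j k : ι}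
    (hij : i ≠ j) (hjk : j ≠ k) (hik : i ≠ k) {r s : R} (hD : D ∣ r * s) (t : R) :
    Commute (Fc x i j r s) (x i k t) := by
  -- conjugation by `x_ji(s)⁻¹`
  have e1 : (x j i s)⁻¹ * x i k t * x j i s = x j k (-s * t) * x i k t := by
    have := h.cj hij.symm hik hjk (-s) t
    rw [h.neg hij.symm, inv_inv] at this
    exact this
  have e2 : (x i j r)⁻¹ * x j k (-s * t) * x i j r = x j k (-s * t) := by
    have := h.cj hij hjk hik (-r) (-s * t)
    rw [h.neg hij, inv_inv, h1 i k hik (-r * (-s * t)) (by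
      obtain ⟨c, hc⟩ := hD
      refine ⟨c * t, ?_⟩
      have : -r * (-s * t) = r * s * t := by ring
      rw [this, hc]; ring), one_mul] at this
    exact this
  have e3 : (x i j r)⁻¹ * x i k t * x i j r = x i k t := by
    rw [mul_assoc, ← (h.row i j k hij hjk hik r t).eq, inv_mul_cancel_left]
  have e4 : x j i s * x j k (-s * t) * (x j i s)⁻¹ = x j k (-s * t) := by
    rw [(h.row j i k hij.symm hik hjk s (-s * t)).eq, mul_inv_cancel_right]
  have e5 : x j i s * x i k t * (x j i s)⁻¹ = x j k (s * t) * x i k t := h.cj hij.symm hik hjk s t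
  have e6 : x i j r * x i k t * (x i j r)⁻¹ = x i k t := by
    rw [(h.row i j k hij hjk hik r t).eq, mul_inv_cancel_right]
  have e7 : x j k (-s * t) * x j k (s * t) = 1 := by
    rw [← h.add j k hjk, show -s * t + s * t = 0 by ring, h.zero hjk]
  have key : Fc x i j r s * x i k t * (Fc x i j r s)⁻¹ = x i k t := by
    calc Fc x i j r s * x i k t * (Fc x i j r s)⁻¹
        = x i j r * (x j i s * ((x i j r)⁻¹ * ((x j i s)⁻¹ * x i k t * x j i s) * x i j r) *
          (x j i s)⁻¹) * (x i j r)⁻¹ := by unfold Fc; group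
      _ = x i j r * (x j i s * (((x i j r)⁻¹ * x j k (-s * t) * x i j r) *
          ((x i j r)⁻¹ * x i k t * x i j r)) * (x j i s)⁻¹) * (x i j r)⁻¹ := by rw [e1]; group
      _ = x i j r * ((x j i s * x j k (-s * t) * (x j i s)⁻¹) *
          (x j i s * x i k t * (x j i s)⁻¹)) * (x i j r)⁻¹ := by rw [e2, e3]; group
      _ = x i j r * ((x j k (-s * t) * x j k (s * t)) * x i k t) * (x i j r)⁻¹ := by
          rw [e4, e5]; group
      _ = x i k t := by rw [e7, one_mul, e6]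
  show _ * _ = _ * _
  rw [mul_inv_eq_iff_eq_mul] at key
  exact key

theorem St.cz2 (h : St x) {D : R} (h1 : ∀ p q, p ≠ q → ∀ r, D ∣ r → x p q r = 1) {i j k : ι}
    (hij : i ≠ j) (hjk : j ≠ k) (hik : i ≠ k) {r s : R} (hD : D ∣ r * s) (t : R) :
    Commute (Fc x i j r s) (x j k t) := by
  have := h.cz1 h1 hij.symm hik hjk (r := s) (s := r) (by rwa [mul_comm]) t
  rw [← Fc_inv] at this
  exact Commute.inv_left_iff.1 this

theorem St.cz3 (h : St x) {D : R} (h1 : ∀ p q, p ≠ q → ∀ r, D ∣ r → x p q r = 1) {i j k : ι}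
    (hij : i ≠ j) (hjk : j ≠ k) (hik : i ≠ k) {r s : R} (hD : D ∣ r * s) (t : R) :
    Commute (Fc x i j r s) (x k j t) := by
  have := h.tr.cz1 (D := D) (fun p q hpq r hr => h1 q p hpq.symm (-r) ((dvd_neg).2 hr))
    hij.symm hik hjk (r := -r) (s := -s) (by rwa [neg_mul_neg]) (-t)
  simp only [Fc, neg_neg] at this
  exact this

theorem St.cz4 (h : St x) {D : R} (h1 : ∀ p q, p ≠ q → ∀ r, D ∣ r → x p q r = 1) {i j k : ι}
    (hij : i ≠ j) (hjk : j ≠ k) (hik : i ≠ k) {r s : R} (hD : D ∣ r * s) (t : R) :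
    Commute (Fc x i j r s) (x k i t) := by
  have := h.cz3 h1 hij.symm hik hjk (r := s) (s := r) (by rwa [mul_comm]) t
  rw [← Fc_inv] at this
  exact Commute.inv_left_iff.1 this

theorem St.cz5 (h : St x) {D : R} (h1 : ∀ p q, p ≠ q → ∀ r, D ∣ r → x p q r = 1) {i j k : ι}
    (hij : i ≠ j) (hjk : j ≠ k) (hik : i ≠ k) {r s : R} (hD : D ∣ r * s) (t : R) :
    Commute (Fc x i j r s) (x i j t) := by
  have e := h.comm i k j hik hjk.symm hij t 1
  rw [mul_one] at e
  rw [← e]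
  have a1 := h.cz1 h1 hij hjk hik hD t
  have a2 := h.cz3 h1 hij hjk hik hD 1
  exact ((a1.mul_right a2).mul_right a1.inv_right).mul_right a2.inv_right

theorem St.cz6 (h : St x) {D : R} (h1 : ∀ p q, p ≠ q → ∀ r, D ∣ r → x p q r = 1) {i j k : ι}
    (hij : i ≠ j) (hjk : j ≠ k) (hik : i ≠ k) {r s : R} (hD : D ∣ r * s) (t : R) :
    Commute (Fc x i j r s) (x j i t) := by
  have := h.cz5 h1 hij.symm hik hjk (r := s) (s := r) (by rwa [mul_comm]) t
  rw [← Fc_inv] at this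
  exact Commute.inv_left_iff.1 this

theorem St.Fneg (h : St x) {D : R} (h1 : ∀ p q, p ≠ q → ∀ r, D ∣ r → x p q r = 1) {i j k : ι}
    (hij : i ≠ j) (hjk : j ≠ k) (hik : i ≠ k) {r s : R} (hD : D ∣ r * s) :
    Fc x i j r (-s) = (Fc x i j r s)⁻¹ := by
  have hD' : D ∣ r * (-s) := by rw [mul_neg]; exact (dvd_neg).2 hD
  have c := h.cz6 h1 hij hjk hik hD' s
  have e : Fc x i j r s * Fc x i j r (-s) = 1 := by
    calc Fc x i j r s * Fc x i j r (-s) = Fc x i j r s * (x j i s * Fc x i j r (-s) * (x j i s)⁻¹) := by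
          rw [← c.eq, mul_inv_cancel_right]
      _ = x i j r * (x j i s * x j i (-s)) * (x i j r)⁻¹ * (x j i s * x j i (-s))⁻¹ := by
          unfold Fc; group
      _ = 1 := by rw [← h.add j i hij.symm, add_neg_cancel, h.zero hij.symm]; group
  exact (eq_inv_of_mul_eq_one_right e)

/-- Hall-Witt -/
theorem St.HW (h : St x) {D : R} (h1 : ∀ p q, p ≠ q → ∀ r, D ∣ r → x p q r = 1) {i j k : ι}
    (hij : i ≠ j) (hjk : j ≠ k) (hik : i ≠ k) {r s t : R} (hD : D ∣ r * s * t) :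
    (Fc x i j (r * s) t)⁻¹ = (Fc x i k r (s * t))⁻¹ * Fc x j k (t * r) s := by
  have hD1 : D ∣ r * (s * t) := by rwa [← mul_assoc]
  have hD2 : D ∣ t * r * s := by
    have : t * r * s = r * s * t := by ring
    rwa [this]
  rw [← h.Fneg h1 hik hjk.symm hij hD1]
  set A := x i k r with hA
  set B := x k j s with hB
  set Cg := x j i t with hC
  set P := x j k (t * r) with hP
  set Qg := x k i (-(s * t)) with hQ
  set E := x i j (r * s) with hE
  set f0 := Fc x i j (r * s) t with hf0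
  set f1 := Fc x i k r (-(s * t)) with hf1
  set f2 := Fc x j k (t * r) s with hf2
  have hD1' : D ∣ r * (-(s * t)) := by rw [mul_neg]; exact (dvd_neg).2 hD1
  have eE : A * B * A⁻¹ * B⁻¹ = E := h.comm i k j hik hjk.symm hij r s
  have eP : Cg * A * Cg⁻¹ = P * A := h.cj hij.symm hik hjk t r
  have eQ : Cg * B * Cg⁻¹ = Qg * B := by
    have e := h.comm k j i hjk.symm hij.symm hik.symm s t
    have e' : Qg = (x k i (s * t))⁻¹ := h.neg hik.symm (s * t)
    rw [e', ← e, ← hB, ← hC]; group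
  have cPE : Commute P E := by
    have e := h.comm i j k hij hjk hik (r * s) (t * r)
    rw [h1 i k hik (r * s * (t * r)) (by
      obtain ⟨c, hc⟩ := hD
      exact ⟨c * r, by rw [← mul_assoc, ← mul_assoc, hc]⟩)] at e
    have : E * P = P * E := by
      rw [← hE, ← hP] at e
      rw [mul_inv_eq_one, mul_inv_eq_iff_eq_mul] at e
      exact e
    exact this.symm
  have cQE : Commute Qg E := by
    have e := h.comm k i j hik.symm hij hjk.symm (-(s * t)) (r * s)
    rw [h1 k j hjk.symm (-(s * t) * (r * s)) (by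
      obtain ⟨c, hc⟩ := hD
      refine ⟨-(c * s), ?_⟩
      have : -(s * t) * (r * s) = -((r * s * t) * s) := by ring
      rw [this, hc]; ring)] at e
    rw [← hE, ← hQ] at e
    rw [mul_inv_eq_one, mul_inv_eq_iff_eq_mul] at e
    exact e
  have cPQ : Commute P Qg := by
    have e := h.comm j k i hjk hik.symm hij.symm (t * r) (-(s * t))
    rw [h1 j i hij.symm (t * r * (-(s * t))) (by
      obtain ⟨c, hc⟩ := hD
      refine ⟨-(c * t), ?_⟩
      have : t * r * (-(s * t)) = -((r * s * t) * t) := by ring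
      rw [this, hc]; ring)] at e
    rw [← hP, ← hQ] at e
    rw [mul_inv_eq_one, mul_inv_eq_iff_eq_mul] at e
    exact e
  -- left side
  have l1 : Cg * E * Cg⁻¹ = f0⁻¹ * E := by
    have e4 : Cg * E⁻¹ * Cg⁻¹ = E⁻¹ * f0 := by
      show Cg * E⁻¹ * Cg⁻¹ = E⁻¹ * (E * Cg * E⁻¹ * Cg⁻¹)
      group
    have : Cg * E * Cg⁻¹ = (Cg * E⁻¹ * Cg⁻¹)⁻¹ := by group
    rw [this, e4]; group
  -- right side
  have c1P : Commute f1 P := h.cz3 h1 hik hjk.symm hij hD1' (t * r)
  have c1 : A * Qg = f1 * (Qg * A) := by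
    show A * Qg = (A * Qg * A⁻¹ * Qg⁻¹) * (Qg * A)
    group
  have c2 : B * P⁻¹ * B⁻¹ = P⁻¹ * f2 := by
    show B * P⁻¹ * B⁻¹ = P⁻¹ * (P * B * P⁻¹ * B⁻¹)
    group
  have c2Q : Commute f2 Qg := h.cz2 h1 hjk hik.symm hij.symm hD2 (-(s * t))
  have c2E : Commute f2 E := h.cz4 h1 hjk hik.symm hij.symm hD2 (r * s)
  have r1 : Cg * E * Cg⁻¹ = f1 * f2 * E := by
    calc Cg * E * Cg⁻¹ = (Cg * A * Cg⁻¹) * (Cg * B * Cg⁻¹) * (Cg * A * Cg⁻¹)⁻¹ *
          (Cg * B * Cg⁻¹)⁻¹ := by rw [← eE]; group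
      _ = P * (A * Qg) * B * A⁻¹ * P⁻¹ * B⁻¹ * Qg⁻¹ := by rw [eP, eQ]; group
      _ = (P * f1) * Qg * (A * B * A⁻¹ * B⁻¹) * (B * P⁻¹ * B⁻¹) * Qg⁻¹ := by rw [c1]; group
      _ = f1 * P * (Qg * E) * P⁻¹ * (f2 * Qg⁻¹) := by rw [← c1P.eq, eE, c2]; group
      _ = f1 * (P * E) * Qg * P⁻¹ * (Qg⁻¹ * f2) := by
          rw [cQE.eq, c2Q.inv_right.eq]; group
      _ = f1 * E * (P * Qg) * P⁻¹ * Qg⁻¹ * f2 := by rw [cPE.eq]; group
      _ = f1 * E * f2 := by rw [cPQ.eq]; group
      _ = f1 * f2 * E := by rw [mul_assoc, ← c2E.eq, mul_assoc]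
  rw [l1] at r1
  exact mul_right_cancel r1

/-- independence of the pair -/
theorem St.pi1 (h : St x) {D : R} (h1 : ∀ p q, p ≠ q → ∀ r, D ∣ r → x p q r = 1) {i j k : ι}
    (hij : i ≠ j) (hjk : j ≠ k) (hik : i ≠ k) {r t : R} (hD : D ∣ r * t) :
    Fc x i j r t = Fc x i k r t := by
  have e := h.HW h1 hij hjk hik (r := r) (s := 1) (t := t) (by rwa [mul_one])
  rw [mul_one, one_mul] at e
  have e2 : Fc x j k (t * r) 1 = 1 := by
    unfold Fc
    rw [h1 j k hjk (t * r) (by rwa [mul_comm])]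
    group
  rw [e2, mul_one] at e
  exact inv_injective e

theorem St.pi2 (h : St x) {D : R} (h1 : ∀ p q, p ≠ q → ∀ r, D ∣ r → x p q r = 1) {i j k : ι}
    (hij : i ≠ j) (hjk : j ≠ k) (hik : i ≠ k) {r t : R} (hD : D ∣ r * t) :
    Fc x j k r t = Fc x i j r t := by
  have hD' : D ∣ t * r := by rwa [mul_comm]
  calc Fc x j k r t = (Fc x k j t r)⁻¹ := (Fc_inv _ _ _ _).symm
    _ = (Fc x k i t r)⁻¹ := by rw [h.pi1 h1 hjk.symm hij.symm hik.symm hD']
    _ = Fc x i k r t := Fc_inv _ _ _ _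
    _ = Fc x i j r t := (h.pi1 h1 hij hjk hik hD).symm

theorem St.pi3 (h : St x) {D : R} (h1 : ∀ p q, p ≠ q → ∀ r, D ∣ r → x p q r = 1) {i j k : ι}
    (hij : i ≠ j) (hjk : j ≠ k) (hik : i ≠ k) {r t : R} (hD : D ∣ r * t) :
    Fc x j i r t = Fc x i j r t := by
  rw [h.pi1 h1 hij.symm hik hjk hD, h.pi2 h1 hij hjk hik hD]

/-- `f(r s, t) = f(r, s t) f(s, t r)` -/
theorem St.mulF (h : St x) {D : R} (h1 : ∀ p q, p ≠ q → ∀ r, D ∣ r → x p q r = 1) {i j k : ι}
    (hij : i ≠ j) (hjk : j ≠ k) (hik : i ≠ k) {r s t : R} (hD : D ∣ r * s * t) :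
    Fc x i j (r * s) t = Fc x i j s (t * r) * Fc x i j r (s * t) := by
  have e := h.HW h1 hij hjk hik hD
  have hD1 : D ∣ r * (s * t) := by rwa [← mul_assoc]
  have hD2 : D ∣ t * r * s := by
    have : t * r * s = r * s * t := by ring
    rwa [this]
  have hD3 : D ∣ s * (t * r) := by rwa [mul_comm]
  rw [← h.pi1 h1 hij hjk hik hD1, h.pi2 h1 hij hjk hik hD2] at e
  have e2 : Fc x i j (t * r) s = (Fc x i j s (t * r))⁻¹ := by
    rw [Fc_inv, h.pi3 h1 hij hjk hik hD2]
  rw [e2] at e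
  have := congrArg (fun z => z⁻¹) e
  simp only [inv_inv, mul_inv_rev] at this
  exact this

/-- the class of `[x_ij(X), x_ji(X^(m-1))]` has order dividing `m` -/
theorem St.tors (h : St x) {X : R} {m : ℕ} (hm : 1 ≤ m)
    (h1 : ∀ p q, p ≠ q → ∀ r, X ^ m ∣ r → x p q r = 1) {i j k : ι}
    (hij : i ≠ j) (hjk : j ≠ k) (hik : i ≠ k) :
    (Fc x i j X (X ^ (m - 1))) ^ m = 1 := by
  have key : ∀ n, 1 ≤ n → n ≤ m → Fc x i j (X ^ n) (X ^ (m - n)) =
      (Fc x i j X (X ^ (m - 1))) ^ n := by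
    intro n hn
    induction n, hn using Nat.le_induction with
    | base => intro _; rw [pow_one, pow_one]
    | succ n hn ih =>
      intro hnm
      have e := h.mulF h1 hij hjk hik (r := X) (s := X ^ n) (t := X ^ (m - (n + 1))) (by
        rw [← pow_succ', ← pow_add, show n + 1 + (m - (n + 1)) = m by omega])
      rw [← pow_succ', ← pow_succ, ← pow_add, show m - (n + 1) + 1 = m - n by omega,
        show n + (m - (n + 1)) = m - 1 by omega, ih (by omega)] at e
      rw [e, ← pow_succ]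
  have e := key m hm le_rfl
  rw [← e]
  unfold Fc
  rw [h1 i j hij (X ^ m) dvd_rfl]
  group

end

end Pool.WFS.K
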